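import Pool.Agent.Run7.h528.NR.TDefs
import Pool.Agent.N110.Can
import Pool.Agent.N110.NV.Cl
import Pool.Agent.N110.PA.Defs
import Pool.Agent.R887.Nef
import Pool.Agent.R887.DefsNefP

/-!
Every birational self-map of a minimal variety is an isomorphism in codimension one.
-/

set_option autoImplicit false
set_option linter.overlappingInstances false
set_option linter.unusedSectionVars false

open FF Module MvPolynomial Pool.Agent.W602.GT Pool.Agent.W603.LV
open Pool.Agent.Y172 Pool.Agent.Y191 Pool.Agent.R887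
open Pool.Agent.N110

namespace Run7.h528.NR

section

variable {K : Type} [Field K] [Algebra ℂ K] {N n : ℕ} {y : Fin (N + 1) → K}

/-- the pull back of sections -/
theorem pull_form (hy : NormalModel y) {Δ A : Place ℂ K → ℚ} (hA : Effective y A)
    {φ : K ≃ₐ[ℂ] K} (hφ : PullLe φ y n Δ) {E : Fin n → Derivation ℂ K K} (hfr : IsFrame E) :
    ∃ A' : Place ℂ K → ℚ, Effective y A' ∧ ∀ m b : ℕ, 1 ≤ m →
      ∀ ω : (Fin n → Derivation ℂ K K) → K, IsSection y n m (m • Δ + b • A) ω →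
        IsSection y n m (m • Δ + b • A') (pf φ ω) := by
  classical
  choose s hsc hs0 hs using fun j => disc_bound2 (Δ := Δ) (n := n) hy hA hfr j
  refine ⟨fun Q => ∑ j, |(Q.ord (φ (s j)) : ℚ)|, ⟨fun Q _ => Finset.sum_nonneg fun _ _ =>
    abs_nonneg _, ?_⟩, fun m b hm ω hsec => ?_⟩
  · refine (Set.finite_iUnion fun j => finite_ord hy (f := φ (s j))
      (by rw [Ne, map_eq_zero]; exact hs0 j)).subset ?_
    rintro Q ⟨hQ, h0⟩
    by_contra hcon
    simp only [Set.mem_iUnion, not_exists] at hcon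
    apply h0
    refine Finset.sum_eq_zero fun j _ => ?_
    have h1 : Q.ord (φ (s j)) = 0 := by
      by_contra h2
      exact hcon j ⟨hQ, h2⟩
    rw [h1]
    simp
  · refine ⟨pf_pluri φ hsec.1, fun Q hQ => pf_ordGe ?_⟩
    obtain ⟨α, hα, hα1⟩ := hφ Q hQ (comap φ Q) fun _ => rfl
    obtain ⟨j, hj⟩ := exists_centred hy (comap φ Q)
    have h2 := hs j (comap φ Q) hj α hα m b hm _ hsec
    intro E' hE'
    refine (h2 E' hE').imp_right fun h3 => le_trans ?_ h3
    rw [Pi.add_apply, Pi.smul_apply, Pi.smul_apply, nsmul_eq_mul, nsmul_eq_mul]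
    have h4 : ((comap φ Q).ord (s j) : ℚ) ≤ ∑ j, |(Q.ord (φ (s j)) : ℚ)| := by
      rw [comap_ord]
      refine (le_abs_self _).trans ?_
      exact Finset.single_le_sum (f := fun j => |(Q.ord (φ (s j)) : ℚ)|)
        (fun _ _ => abs_nonneg _) (Finset.mem_univ j)
    have h5 := mul_le_mul_of_nonneg_left h4 (show (0 : ℚ) ≤ b from Nat.cast_nonneg _)
    have h6 := mul_le_mul_of_nonneg_left hα1 (show (0 : ℚ) ≤ m from Nat.cast_nonneg _)
    linarith

/-- if `K_X + Δ` is nef and `(X, Δ)` is terminal, then the maps which preserve `K_X + Δ` do not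
extract divisors -/
theorem prime_of_terminal (hy : NormalModel y) (hn : Algebra.trdeg ℂ K = n)
    {Δ : Place ℂ K → ℚ} (hΔ : ∀ P, IsPrimeDivisor y P → 0 ≤ Δ P) (hT : TerminalPair y n Δ)
    (hnef : LogNef y n Δ) {φ : K ≃ₐ[ℂ] K} (h1 : PullLe φ.symm y n Δ) {Q : Place ℂ K}
    (hQ : IsPrimeDivisor y Q) : IsPrimeDivisor y (comap φ Q) := by
  have hQd := hQ.divisorial hy hn
  rcases hT (comap φ Q) (comap_divisorial hQd) with h | ⟨α, hα, hdisc⟩
  · exact h
  exfalso
  obtain ⟨x, E, hx, hE⟩ := exists_crd hn (k := ℂ) (K := K)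
  have hfr : IsFrame E := fun F => ⟨fun j => F (x j),
    (Pool.Agent.W73.PG.PULL.expand x hx E hE F).symm⟩
  obtain ⟨i, hi⟩ := hy.ne
  obtain ⟨Hy, hHe, hH⟩ := exists_hyp hy hi
  obtain ⟨A', hA', hpull⟩ := pull_form hy hHe h1 hfr
  obtain ⟨j, hj⟩ := exists_centred hy (comap φ Q)
  obtain ⟨s, -, -, hs⟩ := disc_bound2 (Δ := Δ) (n := n) hy hA' hfr j
  obtain ⟨q0, hq0⟩ := exists_nat_gt (((comap φ Q).ord s : ℚ) / (α - 1))
  have hα' : 0 < α - 1 := by linarith
  rw [div_lt_iff₀ hα'] at hq0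
  obtain ⟨q, hq⟩ : ∃ q, q = q0 + 1 := ⟨_, rfl⟩
  obtain ⟨m, hm, hω⟩ := hnef i hi q (by omega)
  obtain ⟨ω, hωt, hωg⟩ := hω Q hQd
  have hmq : 1 ≤ m * q := Nat.mul_pos hm (by omega)
  have hsec : IsSection y n (m * q) ((m * q) • Δ + m • Hy) ω := by
    refine ⟨hωt.1, fun R hR => ?_⟩
    obtain ⟨l, hl⟩ := exists_centred hy R
    have h2 := hωt.2 R l hR hl
    rw [Pi.add_apply, Pi.smul_apply, Pi.smul_apply, nsmul_eq_mul, nsmul_eq_mul, hH R l hR hl,
      neg_add, ← sub_eq_add_neg]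
    exact h2
  have hord := hs (comap φ Q) hj α hdisc (m * q) m hmq _ (hpull (m * q) m hmq ω hsec)
  obtain ⟨l, hl⟩ := exists_centred hy Q
  obtain ⟨-, D, hD, hD0, hDo⟩ := hωg Q l hQ (fun f hf => localRing_reg hf) hl
  have hD' : ∀ a, DerReg (comap φ Q) (dconj φ.symm.symm (D a)) := by
    intro a f hf
    rw [comap_reg] at hf ⊢
    rw [dconj_apply]
    have h3 := hD a _ hf
    have e : φ (φ.symm.symm.symm ((D a) (φ.symm.symm f))) = (D a) (φ f) := by
      change φ (φ.symm ((D a) (φ f))) = (D a) (φ f)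
      exact φ.apply_symm_apply _
    rw [e]
    exact h3
  have e1 : pf φ.symm ω (fun a => dconj φ.symm.symm (D a)) = φ.symm (ω D) := by
    unfold pf
    congr 2
    funext a
    exact dconj_symm φ.symm (D a)
  have h4 := hord _ hD'
  rw [e1] at h4
  rcases h4 with h4 | h4
  · exact hD0 ((map_eq_zero _).1 h4)
  · rw [comap_ord φ Q (φ.symm (ω D)), AlgEquiv.apply_symm_apply, hDo] at h4
    have h5 : (0 : ℚ) ≤ Q.ord (y i / y l) := by
      have := (Q.reg_iff (div_ne_zero hi hl.1)).1 (hl.2 i)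
      exact_mod_cast this
    have h6 := hΔ Q hQ
    have hm' : (0 : ℚ) < m := by exact_mod_cast hm
    have hmq' : (0 : ℚ) ≤ ((m * q : ℕ) : ℚ) := Nat.cast_nonneg _
    have h7 : (0 : ℚ) ≤ ((m * q : ℕ) : ℚ) * Δ Q := mul_nonneg hmq' h6
    have h8 : (0 : ℚ) ≤ (m : ℚ) * Q.ord (y i / y l) := mul_nonneg hm'.le h5
    have h9 : ((m * q : ℕ) : ℚ) * (α - 1) - m * ((comap φ Q).ord s : ℚ) ≤ 0 := by linarith
    rw [hq] at h9
    push_cast at h9
    have h10 : (m : ℚ) * (((q0 : ℚ) + 1) * (α - 1) - ((comap φ Q).ord s : ℚ)) ≤ 0 := by linarith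
    have h11 : 0 < ((q0 : ℚ) + 1) * (α - 1) - ((comap φ Q).ord s : ℚ) := by nlinarith
    have := mul_pos hm' h11
    linarith

/-- the maps which preserve `K_X + Δ`, and whose inverses do, are isomorphisms in codimension one -/
theorem pseudo_of_terminal (hy : NormalModel y) (hn : Algebra.trdeg ℂ K = n)
    {Δ : Place ℂ K → ℚ} (hΔ : ∀ P, IsPrimeDivisor y P → 0 ≤ Δ P) (hT : TerminalPair y n Δ)
    (hnef : LogNef y n Δ) {φ : K ≃ₐ[ℂ] K} (h1 : PullLe φ y n Δ) (h2 : PullLe φ.symm y n Δ) :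
    PseudoAut φ y := by
  intro P Q hPQ
  have e1 : P = comap φ Q := Place.ext (funext fun g => hPQ g)
  have e2 : Q = comap φ.symm P := by
    refine Place.ext (funext fun g => ?_)
    rw [comap_ord, hPQ, AlgEquiv.apply_symm_apply]
  constructor
  · intro hP
    rw [e2]
    exact prime_of_terminal hy hn hΔ hT hnef (φ := φ.symm) (by rwa [AlgEquiv.symm_symm]) hP
  · intro hQ
    rw [e1]
    exact prime_of_terminal hy hn hΔ hT hnef h2 hQ

/-- every birational self-map of a terminal variety preserves the canonical divisor -/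
theorem pullLe_terminal (hy : NormalModel y) (hn : Algebra.trdeg ℂ K = n)
    (hT : TerminalPair y n 0) (φ : K ≃ₐ[ℂ] K) : PullLe φ y n 0 := by
  intro Q hQ P hP
  have e1 : P = comap φ Q := Place.ext (funext fun g => hP g)
  have hd : Divisorial n P := by
    rw [e1]
    exact comap_divisorial (hQ.divisorial hy hn)
  rcases hT P hd with h | ⟨α, hα, h⟩
  · refine ⟨1, Or.inl ⟨h, ?_⟩, ?_⟩
    · rw [Pi.zero_apply, sub_zero]
    · rw [Pi.zero_apply, sub_zero]
  · refine ⟨α, h, ?_⟩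
    rw [Pi.zero_apply, sub_zero]
    exact hα.le

end

end Run7.h528.NR
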