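import Pool.Agent.N110.RK.Stat

/-!
Definition: the ordered products of automorphisms of a function field.
-/

set_option autoImplicit false

namespace Run7.h528.NR

/-- For automorphisms `f 0, ..., f (r - 1)` of the function field and `v` in `ℤ ^ r` the ordered
product `f 0 ^ (v 0) ∘ ... ∘ f (r - 1) ^ (v (r - 1))`. -/
def nprod {K : Type} [Field K] [Algebra ℂ K] {r : ℕ} (f : Fin r → (K ≃ₐ[ℂ] K))
    (v : Fin r → ℤ) : K ≃ₐ[ℂ] K := (List.ofFn fun i => f i ^ v i).prod

end Run7.h528.NR
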