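import Pool.Agent.N136.RK.Eig

/-!
Common eigenvectors of a nilpotent group of operators on a cone with compact basis. This
generalises the theorem of helper136 (`Pool/Agent/N136/RK/Eig.lean`) for commuting operators.
-/

set_option autoImplicit false

open Filter Topology

namespace Run7.h528.NR

section

variable {E : Type} [AddCommGroup E] [Module ℝ E] [TopologicalSpace E]

theorem le_one_of_pow {l R : ℝ} (hR : 0 ≤ R)
    (h : ∀ n : ℕ, l ^ (n * n) ≤ R ^ n) : l ≤ 1 := by
  by_contra hcon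
  push Not at hcon
  obtain ⟨n, hn⟩ := pow_unbounded_of_one_lt R hcon
  have h1 := h (n + 1)
  rw [pow_mul] at h1
  have h2 := le_of_pow_le_pow_left₀ (by omega) hR h1
  have h3 : l ^ n ≤ l ^ (n + 1) := pow_le_pow_right₀ hcon.le (by omega)
  linarith

/-- powers of operators which commute up to a factor -/
theorem comm_pow (S : Set E) (A B : E →L[ℝ] E) (l : ℝ) (hA : ∀ x ∈ S, A x ∈ S)
    (hB : ∀ x ∈ S, B x ∈ S) (h : ∀ x ∈ S, A (B x) = l • B (A x)) (m n : ℕ) :
    ∀ x ∈ S, A^[m] (B^[n] x) = l ^ (m * n) • B^[n] (A^[m] x) := by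
  have hAn : ∀ (j : ℕ), ∀ x ∈ S, A^[j] x ∈ S := by
    intro j
    induction j with
    | zero => intro x hx; exact hx
    | succ j ih => intro x hx; rw [Function.iterate_succ_apply']; exact hA _ (ih x hx)
  have hBn : ∀ (j : ℕ), ∀ x ∈ S, B^[j] x ∈ S := by
    intro j
    induction j with
    | zero => intro x hx; exact hx
    | succ j ih => intro x hx; rw [Function.iterate_succ_apply']; exact hB _ (ih x hx)
  have h1 : ∀ (j : ℕ), ∀ x ∈ S, A (B^[j] x) = l ^ j • B^[j] (A x) := by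
    intro j
    induction j with
    | zero => intro x _; simp
    | succ j ih =>
      intro x hx
      rw [Function.iterate_succ_apply', h _ (hBn j x hx), ih x hx, map_smul, smul_smul,
        Function.iterate_succ_apply', pow_succ']
  induction m with
  | zero => intro x _; simp
  | succ m ih =>
    intro x hx
    rw [Function.iterate_succ_apply', ih x hx, map_smul, h1 n _ (hAn m x hx), smul_smul,
      Function.iterate_succ_apply', ← pow_add]
    congr 2
    ring

theorem bounds (S : Set E) (N : E →L[ℝ] ℝ) (hsmul : ∀ c : ℝ, 0 ≤ c → ∀ x ∈ S, c • x ∈ S)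
    (hK : IsCompact {x | x ∈ S ∧ N x = 1}) (F : E →L[ℝ] E)
    (hF : ∀ x ∈ S, N x = 1 → 0 < N (F x)) (x₀ : E) (hx₀ : x₀ ∈ S) (hN : N x₀ = 1) :
    ∃ a b : ℝ, 0 < a ∧ 0 < b ∧ ∀ x ∈ S, 0 < N x → a * N x ≤ N (F x) ∧ N (F x) ≤ b * N x := by
  have hKne : {x | x ∈ S ∧ N x = 1}.Nonempty := ⟨x₀, hx₀, hN⟩
  have hc : ContinuousOn (fun x => N (F x)) {x | x ∈ S ∧ N x = 1} :=
    (N.continuous.comp F.continuous).continuousOn
  obtain ⟨z, hz, hzmin⟩ := hK.exists_isMinOn hKne hc
  obtain ⟨w, hw, hwmax⟩ := hK.exists_isMaxOn hKne hc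
  refine ⟨N (F z), N (F w), hF z hz.1 hz.2, hF w hw.1 hw.2, fun x hx hx0 => ?_⟩
  have h1 : (N x)⁻¹ • x ∈ {x | x ∈ S ∧ N x = 1} := by
    refine ⟨hsmul _ (inv_nonneg.2 hx0.le) x hx, ?_⟩
    rw [map_smul, smul_eq_mul, inv_mul_cancel₀ hx0.ne']
  have h2 := hzmin h1
  have h3 := hwmax h1
  simp only [Set.mem_ofPred_eq, map_smul, smul_eq_mul] at h2 h3
  rw [← div_eq_inv_mul] at h2 h3
  exact ⟨(le_div_iff₀ hx0).1 h2, (div_le_iff₀ hx0).1 h3⟩

theorem bounds_iter (S : Set E) (N : E →L[ℝ] ℝ) (F : E →L[ℝ] E) (hFS : ∀ x ∈ S, F x ∈ S)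
    {a b : ℝ} (ha : 0 < a) (hb : 0 < b)
    (h : ∀ x ∈ S, 0 < N x → a * N x ≤ N (F x) ∧ N (F x) ≤ b * N x) (n : ℕ) :
    ∀ x ∈ S, 0 < N x → F^[n] x ∈ S ∧ 0 < N (F^[n] x) ∧ a ^ n * N x ≤ N (F^[n] x) ∧
      N (F^[n] x) ≤ b ^ n * N x := by
  induction n with
  | zero => intro x hx h0; simp [hx, h0]
  | succ n ih =>
    intro x hx h0
    obtain ⟨h1, h2, h3, h4⟩ := ih x hx h0
    obtain ⟨h5, h6⟩ := h _ h1 h2
    rw [Function.iterate_succ_apply']
    refine ⟨hFS _ h1, lt_of_lt_of_le (mul_pos ha h2) h5, ?_, ?_⟩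
    · refine le_trans ?_ h5
      rw [pow_succ]
      have := mul_le_mul_of_nonneg_left h3 ha.le
      linarith
    · refine h6.trans ?_
      rw [pow_succ]
      have := mul_le_mul_of_nonneg_left h4 hb.le
      linarith

/-- operators which commute up to a factor commute -/
theorem factor_one (S : Set E) (N : E →L[ℝ] ℝ) (hsmul : ∀ c : ℝ, 0 ≤ c → ∀ x ∈ S, c • x ∈ S)
    (hK : IsCompact {x | x ∈ S ∧ N x = 1}) (A B : E →L[ℝ] E) (l : ℝ) (hl : 0 < l)
    (hA : ∀ x ∈ S, A x ∈ S) (hB : ∀ x ∈ S, B x ∈ S)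
    (hAN : ∀ x ∈ S, N x = 1 → 0 < N (A x)) (hBN : ∀ x ∈ S, N x = 1 → 0 < N (B x))
    (x₀ : E) (hx₀ : x₀ ∈ S) (hN : N x₀ = 1)
    (h : ∀ x ∈ S, A (B x) = l • B (A x)) : l = 1 := by
  obtain ⟨a, b, ha, hb, hab⟩ := bounds S N hsmul hK A hAN x₀ hx₀ hN
  obtain ⟨a', b', ha', hb', hab'⟩ := bounds S N hsmul hK B hBN x₀ hx₀ hN
  have h0 : 0 < N x₀ := by rw [hN]; exact one_pos
  have key : ∀ n : ℕ, l ^ (n * n) * (a * a') ^ n ≤ (b * b') ^ n ∧
      (a * a') ^ n ≤ l ^ (n * n) * (b * b') ^ n := by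
    intro n
    have e := congrArg N (comm_pow S A B l hA hB h n n x₀ hx₀)
    rw [map_smul, smul_eq_mul] at e
    obtain ⟨p1, p2, p3, p4⟩ := bounds_iter S N A hA ha hb hab n x₀ hx₀ h0
    obtain ⟨-, -, q3, q4⟩ := bounds_iter S N B hB ha' hb' hab' n _ p1 p2
    obtain ⟨r1, r2, r3, r4⟩ := bounds_iter S N B hB ha' hb' hab' n x₀ hx₀ h0
    obtain ⟨-, -, s3, s4⟩ := bounds_iter S N A hA ha hb hab n _ r1 r2
    rw [hN, mul_one] at p3 p4 r3 r4
    have hln : 0 < l ^ (n * n) := pow_pos hl _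
    rw [mul_pow, mul_pow]
    constructor
    · calc l ^ (n * n) * (a ^ n * a' ^ n) = l ^ (n * n) * (a' ^ n * a ^ n) := by ring
        _ ≤ l ^ (n * n) * (a' ^ n * N (A^[n] x₀)) := by gcongr
        _ ≤ l ^ (n * n) * N (B^[n] (A^[n] x₀)) := by gcongr
        _ = N (A^[n] (B^[n] x₀)) := e.symm
        _ ≤ b ^ n * N (B^[n] x₀) := s4
        _ ≤ b ^ n * b' ^ n := by gcongr
    · calc a ^ n * a' ^ n ≤ a ^ n * N (B^[n] x₀) := by gcongr
        _ ≤ N (A^[n] (B^[n] x₀)) := s3
        _ = l ^ (n * n) * N (B^[n] (A^[n] x₀)) := e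
        _ ≤ l ^ (n * n) * (b' ^ n * N (A^[n] x₀)) := by gcongr
        _ ≤ l ^ (n * n) * (b' ^ n * b ^ n) := by gcongr
        _ = l ^ (n * n) * (b ^ n * b' ^ n) := by ring
  have haa : 0 < a * a' := mul_pos ha ha'
  have hbb : 0 < b * b' := mul_pos hb hb'
  refine le_antisymm ?_ ?_
  · refine le_one_of_pow (R := b * b' / (a * a')) (by positivity) fun n => ?_
    rw [div_pow, le_div_iff₀ (pow_pos haa n)]
    exact (key n).1
  · have h1 : l⁻¹ ≤ 1 := by
      refine le_one_of_pow (R := b * b' / (a * a')) (by positivity) fun n => ?_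
      rw [div_pow, le_div_iff₀ (pow_pos haa n), inv_pow, inv_mul_le_iff₀ (pow_pos hl _)]
      exact (key n).2
    exact (inv_le_one₀ hl).1 h1

end

section

variable {E : Type} [AddCommGroup E] [Module ℝ E] [TopologicalSpace E] [IsTopologicalAddGroup E]
  [ContinuousSMul ℝ E] [T2Space E] [LocallyConvexSpace ℝ E]

theorem eigG {G : Type} [Group G] [Group.IsNilpotent G] {ι : Type} [Fintype ι] [Nonempty ι]
    (s : ι → G) (hs : Submonoid.closure (Set.range s) = ⊤)
    (𝓛 : Set E) (N : E →L[ℝ] ℝ) (T : G → E →L[ℝ] E) (x₀ : E) (B : ℝ)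
    (hadd : ∀ x ∈ 𝓛, ∀ y ∈ 𝓛, x + y ∈ 𝓛) (hsmul : ∀ c : ℝ, 0 ≤ c → ∀ x ∈ 𝓛, c • x ∈ 𝓛)
    (hK : IsCompact {x | x ∈ 𝓛 ∧ N x = 1}) (hN0 : ∀ x ∈ 𝓛, 0 ≤ N x)
    (hT1 : ∀ x, T 1 x = x) (hTm : ∀ g h x, T (g * h) x = T g (T h x))
    (hT : ∀ g, ∀ x ∈ 𝓛, T g x ∈ 𝓛) (hN : ∀ g, ∀ x ∈ 𝓛, N x = 1 → 0 < N (T g x))
    (hx₀ : x₀ ∈ 𝓛) (hNx₀ : N x₀ = 1)
    (hB : ∀ l l' : ℕ, N ((∑ i, T (s i))^[l + l'] x₀) ≤
      B * (N ((∑ i, T (s i))^[l] x₀) * N ((∑ i, T (s i))^[l'] x₀))) :
    ∃ x ∈ 𝓛, N x = 1 ∧ ∀ g, ∃ c : ℝ, 0 < c ∧ T g x = c • x := by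
  classical
  obtain ⟨P, hPdef⟩ : ∃ P : E →L[ℝ] E, P = ∑ i, T (s i) := ⟨_, rfl⟩
  have hPa : ∀ x, P x = ∑ i, T (s i) x := fun x => by
    rw [hPdef, _root_.sum_apply]
  have hzero : (0 : E) ∈ 𝓛 := by
    have := hsmul 0 le_rfl x₀ hx₀
    rwa [zero_smul] at this
  have hP : ∀ x ∈ 𝓛, P x ∈ 𝓛 := fun x hx => by
    rw [hPa]
    exact Finset.sum_induction _ (· ∈ 𝓛) (fun u v hu hv => hadd u hu v hv) hzero
      fun i _ => hT _ x hx
  have hNP : ∀ x ∈ 𝓛, N x = 1 → 0 < N (P x) := fun x hx hNx => by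
    rw [hPa, map_sum]
    exact Finset.sum_pos (fun i _ => hN _ x hx hNx) Finset.univ_nonempty
  have hPfun : (∑ i, (T (s i) : E → E)) = (P : E → E) := by
    funext y
    rw [hPa, Finset.sum_apply]
  rw [hPfun] at hB
  obtain ⟨x₁, hx₁, hNx₁, ρ, hρ, hPx₁⟩ :=
    Pool.Agent.N136.RK.eigenvector 𝓛 N P x₀ B hadd hsmul hK hP hNP hx₀ hNx₀ hB
  -- the induction
  have main : ∀ j : ℕ, ∃ χ : G → ℝ, (∀ g, 0 < χ g) ∧
      (∀ g, ∀ z ∈ Subgroup.upperCentralSeries G j, χ (g⁻¹ * z * g) = χ z) ∧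
      ∃ x ∈ 𝓛, N x = 1 ∧ P x = ρ • x ∧
        ∀ z ∈ Subgroup.upperCentralSeries G j, T z x = χ z • x := by
    intro j
    induction j with
    | zero =>
      refine ⟨fun _ => 1, fun _ => one_pos, fun _ _ _ => rfl, x₁, hx₁, hNx₁, hPx₁, ?_⟩
      intro z hz
      rw [Subgroup.upperCentralSeries_zero, Subgroup.mem_bot] at hz
      rw [hz, hT1, one_smul]
    | succ j ih =>
      obtain ⟨χ, hχ0, hχc, x₂, hx₂, hNx₂, hPx₂, hTx₂⟩ := ih
      obtain ⟨S, hS⟩ : ∃ S : Set E, S = {x | x ∈ 𝓛 ∧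
        ∀ z ∈ Subgroup.upperCentralSeries G j, T z x = χ z • x} := ⟨_, rfl⟩
      have hSmem : ∀ x, x ∈ S ↔ x ∈ 𝓛 ∧
          ∀ z ∈ Subgroup.upperCentralSeries G j, T z x = χ z • x := fun x => by rw [hS]; rfl
      have hSadd : ∀ x ∈ S, ∀ y ∈ S, x + y ∈ S := by
        intro x hx y hy
        rw [hSmem] at hx hy ⊢
        refine ⟨hadd _ hx.1 _ hy.1, fun z hz => ?_⟩
        rw [map_add, hx.2 z hz, hy.2 z hz, smul_add]
      have hSsmul : ∀ c : ℝ, 0 ≤ c → ∀ x ∈ S, c • x ∈ S := by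
        intro c hc x hx
        rw [hSmem] at hx ⊢
        refine ⟨hsmul c hc _ hx.1, fun z hz => ?_⟩
        rw [map_smul, hx.2 z hz, smul_comm]
      have hnorm : (Subgroup.upperCentralSeries G j).Normal := inferInstance
      have hST : ∀ g, ∀ x ∈ S, T g x ∈ S := by
        intro g x hx
        rw [hSmem] at hx ⊢
        refine ⟨hT g _ hx.1, fun z hz => ?_⟩
        have hz' : g⁻¹ * z * g ∈ Subgroup.upperCentralSeries G j := by
          have := hnorm.conj_mem z hz g⁻¹
          rwa [inv_inv] at this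
        have e1 : T z (T g x) = T g (T (g⁻¹ * z * g) x) := by
          rw [← hTm, ← hTm]
          congr 2
          group
        rw [e1, hx.2 _ hz', map_smul, hχc g z hz]
      have hSzero : (0 : E) ∈ S := by
        have := hSsmul 0 le_rfl x₂ ((hSmem _).2 ⟨hx₂, hTx₂⟩)
        rwa [zero_smul] at this
      have hSP : ∀ x ∈ S, P x ∈ S := fun x hx => by
        rw [hPa]
        exact Finset.sum_induction _ (· ∈ S) (fun u v hu hv => hSadd u hu v hv) hSzero
          fun i _ => hST _ x hx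
      have hx₂S : x₂ ∈ S := (hSmem _).2 ⟨hx₂, hTx₂⟩
      have hScl : IsClosed {x : E | ∀ z ∈ Subgroup.upperCentralSeries G j, T z x = χ z • x} := by
        have : {x : E | ∀ z ∈ Subgroup.upperCentralSeries G j, T z x = χ z • x} =
            ⋂ z ∈ Subgroup.upperCentralSeries G j, {x : E | T z x = χ z • x} := by
          ext x
          simp
        rw [this]
        exact isClosed_biInter fun z _ => isClosed_eq (T z).continuous (continuous_const_smul _)
      have hSK : IsCompact {x | x ∈ S ∧ N x = 1} := by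
        have : {x | x ∈ S ∧ N x = 1} = {x | x ∈ 𝓛 ∧ N x = 1} ∩
            {x : E | ∀ z ∈ Subgroup.upperCentralSeries G j, T z x = χ z • x} := by
          ext x
          simp only [Set.mem_ofPred_eq, Set.mem_inter_iff, hSmem]
          tauto
        rw [this]
        exact hK.inter_right hScl
      -- the operators commute
      have hcomm : ∀ z ∈ Subgroup.upperCentralSeries G (j + 1), ∀ g, ∀ x ∈ S,
          T z (T g x) = T g (T z x) := by
        intro z hz g
        have hk : z⁻¹ * g⁻¹ * z * g ∈ Subgroup.upperCentralSeries G j := by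
          have h1 := Subgroup.mem_upperCentralSeries_succ_iff.1
            ((Subgroup.upperCentralSeries G (j + 1)).inv_mem hz) g⁻¹
          rwa [commutatorElement_def, inv_inv, inv_inv] at h1
        have h1 : ∀ x ∈ S, T z (T g x) = χ (z⁻¹ * g⁻¹ * z * g) • T g (T z x) := by
          intro x hx
          have e1 : T z (T g x) = T g (T z (T (z⁻¹ * g⁻¹ * z * g) x)) := by
            rw [← hTm, ← hTm, ← hTm]
            congr 2
            group
          rw [e1, ((hSmem x).1 hx).2 _ hk, map_smul, map_smul]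
        have h2 := factor_one S N hSsmul hSK (T z) (T g) _ (hχ0 _) (hST z) (hST g)
          (fun x hx => hN z x ((hSmem x).1 hx).1) (fun x hx => hN g x ((hSmem x).1 hx).1)
          x₂ hx₂S hNx₂ h1
        intro x hx
        rw [h1 x hx, h2, one_smul]
      -- powers of P
      have hpow : ∀ g : G, ∃ m : ℕ, ∀ y ∈ S, ∃ y' ∈ S, P^[m] y = T g y + y' := by
        intro g
        have hg : g ∈ Submonoid.closure (Set.range s) := by rw [hs]; trivial
        induction hg using Submonoid.closure_induction with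
        | mem g hg =>
          obtain ⟨i, rfl⟩ := hg
          refine ⟨1, fun y hy => ⟨∑ k ∈ Finset.univ.erase i, T (s k) y, ?_, ?_⟩⟩
          · exact Finset.sum_induction _ (· ∈ S) (fun u v hu hv => hSadd u hu v hv) hSzero
              fun k _ => hST _ y hy
          · rw [Function.iterate_one, hPa]
            exact (Finset.add_sum_erase Finset.univ (fun k => T (s k) y)
              (Finset.mem_univ i)).symm
        | one =>
          refine ⟨0, fun y hy => ⟨0, hSzero, ?_⟩⟩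
          rw [Function.iterate_zero, id, hT1, add_zero]
        | mul g h _ _ ihg ihh =>
          obtain ⟨m, hm⟩ := ihg
          obtain ⟨m', hm'⟩ := ihh
          refine ⟨m + m', fun y hy => ?_⟩
          obtain ⟨y', hy', e1⟩ := hm' y hy
          obtain ⟨y'', hy'', e2⟩ := hm (T h y) (hST h y hy)
          have hPm : ∀ (m : ℕ), ∀ y ∈ S, P^[m] y ∈ S := by
            intro m
            induction m with
            | zero => intro y hy; exact hy
            | succ m ih =>
              intro y hy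
              rw [Function.iterate_succ_apply']
              exact hSP _ (ih y hy)
          refine ⟨y'' + P^[m] y', hSadd _ hy'' _ (hPm m y' hy'), ?_⟩
          have hadd' : ∀ (m : ℕ) (u v : E), P^[m] (u + v) = P^[m] u + P^[m] v := by
            intro m
            induction m with
            | zero => intro u v; rfl
            | succ m ih =>
              intro u v
              rw [Function.iterate_succ_apply', Function.iterate_succ_apply',
                Function.iterate_succ_apply', ih, map_add]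
          rw [Function.iterate_add_apply, e1, hadd', e2, hTm, add_assoc]
      -- extreme points of the eigenspace
      obtain ⟨Kg, hKg⟩ : ∃ Kg : Set E, Kg = {x | (x ∈ S ∧ N x = 1) ∧ P x = ρ • x} := ⟨_, rfl⟩
      have hKgc : IsCompact Kg := by
        have : Kg = {x | x ∈ S ∧ N x = 1} ∩ {x | P x = ρ • x} := hKg
        rw [this]
        exact hSK.inter_right (isClosed_eq P.continuous (continuous_const_smul ρ))
      obtain ⟨x, hxe⟩ := hKgc.extremePoints_nonempty ⟨x₂, by rw [hKg]; exact ⟨⟨hx₂S, hNx₂⟩, hPx₂⟩⟩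
      have hxK : x ∈ Kg := hxe.1
      rw [hKg] at hxK
      have hx : x ∈ S := hxK.1.1
      have hNx : N x = 1 := hxK.1.2
      have hPx : P x = ρ • x := hxK.2
      have hx𝓛 : x ∈ 𝓛 := ((hSmem x).1 hx).1
      have hPiter : ∀ m : ℕ, P^[m] x = ρ ^ m • x := by
        intro m
        induction m with
        | zero => simp
        | succ m ih => rw [Function.iterate_succ_apply', ih, map_smul, hPx, smul_smul, pow_succ]
      have hmemK : ∀ (y : E) (t : ℝ), 0 < t → y ∈ S → N y = t → P y = ρ • y → t⁻¹ • y ∈ Kg := by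
        intro y t ht hy hNy hPy
        rw [hKg]
        refine ⟨⟨hSsmul _ (inv_nonneg.2 ht.le) y hy, ?_⟩, ?_⟩
        · rw [map_smul, hNy, smul_eq_mul, inv_mul_cancel₀ ht.ne']
        · rw [map_smul, hPy, smul_comm]
      have heig : ∀ z ∈ Subgroup.upperCentralSeries G (j + 1), T z x = N (T z x) • x := by
        intro z hz
        obtain ⟨m, hm⟩ := hpow z
        obtain ⟨y, hy, e1⟩ := hm x hx
        rw [hPiter] at e1
        obtain ⟨c, hc⟩ : ∃ c, c = N (T z x) := ⟨_, rfl⟩
        have hc0 : 0 < c := by rw [hc]; exact hN z x hx𝓛 hNx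
        obtain ⟨R, hR⟩ : ∃ R, R = ρ ^ m := ⟨_, rfl⟩
        have hR0 : 0 < R := by rw [hR]; exact pow_pos hρ m
        rw [← hR] at e1
        have hPT : P (T z x) = ρ • T z x := by
          rw [hPa]
          have : ∀ i, T (s i) (T z x) = T z (T (s i) x) := fun i => (hcomm z hz (s i) x hx).symm
          rw [Finset.sum_congr rfl fun i _ => this i, ← map_sum, ← hPa, hPx, map_smul]
        have ey : y = R • x - T z x := by rw [e1]; abel
        have hPy : P y = ρ • y := by
          rw [ey, map_sub, map_smul, hPx, hPT, smul_sub, smul_comm]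
        obtain ⟨w, hw⟩ : ∃ w, w = y + R • x := ⟨_, rfl⟩
        have hwS : w ∈ S := by rw [hw]; exact hSadd _ hy _ (hSsmul R hR0.le x hx)
        have hNy : 0 ≤ N y := hN0 y ((hSmem y).1 hy).1
        have hNw : N w = N y + R := by
          rw [hw, map_add, map_smul, hNx, smul_eq_mul, mul_one]
        have hNw0 : 0 < N w := by rw [hNw]; linarith
        have hPw : P w = ρ • w := by
          rw [hw, map_add, map_smul, hPx, hPy, smul_add, smul_comm R]
        have hsum : T z x + w = (2 * R) • x := by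
          rw [hw, ey, two_mul, add_smul]
          abel
        have hcw : c + N w = 2 * R := by
          have := congrArg N hsum
          rw [map_add, map_smul, hNx, smul_eq_mul, mul_one, ← hc] at this
          exact this
        have h1 : c⁻¹ • T z x ∈ Kg := hmemK _ c hc0 (hST z x hx) hc.symm hPT
        have h2 : (N w)⁻¹ • w ∈ Kg := hmemK _ _ hNw0 hwS rfl hPw
        have h3 : x ∈ openSegment ℝ (c⁻¹ • T z x) ((N w)⁻¹ • w) := by
          refine ⟨c / (2 * R), N w / (2 * R), div_pos hc0 (by positivity),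
            div_pos hNw0 (by positivity), ?_, ?_⟩
          · rw [← add_div, hcw, div_self (by positivity)]
          · rw [smul_smul, smul_smul]
            have f1 : c / (2 * R) * c⁻¹ = (2 * R)⁻¹ := by field_simp
            have f2 : N w / (2 * R) * (N w)⁻¹ = (2 * R)⁻¹ := by
              have := hNw0.ne'
              field_simp
            rw [f1, f2, ← smul_add, hsum, smul_smul, inv_mul_cancel₀ (by positivity), one_smul]
        have h4 : c⁻¹ • T z x = x := hxe.2 h1 h2 h3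
        rw [← hc]
        conv_rhs => rw [← h4]
        rw [smul_smul, mul_inv_cancel₀ hc0.ne', one_smul]
      refine ⟨fun g => N (T g x), fun g => hN g x hx𝓛 hNx, ?_, x, hx𝓛, hNx, hPx, heig⟩
      intro g z hz
      have e1 : T (g⁻¹ * z * g) x = T z x := by
        rw [hTm, hTm, hcomm z hz g x hx, ← hTm, inv_mul_cancel, hT1]
      beta_reduce
      rw [e1]
  obtain ⟨c, hc⟩ := Group.IsNilpotent.nilpotent (G := G)
  obtain ⟨χ, hχ0, -, x, hx, hNx, -, hTx⟩ := main c
  exact ⟨x, hx, hNx, fun g => ⟨χ g, hχ0 g, hTx g (by rw [hc]; trivial)⟩⟩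

end

end Run7.h528.NR
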