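import Pool.Agent.Run7.h528.NR.Basic
import Pool.Agent.Run7.h528.NR.Eig

/-!
Semi-invariant forms of smaller degree on a nilpotent group. This generalises the theorem of
helper478 (`Pool/Agent/N478/RK/A.lean`) for lattices.
-/

set_option autoImplicit false

open Multiset Filter Topology

namespace Run7.h528.NR

open Pool.Agent.N110 Pool.Agent.N110.RK

section

variable {G : Type}

theorem mix_addG (θ θ' : G →₀ ℝ) (J : Multiset G → ℝ) :
    mix (θ + θ') J = mix θ J + mix θ' J := by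
  funext s
  show (θ + θ').sum (fun v c => c * J (v ::ₘ s)) =
    θ.sum (fun v c => c * J (v ::ₘ s)) + θ'.sum (fun v c => c * J (v ::ₘ s))
  exact Finsupp.sum_add_index' (fun _ => zero_mul _) fun _ _ _ => add_mul _ _ _

theorem mix_smulG (c : ℝ) (θ : G →₀ ℝ) (J : Multiset G → ℝ) :
    mix (c • θ) J = c • mix θ J := by
  funext s
  show (c • θ).sum (fun v c => c * J (v ::ₘ s)) = c * θ.sum (fun v c => c * J (v ::ₘ s))
  rw [Finsupp.sum_smul_index (fun _ => zero_mul _), Finsupp.mul_sum]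
  refine Finsupp.sum_congr fun v _ => ?_
  ring

theorem coneG_add {J x y : Multiset G → ℝ} (hx : x ∈ coneG J) (hy : y ∈ coneG J) :
    x + y ∈ coneG J := by
  refine map_mem_closure₂ continuous_add hx hy ?_
  rintro _ ⟨θ, hθ, rfl⟩ _ ⟨θ', hθ', rfl⟩
  exact ⟨θ + θ', fun v => add_nonneg (hθ v) (hθ' v), (mix_addG θ θ' J).symm⟩

theorem coneG_smul {J x : Multiset G → ℝ} {c : ℝ} (hc : 0 ≤ c) (hx : x ∈ coneG J) :
    c • x ∈ coneG J := by
  refine map_mem_closure (continuous_const_smul c) hx ?_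
  rintro _ ⟨θ, hθ, rfl⟩
  exact ⟨c • θ, fun v => mul_nonneg hc (hθ v), (mix_smulG c θ J).symm⟩

end

section

variable {G : Type} [Group G]

/-- the translation of a form -/
noncomputable def trG (u : G) : (Multiset G → ℝ) →L[ℝ] (Multiset G → ℝ) :=
  ContinuousLinearMap.pi fun s => ContinuousLinearMap.proj (s.map fun v => u * v)

theorem trG_apply (u : G) (L : Multiset G → ℝ) (s : Multiset G) :
    trG u L s = L (s.map fun v => u * v) := rfl

theorem trG_trG (u u' : G) (L : Multiset G → ℝ) : trG u (trG u' L) = trG (u' * u) L := by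
  funext s
  rw [trG_apply, trG_apply, trG_apply, Multiset.map_map]
  congr 1
  refine Multiset.map_congr rfl fun v _ => ?_
  simp only [Function.comp_apply]
  rw [mul_assoc]

theorem trG_one (L : Multiset G → ℝ) : trG 1 L = L := by
  funext s
  rw [trG_apply]
  simp

/-- evaluation -/
noncomputable def NkG (G : Type) [Group G] (k : ℕ) : (Multiset G → ℝ) →L[ℝ] ℝ :=
  ContinuousLinearMap.proj (replicate k 1)

theorem NkG_apply (k : ℕ) (L : Multiset G → ℝ) : NkG G k L = L (replicate k 1) := rfl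

theorem NkG_trG (k : ℕ) (u : G) (L : Multiset G → ℝ) :
    NkG G k (trG u L) = L (replicate k u) := by
  rw [NkG_apply, trG_apply, map_replicate, mul_one]

/-- the words of length `l` -/
noncomputable def words {ι : Type} [Fintype ι] (s : ι → G) : ℕ → Multiset G
  | 0 => {1}
  | l + 1 => (Finset.univ : Finset ι).val.bind fun i => (words s l).map fun g => s i * g

theorem iter_words {ι : Type} [Fintype ι] (s : ι → G) {E : Type} [AddCommGroup E] [Module ℝ E]
    [TopologicalSpace E] (T : G → E →L[ℝ] E) (hT1 : ∀ x, T 1 x = x)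
    (hTm : ∀ g h x, T (g * h) x = T g (T h x)) (l : ℕ) (y : E) :
    (∑ i, (T (s i) : E → E))^[l] y = ((words s l).map fun g => T g y).sum := by
  induction l with
  | zero => simp [words, hT1]
  | succ l ih =>
    rw [Function.iterate_succ_apply', ih, Finset.sum_apply, words, Multiset.map_bind,
      Multiset.sum_bind]
    change _ = ∑ i, _
    refine Finset.sum_congr rfl fun i _ => ?_
    rw [map_multiset_sum, Multiset.map_map, Multiset.map_map]
    congr 1
    refine Multiset.map_congr rfl fun g _ => ?_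
    exact (hTm _ _ _).symm

theorem sub_iterG {ι : Type} [Fintype ι] (s : ι → G) {E : Type} [AddCommGroup E] [Module ℝ E]
    [TopologicalSpace E] (T : G → E →L[ℝ] E) (N : E →L[ℝ] ℝ) (hT1 : ∀ x, T 1 x = x)
    (hTm : ∀ g h x, T (g * h) x = T g (T h x)) (B : ℝ) (x : E)
    (h : ∀ u v, N (T (u * v) x) ≤ B * (N (T u x) * N (T v x))) (l l' : ℕ) :
    N ((∑ i, (T (s i) : E → E))^[l + l'] x) ≤
      B * (N ((∑ i, (T (s i) : E → E))^[l] x) * N ((∑ i, (T (s i) : E → E))^[l'] x)) := by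
  have h1 : ∀ v, N (T v ((∑ i, (T (s i) : E → E))^[l'] x)) ≤
      B * N (T v x) * N ((∑ i, (T (s i) : E → E))^[l'] x) := by
    intro v
    rw [iter_words s T hT1 hTm, map_multiset_sum, map_multiset_sum, map_multiset_sum,
      Multiset.map_map, Multiset.map_map, Multiset.map_map, ← Multiset.sum_map_mul_left]
    refine Multiset.sum_map_le_sum_map _ _ fun g _ => ?_
    simp only [Function.comp_apply]
    rw [← hTm]
    have := h v g
    linarith
  rw [Function.iterate_add_apply, iter_words s T hT1 hTm l, iter_words s T hT1 hTm l,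
    map_multiset_sum, map_multiset_sum, Multiset.map_map, Multiset.map_map,
    ← Multiset.sum_map_mul_right, ← Multiset.sum_map_mul_left]
  refine Multiset.sum_map_le_sum_map _ _ fun g _ => ?_
  simp only [Function.comp_apply]
  have := h1 g
  linarith

variable {C : G → ℝ} {k : ℕ} {J : Multiset G → ℝ} {χ : G → ℝ}

theorem trG_mix (hC : ∀ v, 1 ≤ C v) (h : NF C (k + 1) J χ) (u : G) {θ : G →₀ ℝ}
    (hθ : ∀ v, 0 ≤ θ v) :
    ∃ θ' : G →₀ ℝ, (∀ v, 0 ≤ θ' v) ∧ trG u (mix θ J) = mix θ' J := by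
  refine ⟨χ u • θ.equivMapDomain (Equiv.mulLeft u⁻¹), fun v => ?_, ?_⟩
  · exact mul_nonneg (h.chi_pos hC u).le (hθ _)
  · rw [mix_smulG]
    funext s
    show θ.sum (fun v c => c * J (v ::ₘ s.map (fun v => u * v))) = χ u *
      (θ.equivMapDomain (Equiv.mulLeft u⁻¹)).sum (fun v c => c * J (v ::ₘ s))
    rw [Finsupp.sum_equivMapDomain, Finsupp.mul_sum]
    refine Finsupp.sum_congr fun v _ => ?_
    have h1 := h.inv u ((u⁻¹ * v) ::ₘ s)
    rw [map_cons, mul_inv_cancel_left] at h1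
    rw [h1]
    simp only [Equiv.coe_mulLeft]
    ring

theorem trG_cone (hC : ∀ v, 1 ≤ C v) (h : NF C (k + 1) J χ) (u : G) {x : Multiset G → ℝ}
    (hx : x ∈ coneG J) : trG u x ∈ coneG J := by
  refine map_mem_closure (trG u).continuous hx ?_
  rintro _ ⟨θ, hθ, rfl⟩
  obtain ⟨θ', h1, h2⟩ := trG_mix hC h u hθ
  exact ⟨θ', h1, h2⟩

/-- semi-invariant forms of smaller degree -/
theorem leafAG [Group.IsNilpotent G] {ι : Type} [Fintype ι] [Nonempty ι] (s : ι → G)
    (hs : Submonoid.closure (Set.range s) = ⊤) (hC : ∀ v, 1 ≤ C v) (hJ : NF C (k + 1) J χ) :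
    ∃ L ∈ coneG J, ∃ χ' : G → ℝ, NF C k L χ' := by
  obtain ⟨T, hT⟩ : ∃ T : G → (Multiset G → ℝ) →L[ℝ] (Multiset G → ℝ), ∀ g, T g = trG g⁻¹ :=
    ⟨fun g => trG g⁻¹, fun _ => rfl⟩
  have hT1 : ∀ x, T 1 x = x := fun x => by rw [hT, inv_one, trG_one]
  have hTm : ∀ g h x, T (g * h) x = T g (T h x) := fun g h x => by
    rw [hT, hT, hT, trG_trG, mul_inv_rev]
  obtain ⟨x₀, hx₀⟩ : ∃ x₀, x₀ = mix (Finsupp.single (1 : G) 1) J := ⟨_, rfl⟩
  have hx0 : ∀ s, x₀ s = J (1 ::ₘ s) := fun s => by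
    rw [hx₀, mix_single, one_mul]
  have hf : ∀ u, NkG G k (T u x₀) = χ u⁻¹ * dgr (k + 1) J u := by
    intro u
    rw [hT, NkG_trG, hx0]
    have h1 := hJ.inv u⁻¹ (u ::ₘ replicate k 1)
    rw [map_cons, map_replicate, mul_one, inv_mul_cancel] at h1
    rw [h1]
    rfl
  have hNpos : ∀ g, ∀ x ∈ coneG J, NkG G k x = 1 → 0 < NkG G k (T g x) := by
    intro g x hx hx1
    obtain ⟨p1, p2, p3, -⟩ := coneG_prop hJ hx
    rw [hT, NkG_trG]
    rw [NkG_apply] at hx1
    exact posG hC p1 p3 (by rw [hx1]; exact one_pos) _ (card_replicate _ _)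
  have hcomp : IsCompact {x | x ∈ coneG J ∧ NkG G k x = 1} := by
    have hcl : IsClosed {x | x ∈ coneG J ∧ NkG G k x = 1} :=
      isClosed_closure.and (isClosed_eq (NkG G k).continuous continuous_const)
    refine (isCompact_univ_pi (s := fun s : Multiset G =>
      Set.Icc (0 : ℝ) (if s.card = k then (s.map C).prod else 0)) fun _ =>
        isCompact_Icc).of_isClosed_subset hcl ?_
    rintro x ⟨hx, hx1⟩ s -
    obtain ⟨p1, p2, p3, -⟩ := coneG_prop hJ hx
    refine ⟨p1 s, ?_⟩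
    split_ifs with hs
    · have h1 := le_repG hC p3 s 0
      rw [add_zero, add_zero, hs] at h1
      rw [NkG_apply] at hx1
      rw [hx1, mul_one] at h1
      exact h1
    · rw [p2 s hs]
  have hsub : ∀ u v, NkG G k (T (u * v) x₀) ≤ 4 ^ k * (NkG G k (T u x₀) * NkG G k (T v x₀)) := by
    intro u v
    rw [hf, hf, hf]
    have h1 := hJ.sub hC u v
    rw [mul_inv_rev, hJ.chi_mul]
    have h2 := hJ.chi_pos hC u⁻¹
    have h3 := hJ.chi_pos hC v⁻¹
    calc χ v⁻¹ * χ u⁻¹ * dgr (k + 1) J (u * v) ≤ χ v⁻¹ * χ u⁻¹ *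
          (4 ^ k * (dgr (k + 1) J u * dgr (k + 1) J v)) :=
          mul_le_mul_of_nonneg_left h1 (by positivity)
      _ = _ := by ring
  obtain ⟨L, hL, hN, hTL⟩ := eigG s hs (coneG J) (NkG G k) T x₀ (4 ^ k)
    (fun x hx y hy => coneG_add hx hy) (fun c hc x hx => coneG_smul hc hx) hcomp
    (fun x hx => (coneG_prop hJ hx).1 _) hT1 hTm
    (fun g x hx => by rw [hT]; exact trG_cone hC hJ _ hx) hNpos
    (by
      rw [hx₀]
      refine subset_closure ⟨_, fun v => ?_, rfl⟩
      classical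
      rw [Finsupp.single_apply]
      split_ifs <;> norm_num)
    (by rw [NkG_apply, hx0, ← replicate_succ]; exact hJ.norm)
    (fun l l' => sub_iterG s T (NkG G k) hT1 hTm (4 ^ k) x₀ hsub l l')
  refine ⟨L, hL, ?_⟩
  choose c hc0 hc using hTL
  obtain ⟨p1, p2, p3, p4⟩ := coneG_prop hJ hL
  refine ⟨fun u => c u⁻¹, p1, p2, hN, p3, p4, fun u s => ?_⟩
  have h1 := congrFun (hc u⁻¹) s
  rw [hT, inv_inv] at h1
  exact h1

end

end Run7.h528.NR
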