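import Pool.Agent.Run7.h528.NR.Sub

/-!
Sequences of elements of a nilpotent group near the rays of the abelianisation.
-/

set_option autoImplicit false

open Multiset Filter Topology

namespace Run7.h528.NR

open Pool.Agent.N110 Pool.Agent.N110.RK
open scoped commutatorElement

section

variable {Γ : Type} [Group Γ]

/-- iterated commutators -/
def It (T : Set Γ) : ℕ → Set Γ
  | 0 => T
  | j + 1 => {x | ∃ s ∈ T, ∃ p ∈ It T j, x = ⁅s, p⁆}

theorem It_closure (T : Set Γ) (j : ℕ) : It T j ⊆ Subgroup.closure T := by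
  induction j with
  | zero => exact Subgroup.subset_closure
  | succ j ih =>
    rintro x ⟨s, hs, p, hp, rfl⟩
    have h1 : s ∈ Subgroup.closure T := Subgroup.subset_closure hs
    have h2 := ih hp
    rw [commutatorElement_def]
    exact Subgroup.mul_mem _ (Subgroup.mul_mem _ (Subgroup.mul_mem _ h1 h2)
      (Subgroup.inv_mem _ h1)) (Subgroup.inv_mem _ h2)

theorem It_comm (T : Set Γ) (j : ℕ) :
    It T (j + 1) ⊆ (⁅Subgroup.closure T, Subgroup.closure T⁆ : Subgroup Γ) := by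
  rintro x ⟨s, hs, p, hp, rfl⟩
  exact Subgroup.commutator_mem_commutator (Subgroup.subset_closure hs) (It_closure T j hp)

/-- the commutator subgroup is generated by the iterated commutators of the generators -/
theorem comm_le_It (T : Set Γ) (hT : ∀ x ∈ T, x⁻¹ ∈ T) :
    ⁅Subgroup.closure T, Subgroup.closure T⁆ ≤ Subgroup.closure (⋃ j, It T (j + 1)) := by
  obtain ⟨P, hP⟩ : ∃ P, P = Subgroup.closure (⋃ j, It T (j + 1)) := ⟨_, rfl⟩
  rw [← hP]
  have hPI : ∀ j, ∀ x ∈ It T (j + 1), x ∈ P := fun j x hx => by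
    rw [hP]
    exact Subgroup.subset_closure (Set.mem_iUnion.2 ⟨j, hx⟩)
  have c1 : ∀ s ∈ T, ∀ x ∈ P, s * x * s⁻¹ ∈ P := by
    intro s hs x hx
    rw [hP] at hx
    induction hx using Subgroup.closure_induction with
    | mem x hx =>
      obtain ⟨j, hj⟩ := Set.mem_iUnion.1 hx
      have h1 : ⁅s, x⁆ ∈ P := hPI (j + 1) _ ⟨s, hs, x, hj, rfl⟩
      have e : s * x * s⁻¹ = ⁅s, x⁆ * x := by rw [commutatorElement_def]; group
      rw [e]
      exact P.mul_mem h1 (hPI j x hj)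
    | one => rw [mul_one, mul_inv_cancel]; exact P.one_mem
    | mul x y _ _ ihx ihy =>
      have e : s * (x * y) * s⁻¹ = (s * x * s⁻¹) * (s * y * s⁻¹) := by group
      rw [e]
      exact P.mul_mem ihx ihy
    | inv x _ ih =>
      have e : s * x⁻¹ * s⁻¹ = (s * x * s⁻¹)⁻¹ := by group
      rw [e]
      exact P.inv_mem ih
  have c2 : ∀ a ∈ Subgroup.closure T, ∀ x ∈ P, a * x * a⁻¹ ∈ P := by
    intro a ha
    induction ha using Subgroup.closure_induction_left with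
    | one => intro x hx; simpa using hx
    | mul_left s hs a _ ih =>
      intro x hx
      have e : s * a * x * (s * a)⁻¹ = s * (a * x * a⁻¹) * s⁻¹ := by group
      rw [e]
      exact c1 s hs _ (ih x hx)
    | inv_mul_cancel s hs a _ ih =>
      intro x hx
      have e : s⁻¹ * a * x * (s⁻¹ * a)⁻¹ = s⁻¹ * (a * x * a⁻¹) * s⁻¹⁻¹ := by group
      rw [e]
      exact c1 s⁻¹ (hT s hs) _ (ih x hx)
  have c3 : ∀ a ∈ Subgroup.closure T, ∀ t ∈ T, ⁅a, t⁆ ∈ P := by
    intro a ha t ht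
    induction ha using Subgroup.closure_induction with
    | mem s hs => exact hPI 0 _ ⟨s, hs, t, ht, rfl⟩
    | one => rw [commutatorElement_one_left]; exact P.one_mem
    | mul a b ha _ iha ihb =>
      have e : ⁅a * b, t⁆ = (a * ⁅b, t⁆ * a⁻¹) * ⁅a, t⁆ := by
        simp only [commutatorElement_def]; group
      rw [e]
      exact P.mul_mem (c2 a ha _ ihb) iha
    | inv a ha ih =>
      have e : ⁅a⁻¹, t⁆ = a⁻¹ * ⁅a, t⁆⁻¹ * a⁻¹⁻¹ := by
        simp only [commutatorElement_def]; group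
      rw [e]
      exact c2 _ (Subgroup.inv_mem _ ha) _ (P.inv_mem ih)
  refine Subgroup.commutator_le.2 fun a ha b hb => ?_
  induction hb using Subgroup.closure_induction with
  | mem t ht => exact c3 a ha t ht
  | one => rw [commutatorElement_one_right]; exact P.one_mem
  | mul b c hb _ ihb ihc =>
    have e : ⁅a, b * c⁆ = ⁅a, b⁆ * (b * ⁅a, c⁆ * b⁻¹) := by
      simp only [commutatorElement_def]; group
    rw [e]
    exact P.mul_mem ihb (c2 b hb _ ihc)
  | inv b hb ih =>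
    have e : ⁅a, b⁻¹⁆ = b⁻¹ * ⁅a, b⁆⁻¹ * b⁻¹⁻¹ := by
      simp only [commutatorElement_def]; group
    rw [e]
    exact c2 _ (Subgroup.inv_mem _ hb) _ (P.inv_mem ih)

end

section

variable {G : Type} [Group G]

theorem It_lcs (T : Set (ℕ → G)) (j : ℕ) : ∀ x ∈ It T j, ∀ n : ℕ,
    x n ∈ (⊤ : Subgroup G).lowerCentralSeries j := by
  induction j with
  | zero => intro x _ n; trivial
  | succ j ih =>
    rintro x ⟨s, -, p, hp, rfl⟩ n
    have h1 := ih p hp n
    have h2 : ⁅p n, s n⁆ ∈ (⊤ : Subgroup G).lowerCentralSeries (j + 1) := by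
      rw [Subgroup.lowerCentralSeries_succ]
      exact Subgroup.commutator_mem_commutator h1 (Subgroup.mem_top _)
    have e : (⁅s, p⁆ : ℕ → G) n = ⁅p n, s n⁆⁻¹ := by
      rw [commutatorElement_inv]
      rfl
    rw [e]
    exact Subgroup.inv_mem _ h2

/-- integral sequences near a ray -/
def NL (b : ℕ → ℤ) (w : ℝ) : Prop := ∃ K : ℝ, ∀ n : ℕ, |(b n : ℝ) - n * w| ≤ K

theorem NL.add {b b' : ℕ → ℤ} {w w' : ℝ} (h : NL b w) (h' : NL b' w') :
    NL (b + b') (w + w') := by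
  obtain ⟨K, hK⟩ := h
  obtain ⟨K', hK'⟩ := h'
  refine ⟨K + K', fun n => ?_⟩
  have e : (((b + b') n : ℤ) : ℝ) - n * (w + w') = ((b n : ℝ) - n * w) + ((b' n : ℝ) - n * w') := by
    rw [Pi.add_apply]
    push_cast
    ring
  rw [e]
  exact (abs_add_le _ _).trans (add_le_add (hK n) (hK' n))

theorem NL.neg {b : ℕ → ℤ} {w : ℝ} (h : NL b w) : NL (-b) (-w) := by
  obtain ⟨K, hK⟩ := h
  refine ⟨K, fun n => ?_⟩
  have e : (((-b) n : ℤ) : ℝ) - n * (-w) = -((b n : ℝ) - n * w) := by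
    rw [Pi.neg_apply]
    push_cast
    ring
  rw [e, abs_neg]
  exact hK n

theorem NL.zero : NL 0 0 := ⟨0, fun n => by simp⟩

/-- division of a sequence near a ray -/
theorem NL.div {b : ℕ → ℤ} {w : ℝ} (h : NL b w) (m : ℕ) (hm : 0 < m) :
    ∃ b' b'' : ℕ → ℤ, NL b' (w / m) ∧ NL b'' 0 ∧ b = (m : ℤ) • b' + b'' := by
  obtain ⟨K, hK⟩ := h
  have hm' : (0 : ℝ) < m := by exact_mod_cast hm
  have hfl : ∀ n : ℕ, |((⌊(n : ℝ) * (w / m)⌋ : ℤ) : ℝ) - n * (w / m)| ≤ 1 := by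
    intro n
    have h4 := Int.floor_le ((n : ℝ) * (w / m))
    have h5 := Int.lt_floor_add_one ((n : ℝ) * (w / m))
    rw [abs_le]
    constructor <;> linarith
  refine ⟨fun n => ⌊(n : ℝ) * (w / m)⌋, fun n => b n - m * ⌊(n : ℝ) * (w / m)⌋, ⟨1, hfl⟩,
    ⟨K + m, fun n => ?_⟩, ?_⟩
  · have e : ((b n - m * ⌊(n : ℝ) * (w / m)⌋ : ℤ) : ℝ) - n * 0 =
        ((b n : ℝ) - n * w) - m * (((⌊(n : ℝ) * (w / m)⌋ : ℤ) : ℝ) - n * (w / m)) := by
      push_cast
      field_simp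
      ring
    rw [e]
    refine (abs_sub _ _).trans (add_le_add (hK n) ?_)
    rw [abs_mul, abs_of_pos hm']
    have := mul_le_mul_of_nonneg_left (hfl n) hm'.le
    linarith
  · funext n
    simp only [Pi.add_apply, Pi.smul_apply, smul_eq_mul]
    ring

/-- the powers of an element -/
def pw (g : G) (b : ℕ → ℤ) : ℕ → G := fun n => g ^ b n

theorem pw_add (g : G) (b b' : ℕ → ℤ) : pw g (b + b') = pw g b * pw g b' := by
  funext n
  exact zpow_add g _ _

theorem pw_smul (g : G) (m : ℕ) (b : ℕ → ℤ) : pw g ((m : ℤ) • b) = pw g b ^ m := by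
  funext n
  rw [Pi.pow_apply]
  unfold pw
  rw [Pi.smul_apply, smul_eq_mul, mul_comm, zpow_mul, zpow_natCast]

theorem pw_neg (g : G) (b : ℕ → ℤ) : pw g (-b) = (pw g b)⁻¹ := by
  funext n
  exact zpow_neg g _

variable {r : ℕ} (a : Fin r → G)

/-- the powers of the generators near the rays, of slope at most `δ` -/
def Tsl (δ : ℝ) : Set (ℕ → G) :=
  {x | ∃ (i : Fin r) (b : ℕ → ℤ) (w : ℝ), |w| ≤ δ ∧ NL b w ∧ x = pw (a i) b}

/-- the powers of the generators near the rays -/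
def Tall : Set (ℕ → G) := {x | ∃ (i : Fin r) (b : ℕ → ℤ) (w : ℝ), NL b w ∧ x = pw (a i) b}

/-- the group of all sequences which are considered -/
def AA : Subgroup (ℕ → G) := Subgroup.closure (Tall a)

theorem closure_Tsl {δ : ℝ} (hδ : 0 < δ) : Subgroup.closure (Tsl a δ) = AA a := by
  refine le_antisymm ((Subgroup.closure_le _).2 ?_) ((Subgroup.closure_le _).2 ?_)
  · rintro x ⟨i, b, w, -, hb, rfl⟩
    exact Subgroup.subset_closure ⟨i, b, w, hb, rfl⟩
  · rintro x ⟨i, b, w, hb, rfl⟩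
    obtain ⟨m, hm⟩ := exists_nat_ge (|w| / δ)
    obtain ⟨b', b'', h1, h2, h3⟩ := hb.div (m + 1) (by omega)
    have g1 : pw (a i) b' ∈ Tsl a δ := by
      refine ⟨i, b', _, ?_, h1, rfl⟩
      rw [abs_div, Nat.abs_cast, div_le_iff₀ (by positivity)]
      rw [div_le_iff₀ hδ] at hm
      push_cast
      nlinarith
    have g2 : pw (a i) b'' ∈ Tsl a δ := by
      refine ⟨i, b'', 0, ?_, h2, rfl⟩
      rw [abs_zero]
      exact hδ.le
    rw [h3, pw_add, pw_smul]
    exact Subgroup.mul_mem _ (Subgroup.pow_mem _ (Subgroup.subset_closure g1) _)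
      (Subgroup.subset_closure g2)

theorem Tsl_inv {δ : ℝ} : ∀ x ∈ Tsl a δ, x⁻¹ ∈ Tsl a δ := by
  rintro x ⟨i, b, w, h1, h2, rfl⟩
  exact ⟨i, -b, -w, by rwa [abs_neg], h2.neg, (pw_neg _ _).symm⟩

variable {C : G → ℝ}

theorem C_pow (hC : ∀ v, 1 ≤ C v) (hCm : ∀ u v, C (u * v) ≤ C u * C v) {M : ℝ} (hM : 1 ≤ M)
    {g : G} (hg : C g ≤ M) (n : ℕ) : C (g ^ n) ≤ C 1 * M ^ n := by
  induction n with
  | zero => rw [pow_zero, pow_zero, mul_one]
  | succ n ih =>
    rw [pow_succ, pow_succ]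
    have h0 := hC (g ^ n)
    have h1 := hC g
    calc C (g ^ n * g) ≤ C (g ^ n) * C g := hCm _ _
      _ ≤ C 1 * M ^ n * M := mul_le_mul ih hg (by linarith) (by
        have := hC 1
        positivity)
      _ = _ := by ring

theorem C_zpow (hC : ∀ v, 1 ≤ C v) (hCm : ∀ u v, C (u * v) ≤ C u * C v) {M : ℝ} (hM : 1 ≤ M)
    {g : G} (hg : C g ≤ M) (hg' : C g⁻¹ ≤ M) (j : ℤ) {R : ℝ} (hj : |(j : ℝ)| ≤ R) :
    C (g ^ j) ≤ C 1 * Real.exp (Real.log M * R) := by
  have hM0 : 0 < M := by linarith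
  have h1 : C (g ^ j) ≤ C 1 * M ^ j.natAbs := by
    rcases Int.natAbs_eq j with h | h
    · conv_lhs => rw [h]
      rw [zpow_natCast]
      exact C_pow hC hCm hM hg _
    · conv_lhs => rw [h]
      rw [zpow_neg, zpow_natCast, ← inv_pow]
      exact C_pow hC hCm hM hg' _
  refine h1.trans (mul_le_mul_of_nonneg_left ?_ (zero_le_one.trans (hC 1)))
  have h2 : ((j.natAbs : ℕ) : ℝ) ≤ R := by
    rw [Nat.cast_natAbs, Int.cast_abs]
    exact hj
  rw [← Real.rpow_natCast, Real.rpow_def_of_pos hM0]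
  exact Real.exp_le_exp.2 (mul_le_mul_of_nonneg_left h2 (Real.log_nonneg hM))

theorem Tsl_sml (hC : ∀ v, 1 ≤ C v) (hCm : ∀ u v, C (u * v) ≤ C u * C v) {M : ℝ} (hM : 1 ≤ M)
    (hg : ∀ i, C (a i) ≤ M) (hg' : ∀ i, C (a i)⁻¹ ≤ M) {δ : ℝ} :
    ∀ x ∈ Tsl a δ, Sml C (Real.log M * δ) x := by
  have key : ∀ x ∈ Tsl a δ, Gr (Real.log M * δ) (fun n => C (x n)) := by
    rintro x ⟨i, b, w, h1, ⟨K, hK⟩, rfl⟩ ε hε
    refine ⟨C 1 * Real.exp (Real.log M * K), fun n => ?_⟩
    have h2 : |(b n : ℝ)| ≤ K + δ * n := by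
      have h3 := abs_sub_abs_le_abs_sub (b n : ℝ) (n * w)
      have h4 := hK n
      rw [abs_mul, Nat.abs_cast] at h3
      have h5 := mul_le_mul_of_nonneg_left h1 (Nat.cast_nonneg (α := ℝ) n)
      linarith
    have h3 := C_zpow hC hCm hM (hg i) (hg' i) (b n) h2
    refine h3.trans ?_
    rw [mul_assoc, ← Real.exp_add]
    refine mul_le_mul_of_nonneg_left (Real.exp_le_exp.2 ?_) (zero_le_one.trans (hC 1))
    have h5 := mul_le_mul_of_nonneg_right hε.le (Nat.cast_nonneg (α := ℝ) n)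
    linarith
  intro x hx
  exact ⟨key x hx, key x⁻¹ (Tsl_inv a x hx)⟩

theorem Sml.inv {ε : ℝ} {x : ℕ → G} (h : Sml C ε x) : Sml C ε x⁻¹ :=
  ⟨h.2, h.1.of_le fun n => by rw [Pi.inv_apply, inv_inv]⟩

theorem Sml.mul (hC : ∀ v, 1 ≤ C v) (hCm : ∀ u v, C (u * v) ≤ C u * C v) {ε ε' : ℝ}
    {x x' : ℕ → G} (h : Sml C ε x) (h' : Sml C ε' x') : Sml C (ε + ε') (x * x') := by
  have h0 : ∀ v, 0 ≤ C v := fun v => zero_le_one.trans (hC v)
  refine ⟨(Gr.mul (fun n => h0 _) (fun n => h0 _) h.1 h'.1).of_le fun n => hCm _ _, ?_⟩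
  refine (Gr.mul (fun n => h0 _) (fun n => h0 _) h.2 h'.2).of_le fun n => ?_
  rw [Pi.mul_apply, mul_inv_rev]
  exact (hCm _ _).trans (le_of_eq (mul_comm _ _))

theorem Sml.mono {ε ε' : ℝ} {x : ℕ → G} (h : Sml C ε x) (hε : ε ≤ ε') : Sml C ε' x :=
  ⟨h.1.mono hε, h.2.mono hε⟩

theorem It_sml (hC : ∀ v, 1 ≤ C v) (hCm : ∀ u v, C (u * v) ≤ C u * C v) {T : Set (ℕ → G)}
    {δ : ℝ} (hδ : 0 ≤ δ) (hT : ∀ x ∈ T, Sml C δ x) (j : ℕ) :
    ∀ x ∈ It T j, Sml C (4 ^ j * δ) x := by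
  induction j with
  | zero => intro x hx; rw [pow_zero, one_mul]; exact hT x hx
  | succ j ih =>
    rintro x ⟨s, hs, p, hp, rfl⟩
    have h1 := hT s hs
    have h2 := ih p hp
    rw [commutatorElement_def]
    refine (Sml.mul hC hCm (Sml.mul hC hCm (Sml.mul hC hCm h1 h2) h1.inv) h2.inv).mono ?_
    have h3 : (1 : ℝ) ≤ 4 ^ j := one_le_pow₀ (by norm_num)
    rw [pow_succ]
    nlinarith

/-- the commutators are products of commutators of small growth -/
theorem comm_small [Group.IsNilpotent G] (hC : ∀ v, 1 ≤ C v)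
    (hCm : ∀ u v, C (u * v) ≤ C u * C v) {ε : ℝ} (hε : 0 < ε) :
    ⁅AA a, AA a⁆ ≤ Subgroup.closure {x | x ∈ ⁅AA a, AA a⁆ ∧ Sml C ε x} := by
  obtain ⟨M, hM⟩ : ∃ M : ℝ, M = 1 + ∑ i, (C (a i) + C (a i)⁻¹) := ⟨_, rfl⟩
  have h0 : ∀ v, 0 ≤ C v := fun v => zero_le_one.trans (hC v)
  have hs : ∀ i, C (a i) + C (a i)⁻¹ ≤ ∑ i, (C (a i) + C (a i)⁻¹) := fun i =>
    Finset.single_le_sum (f := fun i => C (a i) + C (a i)⁻¹)
      (fun i _ => add_nonneg (h0 _) (h0 _)) (Finset.mem_univ i)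
  have hM1 : 1 ≤ M := by
    rw [hM]
    have : 0 ≤ ∑ i, (C (a i) + C (a i)⁻¹) :=
      Finset.sum_nonneg fun i _ => add_nonneg (h0 _) (h0 _)
    linarith
  have hg : ∀ i, C (a i) ≤ M := fun i => by
    have := hs i
    have := h0 (a i)⁻¹
    rw [hM]
    linarith
  have hg' : ∀ i, C (a i)⁻¹ ≤ M := fun i => by
    have := hs i
    have := h0 (a i)
    rw [hM]
    linarith
  obtain ⟨c, hc⟩ := Subgroup.nilpotent_iff_lowerCentralSeries.1 (inferInstance : Group.IsNilpotent G)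
  obtain ⟨δ, hδ⟩ : ∃ δ : ℝ, δ = ε / (4 ^ c * (Real.log M + 1)) := ⟨_, rfl⟩
  have hlog : 0 ≤ Real.log M := Real.log_nonneg hM1
  have hδ0 : 0 < δ := by rw [hδ]; positivity
  have hle : 4 ^ c * (Real.log M * δ) ≤ ε := by
    have e : 4 ^ c * ((Real.log M + 1) * δ) = ε := by rw [hδ]; field_simp
    have : 4 ^ c * (Real.log M * δ) ≤ 4 ^ c * ((Real.log M + 1) * δ) := by
      refine mul_le_mul_of_nonneg_left ?_ (by positivity)
      nlinarith
    linarith
  have hT := Tsl_sml a hC hCm hM1 hg hg' (δ := δ)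
  have hcl := closure_Tsl a hδ0
  have h1 := comm_le_It (Tsl a δ) (Tsl_inv a)
  rw [hcl] at h1
  refine h1.trans ((Subgroup.closure_le _).2 ?_)
  intro x hx
  obtain ⟨j, hj⟩ := Set.mem_iUnion.1 hx
  rcases Nat.lt_or_ge (j + 1) c with hjc | hjc
  · refine Subgroup.subset_closure ⟨?_, ?_⟩
    · rw [← hcl]
      exact It_comm _ _ hj
    · refine (It_sml hC hCm (by positivity) hT (j + 1) x hj).mono (le_trans ?_ hle)
      refine mul_le_mul_of_nonneg_right ?_ (by positivity)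
      exact pow_le_pow_right₀ (by norm_num) hjc.le
  · have : x = 1 := by
      funext n
      have h2 := It_lcs (Tsl a δ) (j + 1) x hj n
      have h3 := (⊤ : Subgroup G).lowerCentralSeries_antitone hjc h2
      rw [hc, Subgroup.mem_bot] at h3
      exact h3
    rw [this]
    exact Subgroup.one_mem _

/-- the ordered products -/
def pr (v : Fin r → ℤ) : G := (List.ofFn fun i => a i ^ v i).prod

/-- the ordered products near the rays through the vectors in `W` -/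
def genW (W : Submodule ℝ (Fin r → ℝ)) : Set (ℕ → G) :=
  {x | ∃ (v : Fin r → ℕ → ℤ) (w : Fin r → ℝ), w ∈ W ∧ (∀ i, NL (v i) (w i)) ∧
    x = fun n => pr a fun i => v i n}

/-- the group of sequences attached to `W` -/
def AW (W : Submodule ℝ (Fin r → ℝ)) : Subgroup (ℕ → G) :=
  Subgroup.closure (genW a W) ⊔ ⁅AA a, AA a⁆

theorem AW_mono {W W' : Submodule ℝ (Fin r → ℝ)} (h : W ≤ W') : AW a W ≤ AW a W' := by
  refine sup_le_sup_right (Subgroup.closure_mono ?_) _
  rintro x ⟨v, w, hw, h1, h2⟩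
  exact ⟨v, w, h hw, h1, h2⟩

/-- the powers of a generator as elements of the group -/
def pwA (i : Fin r) (b : ℕ → ℤ) (hb : ∃ w, NL b w) : AA a :=
  ⟨pw (a i) b, Subgroup.subset_closure ⟨i, b, hb.choose, hb.choose_spec, rfl⟩⟩

theorem pr_list (v : Fin r → ℕ → ℤ) (hv : ∀ i, ∃ w, NL (v i) w) :
    (((List.ofFn fun i => pwA a i (v i) (hv i)).prod : AA a) : ℕ → G) =
      fun n => pr a fun i => v i n := by
  funext n
  rw [Subgroup.val_list_prod, Pi.list_prod_apply, List.map_map, List.map_ofFn]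
  rfl

/-- the ordered products as elements of the group -/
def prA (v : Fin r → ℕ → ℤ) (hv : ∀ i, ∃ w, NL (v i) w) : AA a :=
  (List.ofFn fun i => pwA a i (v i) (hv i)).prod

theorem of_prA (v : Fin r → ℕ → ℤ) (hv : ∀ i, ∃ w, NL (v i) w) :
    Abelianization.of (prA a v hv) = ∏ i, Abelianization.of (pwA a i (v i) (hv i)) := by
  unfold prA
  rw [map_list_prod, List.map_ofFn, List.prod_ofFn]
  rfl

theorem mem_comm_of {x y : AA a} (h : Abelianization.of x = Abelianization.of y) :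
    ((x : ℕ → G)) * (y : ℕ → G)⁻¹ ∈ ⁅AA a, AA a⁆ := by
  have h1 : x * y⁻¹ ∈ _root_.commutator (AA a) := by
    rw [← Abelianization.ker_of, MonoidHom.mem_ker, map_mul, map_inv, h, mul_inv_cancel]
  rw [← Subgroup.map_subtype_commutator]
  exact ⟨_, h1, rfl⟩

theorem genW_small [Group.IsNilpotent G] (hC : ∀ v, 1 ≤ C v)
    (hCm : ∀ u v, C (u * v) ≤ C u * C v) (W : Submodule ℝ (Fin r → ℝ)) {ε : ℝ} (hε : 0 < ε) :
    AW a W ≤ Subgroup.closure {x | x ∈ AW a W ∧ Sml C ε x} := by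
  have hcomm : ⁅AA a, AA a⁆ ≤ Subgroup.closure {x | x ∈ AW a W ∧ Sml C ε x} := by
    refine (comm_small a hC hCm hε).trans (Subgroup.closure_mono ?_)
    rintro x ⟨h1, h2⟩
    exact ⟨(le_sup_right : _ ≤ AW a W) h1, h2⟩
  refine sup_le ((Subgroup.closure_le _).2 ?_) hcomm
  rintro x ⟨v, w, hw, hv, rfl⟩
  -- the constants
  obtain ⟨M, hM⟩ : ∃ M : ℝ, M = 1 + ∑ i, (C (a i) + C (a i)⁻¹) := ⟨_, rfl⟩
  have h0 : ∀ v, 0 ≤ C v := fun v => zero_le_one.trans (hC v)
  have hs : ∀ i, C (a i) + C (a i)⁻¹ ≤ ∑ i, (C (a i) + C (a i)⁻¹) := fun i =>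
    Finset.single_le_sum (f := fun i => C (a i) + C (a i)⁻¹)
      (fun i _ => add_nonneg (h0 _) (h0 _)) (Finset.mem_univ i)
  have hM1 : 1 ≤ M := by
    rw [hM]
    have : 0 ≤ ∑ i, (C (a i) + C (a i)⁻¹) :=
      Finset.sum_nonneg fun i _ => add_nonneg (h0 _) (h0 _)
    linarith
  have hg : ∀ i, C (a i) ≤ M := fun i => by
    have := hs i
    have := h0 (a i)⁻¹
    rw [hM]
    linarith
  have hg' : ∀ i, C (a i)⁻¹ ≤ M := fun i => by
    have := hs i
    have := h0 (a i)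
    rw [hM]
    linarith
  have hlog : 0 ≤ Real.log M := Real.log_nonneg hM1
  -- small products
  have hprod : ∀ (l : List (ℕ → G)) (δ : ℝ), (∀ x ∈ l, Sml C δ x) →
      Sml C (l.length * δ) l.prod := by
    intro l δ
    induction l with
    | nil =>
      intro _
      rw [List.length_nil, Nat.cast_zero, zero_mul, List.prod_nil]
      exact ⟨(Gr.const (C 1)).of_le fun n => le_rfl,
        (Gr.const (C 1)).of_le fun n => by rw [Pi.one_apply, inv_one]⟩
    | cons x l ih =>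
      intro h
      rw [List.prod_cons, List.length_cons]
      refine (Sml.mul hC hCm (h x List.mem_cons_self)
        (ih fun y hy => h y (List.mem_cons_of_mem _ hy))).mono (le_of_eq ?_)
      push_cast
      ring
  have hprs : ∀ (v : Fin r → ℕ → ℤ) (w : Fin r → ℝ) (δ : ℝ), (∀ i, NL (v i) (w i)) →
      (∀ i, |w i| ≤ δ) → Sml C (r * (Real.log M * δ)) (fun n => pr a fun i => v i n) := by
    intro v w δ hv hw
    have h1 := hprod (List.ofFn fun i => pw (a i) (v i)) (Real.log M * δ) (by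
      intro x hx
      obtain ⟨i, rfl⟩ := (List.mem_ofFn' _ _).1 hx
      exact Tsl_sml a hC hCm hM1 hg hg' _ ⟨i, v i, w i, hw i, hv i, rfl⟩)
    rw [List.length_ofFn] at h1
    have e : (List.ofFn fun i => pw (a i) (v i)).prod = fun n => pr a fun i => v i n := by
      funext n
      rw [Pi.list_prod_apply, List.map_ofFn]
      rfl
    rwa [e] at h1
  -- the division
  obtain ⟨m, hm⟩ := exists_nat_ge (r * Real.log M * (∑ i, |w i|) / ε)
  have hdiv := fun i => (hv i).div (m + 1) (by omega)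
  choose v' v'' hv' hv'' hvv using hdiv
  have hwm : ∀ i, |w i / ((m + 1 : ℕ) : ℝ)| ≤ (∑ i, |w i|) / (m + 1) := by
    intro i
    rw [abs_div, Nat.abs_cast]
    push_cast
    refine div_le_div_of_nonneg_right ?_ (by positivity)
    exact Finset.single_le_sum (f := fun i => |w i|) (fun j _ => abs_nonneg _) (Finset.mem_univ i)
  have hs1 : Sml C ε (fun n => pr a fun i => v' i n) := by
    refine (hprs v' _ _ hv' hwm).mono ?_
    rw [div_le_iff₀ hε] at hm
    have e : (r : ℝ) * (Real.log M * ((∑ i, |w i|) / (m + 1))) =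
        (r * Real.log M * (∑ i, |w i|)) / (m + 1) := by ring
    rw [e, div_le_iff₀ (by positivity)]
    nlinarith
  have hs2 : Sml C ε (fun n => pr a fun i => v'' i n) := by
    refine (hprs v'' _ 0 hv'' (fun i => by rw [abs_zero])).mono ?_
    rw [mul_zero, mul_zero]
    exact hε.le
  have hm1 : (fun n => pr a fun i => v' i n) ∈ AW a W := by
    refine (le_sup_left : _ ≤ AW a W) (Subgroup.subset_closure
      ⟨v', fun i => w i / ((m + 1 : ℕ) : ℝ), ?_, hv', rfl⟩)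
    have : (fun i => w i / ((m + 1 : ℕ) : ℝ)) = (((m + 1 : ℕ) : ℝ)⁻¹) • w := by
      funext i
      rw [Pi.smul_apply, smul_eq_mul, div_eq_inv_mul]
    rw [this]
    exact W.smul_mem _ hw
  have hm2 : (fun n => pr a fun i => v'' i n) ∈ AW a W :=
    (le_sup_left : _ ≤ AW a W) (Subgroup.subset_closure ⟨v'', 0, W.zero_mem, hv'', rfl⟩)
  -- comparison in the abelianisation
  have hx : ∀ i, ∃ w, NL (v i) w := fun i => ⟨_, hv i⟩
  have hx' : ∀ i, ∃ w, NL (v' i) w := fun i => ⟨_, hv' i⟩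
  have hx'' : ∀ i, ∃ w, NL (v'' i) w := fun i => ⟨_, hv'' i⟩
  have hab : Abelianization.of (prA a v hx) =
      Abelianization.of (prA a v' hx' ^ (m + 1) * prA a v'' hx'') := by
    rw [map_mul, map_pow, of_prA, of_prA, of_prA, ← Finset.prod_pow, ← Finset.prod_mul_distrib]
    refine Finset.prod_congr rfl fun i _ => ?_
    rw [← map_pow, ← map_mul]
    congr 1
    refine Subtype.ext ?_
    change pw (a i) (v i) = pw (a i) (v' i) ^ (m + 1) * pw (a i) (v'' i)
    rw [hvv i, pw_add, pw_smul]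
  have h1 := mem_comm_of a hab
  have e1 : ((prA a v hx : AA a) : ℕ → G) = fun n => pr a fun i => v i n := pr_list a v hx
  have e2 : ((prA a v' hx' ^ (m + 1) * prA a v'' hx'' : AA a) : ℕ → G) =
      (fun n => pr a fun i => v' i n) ^ (m + 1) * fun n => pr a fun i => v'' i n := by
    rw [Subgroup.coe_mul, Subgroup.coe_pow]
    congr 1
    · congr 1
      exact pr_list a v' hx'
    · exact pr_list a v'' hx''
  rw [e1, e2] at h1
  have k1 : (fun n => pr a fun i => v' i n) ∈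
      Subgroup.closure {x : ℕ → G | x ∈ AW a W ∧ Sml C ε x} :=
    Subgroup.subset_closure ⟨hm1, hs1⟩
  have k2 : (fun n => pr a fun i => v'' i n) ∈
      Subgroup.closure {x : ℕ → G | x ∈ AW a W ∧ Sml C ε x} :=
    Subgroup.subset_closure ⟨hm2, hs2⟩
  have h2 := Subgroup.mul_mem _ (hcomm h1) (Subgroup.mul_mem _ (Subgroup.pow_mem _ k1 (m + 1)) k2)
  rwa [inv_mul_cancel_right] at h2

end

end Run7.h528.NR
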