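import Pool.Agent.N110.RK.C
import Pool.Agent.Run7.h528.NR.A
import Pool.Agent.Run7.h528.NR.Seq

/-!
The space of directions with zero growth, for nilpotent groups.
-/

set_option autoImplicit false

open Multiset Filter Topology Module

namespace Run7.h528.NR

open Pool.Agent.N110 Pool.Agent.N110.RK
open scoped commutatorElement

section

variable {G : Type} [Group G] {C : G → ℝ} {k : ℕ} {J : Multiset G → ℝ} {χ : G → ℝ}

theorem NF.lg_mul (hC : ∀ v, 1 ≤ C v) (h : NF C k J χ) (u v : G) :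
    Real.log (χ (u * v)) = Real.log (χ u) + Real.log (χ v) := by
  rw [h.chi_mul, Real.log_mul (h.chi_pos hC u).ne' (h.chi_pos hC v).ne']

theorem NF.lg_one (h : NF C k J χ) : Real.log (χ 1) = 0 := by
  rw [h.chi_one, Real.log_one]

theorem NF.lg_inv (h : NF C k J χ) (u : G) :
    Real.log (χ u⁻¹) = -Real.log (χ u) := by
  rw [h.chi_inv, Real.log_inv]

theorem NF.lg_zpow (hC : ∀ v, 1 ≤ C v) (h : NF C k J χ) (g : G) (j : ℤ) :
    Real.log (χ (g ^ j)) = Real.log (χ g) * j := by
  have hnat : ∀ n : ℕ, Real.log (χ (g ^ n)) = Real.log (χ g) * n := by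
    intro n
    induction n with
    | zero => rw [pow_zero, h.lg_one, Nat.cast_zero, mul_zero]
    | succ n ih =>
      rw [pow_succ, h.lg_mul hC, ih]
      push_cast
      ring
  obtain ⟨n, rfl | rfl⟩ := Int.eq_nat_or_neg j
  · rw [zpow_natCast, hnat]
    push_cast
    ring
  · rw [zpow_neg, zpow_natCast, h.lg_inv, hnat]
    push_cast
    ring

theorem NF.lg_pr (hC : ∀ v, 1 ≤ C v) (h : NF C k J χ) {r : ℕ} (a : Fin r → G) (v : Fin r → ℤ) :
    Real.log (χ (pr a v)) = ∑ i, Real.log (χ (a i)) * (v i : ℝ) := by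
  have hl : ∀ l : List G, Real.log (χ l.prod) = (l.map fun g => Real.log (χ g)).sum := by
    intro l
    induction l with
    | nil => rw [List.prod_nil, List.map_nil, List.sum_nil, h.lg_one]
    | cons x l ih => rw [List.prod_cons, List.map_cons, List.sum_cons, h.lg_mul hC, ih]
  unfold pr
  rw [hl, List.map_ofFn, List.sum_ofFn]
  exact Finset.sum_congr rfl fun i _ => h.lg_zpow hC _ _

/-- the character is bounded on the sequences near the kernel -/
theorem NF.lg_AW (hC : ∀ v, 1 ≤ C v) (h : NF C k J χ) {r : ℕ} (a : Fin r → G)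
    {W : Submodule ℝ (Fin r → ℝ)} (hW : ∀ w ∈ W, ∑ i, Real.log (χ (a i)) * w i = 0) :
    ∀ x ∈ AW a W, ∃ K : ℝ, ∀ n : ℕ, |Real.log (χ (x n))| ≤ K := by
  let S : Subgroup (ℕ → G) :=
    { carrier := {x | ∃ K : ℝ, ∀ n : ℕ, |Real.log (χ (x n))| ≤ K}
      one_mem' := ⟨0, fun n => by rw [Pi.one_apply, h.lg_one, abs_zero]⟩
      mul_mem' := by
        rintro x y ⟨K, hK⟩ ⟨K', hK'⟩
        refine ⟨K + K', fun n => ?_⟩
        rw [Pi.mul_apply, h.lg_mul hC]
        exact (abs_add_le _ _).trans (add_le_add (hK n) (hK' n))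
      inv_mem' := by
        rintro x ⟨K, hK⟩
        refine ⟨K, fun n => ?_⟩
        rw [Pi.inv_apply, h.lg_inv, abs_neg]
        exact hK n }
  have hS : AW a W ≤ S := by
    refine sup_le ((Subgroup.closure_le _).2 ?_) (Subgroup.commutator_le.2 fun x _ y _ => ?_)
    · rintro x ⟨v, w, hw, hv, rfl⟩
      choose K hK using hv
      refine ⟨∑ i, |Real.log (χ (a i))| * K i, fun n => ?_⟩
      have e : Real.log (χ (pr a fun i => v i n)) =
          ∑ i, Real.log (χ (a i)) * ((v i n : ℝ) - n * w i) := by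
        rw [h.lg_pr hC]
        have e1 : ∑ i, Real.log (χ (a i)) * ((v i n : ℝ) - n * w i) =
            ∑ i, Real.log (χ (a i)) * (v i n : ℝ) - n * ∑ i, Real.log (χ (a i)) * w i := by
          rw [Finset.mul_sum, ← Finset.sum_sub_distrib]
          exact Finset.sum_congr rfl fun i _ => by ring
        rw [e1, hW w hw, mul_zero, sub_zero]
      rw [e]
      refine (Finset.abs_sum_le_sum_abs _ _).trans (Finset.sum_le_sum fun i _ => ?_)
      rw [abs_mul]
      exact mul_le_mul_of_nonneg_left (hK i n) (abs_nonneg _)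
    · refine ⟨0, fun n => ?_⟩
      have e : (⁅x, y⁆ : ℕ → G) n = x n * y n * (x n)⁻¹ * (y n)⁻¹ := rfl
      rw [e, h.lg_mul hC, h.lg_mul hC, h.lg_mul hC, h.lg_inv, h.lg_inv]
      have : Real.log (χ (x n)) + Real.log (χ (y n)) + -Real.log (χ (x n)) +
          -Real.log (χ (y n)) = 0 := by ring
      rw [this, abs_zero]
  exact fun x hx => hS hx

theorem NF.gr_chi (hC : ∀ v, 1 ≤ C v) (h : NF C k J χ) {r : ℕ} (a : Fin r → G)
    {W : Submodule ℝ (Fin r → ℝ)} (hW : ∀ w ∈ W, ∑ i, Real.log (χ (a i)) * w i = 0) :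
    ∀ x ∈ AW a W, Gr 0 (fun n => χ (x n)) := by
  intro x hx
  obtain ⟨K, hK⟩ := h.lg_AW hC a hW x hx
  refine (Gr.const (Real.exp K)).of_le fun n => ?_
  rw [← Real.exp_log (h.chi_pos hC (x n))]
  exact Real.exp_le_exp.2 ((le_abs_self _).trans (hK n))

theorem dgr_one (h : NF C 1 J χ) (u : G) : dgr 1 J u = χ u := by
  rw [h.chi_eq]
  rfl

/-- a large space of directions with zero growth -/
theorem leafCG [Group.IsNilpotent G] {ι : Type} [Fintype ι] [Nonempty ι] (s : ι → G)
    (hs : Submonoid.closure (Set.range s) = ⊤) (hC : ∀ v, 1 ≤ C v)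
    (hCm : ∀ u v, C (u * v) ≤ C u * C v) {r : ℕ} (a : Fin r → G) (k : ℕ) :
    ∀ (J : Multiset G → ℝ) (χ : G → ℝ), NF C (k + 1) J χ →
    ∃ W : Submodule ℝ (Fin r → ℝ), r ≤ finrank ℝ W + (k + 1) ∧
      ((∀ g, χ g = 1) → r ≤ finrank ℝ W + k) ∧
      ∀ x ∈ AW a W, Gr 0 (fun n => dgr (k + 1) J (x n)) := by
  induction k with
  | zero =>
    intro J χ hJ
    by_cases h0 : ∀ i, Real.log (χ (a i)) = 0
    · refine ⟨⊤, ?_, fun _ => ?_, fun x hx => ?_⟩
      · rw [finrank_top, finrank_fin_fun]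
        omega
      · rw [finrank_top, finrank_fin_fun]
        omega
      · refine (hJ.gr_chi hC a (fun w _ => ?_) x hx).of_le fun n => (dgr_one hJ _).le
        exact Finset.sum_eq_zero fun i _ => by rw [h0 i, zero_mul]
    · refine ⟨LinearMap.ker (lin fun i => Real.log (χ (a i))), finrank_ker _, fun h => ?_,
        fun x hx => ?_⟩
      · exact absurd (fun i => by rw [h, Real.log_one]) h0
      · refine (hJ.gr_chi hC a (fun w hw => ?_) x hx).of_le fun n => (dgr_one hJ _).le
        rw [← lin_apply]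
        exact hw
  | succ k ih =>
    intro J χ hJ
    obtain ⟨L, hL, χ', hL'⟩ := leafAG s hs hC hJ
    obtain ⟨W', h1, -, h3⟩ := ih L χ' hL'
    have key : ∀ W : Submodule ℝ (Fin r → ℝ), W ≤ W' →
        (∀ w ∈ W, ∑ i, Real.log (χ (a i)) * w i = 0) →
        ∀ x ∈ AW a W, Gr 0 (fun n => dgr (k + 2) J (x n)) := by
      intro W hW hW0
      exact principle hC hJ (jointG hJ hL) hL'.norm hL'.nonneg (AW a W)
        (fun ε hε => genW_small a hC hCm W hε) (hJ.gr_chi hC a hW0)
        (fun x hx => h3 x (AW_mono a hW hx))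
    by_cases h0 : ∀ i, Real.log (χ (a i)) = 0
    · refine ⟨W', by omega, fun _ => h1, key W' le_rfl fun w _ => ?_⟩
      exact Finset.sum_eq_zero fun i _ => by rw [h0 i, zero_mul]
    · refine ⟨W' ⊓ LinearMap.ker (lin fun i => Real.log (χ (a i))), ?_, fun h => ?_,
        key _ inf_le_left fun w hw => ?_⟩
      · have h4 := Submodule.finrank_sup_add_finrank_inf_eq W'
          (LinearMap.ker (lin fun i => Real.log (χ (a i))))
        have h5 := finrank_ker (fun i => Real.log (χ (a i)))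
        have h6 : finrank ℝ ↥(W' ⊔ LinearMap.ker (lin fun i => Real.log (χ (a i)))) ≤ r := by
          have := Submodule.finrank_le (W' ⊔ LinearMap.ker (lin fun i => Real.log (χ (a i))))
          rwa [finrank_fin_fun] at this
        omega
      · exact absurd (fun i => by rw [h, Real.log_one]) h0
      · rw [← lin_apply]
        exact hw.2

end

end Run7.h528.NR
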