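import Pool.Agent.N769.RK.GE
import Pool.Agent.Run7.h528.NR.C

/-!
The limit forms of an almost invariant sequence, of all degrees. This extends the construction of
helper769 (`Pool/Agent/N769/RK/J.lean`) to groups, to all numbers of elements of the sequence, and
adds the joint exchange inequality of consecutive limit forms.
-/

set_option autoImplicit false

open Multiset Filter Topology

namespace Run7.h528.NR

open Pool.Agent.N110 Pool.Agent.N110.RK

/-- intersection numbers with an action of the group `G` and a sequence of elements which is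
almost invariant -/
structure GSys {α 𝒜 G : Type} [Preorder 𝒜] [Group G] (n : ℕ) (t : Multiset α → ℝ)
    (φ : G → α → α) (mul : α → α → α) (H : α) (m : ℕ → ℝ) (M : 𝒜 → ℕ → α) (ν : ℕ) (c ε : ℝ) :
    Prop where
  pos : ∀ s : Multiset α, s.card = n → 0 < t s
  ex : Exch n t
  hn : 0 < n
  hν : ν ≤ n
  hc : 0 < c
  hε : 0 < ε
  φ_one : φ 1 = id
  φ_mul : ∀ u v, φ (u * v) = φ u ∘ φ v
  inv : ∀ u (s : Multiset α), s.card = n → t (s.map (φ u)) = t s
  mul_t : ∀ a b (s : Multiset α), s.card + 1 = n →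
    t (mul a b ::ₘ s) = t (a ::ₘ s) + t (b ::ₘ s)
  m_pos : ∀ q, 0 < m q
  mono : ∀ a a', a ≤ a' → ∀ q, Le n t 1 (M a q) (M a' q)
  M_f : ∀ u a, ∃ a', ∀ q, Le n t 1 (φ u (M a q)) (M a' q)
  M_le : ∀ a, ∀ᶠ q in atTop, Le n t (c * m q) (M a q) H
  eps : ∃ a, ∀ᶠ q in atTop, ε * m q ^ ν ≤ t (replicate ν (M a q) + replicate (n - ν) H)

/-- the domination constants -/
noncomputable def CCG {α G : Type} (n : ℕ) (t : Multiset α → ℝ) (φ : G → α → α) (H : α)
    (u : G) : ℝ :=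
  max 1 (4 ^ (n - 1) * t (φ u H ::ₘ replicate (n - 1) H) / t (replicate n H))

/-- the quotients -/
noncomputable def TqG {α 𝒜 G : Type} (n : ℕ) (t : Multiset α → ℝ) (φ : G → α → α) (H : α)
    (m : ℕ → ℝ) (M : 𝒜 → ℕ → α) (j : ℕ) (a : 𝒜) (q : ℕ) (s : Multiset G) : ℝ :=
  if s.card = n - j then t (replicate j (M a q) + s.map (fun v => φ v H)) / m q ^ j else 0

/-- the limits -/
noncomputable def KG {α 𝒜 G : Type} (n : ℕ) (t : Multiset α → ℝ) (φ : G → α → α) (H : α)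
    (m : ℕ → ℝ) (M : 𝒜 → ℕ → α) (𝒰 : Ultrafilter ℕ) (j : ℕ) (a : 𝒜) (s : Multiset G) : ℝ :=
  limUnder (𝒰 : Filter ℕ) (fun q => TqG n t φ H m M j a q s)

/-- the limit form -/
noncomputable def JG {α 𝒜 G : Type} (n : ℕ) (t : Multiset α → ℝ) (φ : G → α → α) (H : α)
    (m : ℕ → ℝ) (M : 𝒜 → ℕ → α) (𝒰 : Ultrafilter ℕ) (j : ℕ) (s : Multiset G) : ℝ :=
  ⨆ a, KG n t φ H m M 𝒰 j a s

section

variable {α 𝒜 G : Type} [Preorder 𝒜] [Group G] {n : ℕ} {t : Multiset α → ℝ} {φ : G → α → α}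
  {mul : α → α → α} {H : α} {m : ℕ → ℝ} {M : 𝒜 → ℕ → α} {ν : ℕ} {c ε : ℝ}

namespace GSys

theorem φ_inv (h : GSys n t φ mul H m M ν c ε) (u : G) (a : α) : φ u (φ u⁻¹ a) = a := by
  have h1 := h.φ_mul u u⁻¹
  rw [mul_inv_cancel, h.φ_one] at h1
  exact (congrFun h1 a).symm

theorem tH (h : GSys n t φ mul H m M ν c ε) : 0 < t (replicate n H) :=
  h.pos _ (card_replicate _ _)

theorem base (h : GSys n t φ mul H m M ν c ε) (u : G) (s : Multiset α)
    (hs : s.card + 1 = n) : t (φ u H ::ₘ s) ≤ CCG n t φ H u * t (H ::ₘ s) := by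
  have h1 := rkt1 h.pos h.ex H (φ u H) s 0 (by rw [card_zero]; omega)
  rw [add_zero, add_zero, add_zero] at h1
  have e1 : s.card = n - 1 := by omega
  have e2 : n - 1 + 1 = n := by omega
  rw [e1, e2] at h1
  have p1 : 0 < t (replicate n H) := h.tH
  have p2 : 0 < t (H ::ₘ s) := h.pos _ (by rw [card_cons]; exact hs)
  calc t (φ u H ::ₘ s) ≤
      4 ^ (n - 1) * t (φ u H ::ₘ replicate (n - 1) H) / t (replicate n H) * t (H ::ₘ s) := by
        rw [div_mul_eq_mul_div, le_div_iff₀ p1]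
        calc _ ≤ _ := h1
          _ = _ := by ring
    _ ≤ _ := mul_le_mul_of_nonneg_right (le_max_right _ _) p2.le

theorem CC_one (u : G) : 1 ≤ CCG n t φ H u := le_max_left _ _

theorem CC_mul (h : GSys n t φ mul H m M ν c ε) (u v : G) :
    CCG n t φ H (u * v) ≤ CCG n t φ H u * CCG n t φ H v := by
  have hn := h.hn
  have p1 : 0 < t (replicate n H) := h.tH
  have e2 : n - 1 + 1 = n := by omega
  have h1 := rkt1 h.pos h.ex (φ u H) (φ (u * v) H) (replicate (n - 1) H) 0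
    (by rw [card_replicate, card_zero]; omega)
  rw [card_replicate, add_zero, add_zero, add_zero, e2] at h1
  have e3 : replicate n (φ u H) = (replicate n H).map (φ u) := by rw [map_replicate]
  have e4 : φ (u * v) H ::ₘ replicate (n - 1) (φ u H) =
      (φ v H ::ₘ replicate (n - 1) H).map (φ u) := by
    rw [map_cons, map_replicate, h.φ_mul]
    rfl
  rw [e3, e4, h.inv _ _ (card_replicate _ _),
    h.inv _ _ (by rw [card_cons, card_replicate]; omega)] at h1
  obtain ⟨A, hA⟩ : ∃ A, A = t (φ u H ::ₘ replicate (n - 1) H) := ⟨_, rfl⟩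
  obtain ⟨B, hB⟩ : ∃ B, B = t (φ v H ::ₘ replicate (n - 1) H) := ⟨_, rfl⟩
  obtain ⟨D, hD⟩ : ∃ D, D = t (φ (u * v) H ::ₘ replicate (n - 1) H) := ⟨_, rfl⟩
  obtain ⟨T, hT⟩ : ∃ T, T = t (replicate n H) := ⟨_, rfl⟩
  rw [← hA, ← hB, ← hD, ← hT] at h1
  rw [← hT] at p1
  unfold CCG
  rw [← hA, ← hB, ← hD, ← hT]
  have hA0 : 0 < A := by rw [hA]; exact h.pos _ (by rw [card_cons, card_replicate]; omega)
  have hB0 : 0 < B := by rw [hB]; exact h.pos _ (by rw [card_cons, card_replicate]; omega)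
  have k1 : 4 ^ (n - 1) * D / T ≤ (4 ^ (n - 1) * A / T) * (4 ^ (n - 1) * B / T) := by
    rw [div_mul_div_comm, div_le_div_iff₀ p1 (mul_pos p1 p1)]
    have h2 := mul_le_mul_of_nonneg_left h1 (show (0 : ℝ) ≤ 4 ^ (n - 1) * T by positivity)
    calc 4 ^ (n - 1) * D * (T * T) = 4 ^ (n - 1) * T * (D * T) := by ring
      _ ≤ _ := h2
      _ = _ := by ring
  refine max_le ?_ ?_
  · exact one_le_mul_of_one_le_of_one_le (le_max_left _ _) (le_max_left _ _)
  · refine k1.trans (mul_le_mul (le_max_right _ _) (le_max_right _ _) (by positivity)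
      (zero_le_one.trans (le_max_left _ _)))

/-- the translate of a multiset -/
theorem map_inv' (h : GSys n t φ mul H m M ν c ε) (w : G) (s : Multiset α) :
    (s.map (φ w⁻¹)).map (φ w) = s := by
  have e2 : φ w ∘ φ w⁻¹ = id := by
    rw [← h.φ_mul, mul_inv_cancel, h.φ_one]
  rw [Multiset.map_map, e2, Multiset.map_id]

theorem base2 (h : GSys n t φ mul H m M ν c ε) (v w : G) (s : Multiset α)
    (hs : s.card + 1 = n) : t (φ v H ::ₘ s) ≤ CCG n t φ H (w⁻¹ * v) * t (φ w H ::ₘ s) := by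
  have h1 := h.base (w⁻¹ * v) (s.map (φ w⁻¹)) (by rw [card_map]; exact hs)
  have e1 : φ v H = φ w (φ (w⁻¹ * v) H) := by
    have := congrFun (h.φ_mul w (w⁻¹ * v)) H
    rw [mul_inv_cancel_left] at this
    exact this
  have e2 : ∀ x : α, t (φ w x ::ₘ s) = t (x ::ₘ s.map (φ w⁻¹)) := by
    intro x
    have := h.inv w (x ::ₘ s.map (φ w⁻¹)) (by rw [card_cons, card_map]; exact hs)
    rw [map_cons, h.map_inv'] at this
    exact this
  rw [e1, e2, e2]
  exact h1

variable {j : ℕ}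

theorem Tq_nonneg (h : GSys n t φ mul H m M ν c ε) (hj : j ≤ n) (a : 𝒜) (q : ℕ)
    (s : Multiset G) : 0 ≤ TqG n t φ H m M j a q s := by
  unfold TqG
  split_ifs with hs
  · exact div_nonneg (h.pos _ (by rw [card_add, card_replicate, card_map]; omega)).le
      (pow_nonneg (h.m_pos q).le _)
  · exact le_rfl

theorem Tq_dom (h : GSys n t φ mul H m M ν c ε) (hj : j ≤ n) (a : 𝒜) (q : ℕ) (v w : G)
    (s : Multiset G) :
    TqG n t φ H m M j a q (v ::ₘ s) ≤ CCG n t φ H (w⁻¹ * v) * TqG n t φ H m M j a q (w ::ₘ s) := by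
  unfold TqG
  rw [card_cons, card_cons]
  have hm := h.m_pos q
  split_ifs with hs
  · have h1 := h.base2 v w (replicate j (M a q) + s.map (fun v => φ v H))
      (by rw [card_add, card_replicate, card_map]; omega)
    rw [map_cons, map_cons, add_cons, add_cons, mul_div_assoc']
    gcongr
  · simp

theorem Tq_mono (h : GSys n t φ mul H m M ν c ε) (hj : j ≤ n) {a a' : 𝒜} (haa : a ≤ a') (q : ℕ)
    (s : Multiset G) : TqG n t φ H m M j a q s ≤ TqG n t φ H m M j a' q s := by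
  unfold TqG
  have hm := h.m_pos q
  split_ifs with hs
  · have h1 := (h.mono a a' haa q).rep zero_le_one j (s.map (fun v => φ v H))
      (by rw [card_map]; omega)
    rw [one_pow, one_mul] at h1
    gcongr
  · exact le_rfl

theorem Tq_inv (h : GSys n t φ mul H m M ν c ε) (hj : j ≤ n) (u : G) (a : 𝒜) :
    ∃ a' : 𝒜, ∀ q s,
      TqG n t φ H m M j a q (s.map (fun v => u * v)) ≤ TqG n t φ H m M j a' q s := by
  obtain ⟨a', ha'⟩ := h.M_f u⁻¹ a
  refine ⟨a', fun q s => ?_⟩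
  unfold TqG
  rw [card_map]
  have hm := h.m_pos q
  split_ifs with hs
  · have h1 := (ha' q).rep zero_le_one j (s.map (fun v => φ v H)) (by rw [card_map]; omega)
    rw [one_pow, one_mul] at h1
    have e1 : replicate j (M a q) + (s.map (fun v => u * v)).map (fun v => φ v H) =
        (replicate j (φ u⁻¹ (M a q)) + s.map (fun v => φ v H)).map (φ u) := by
      rw [Multiset.map_add, map_replicate, Multiset.map_map, Multiset.map_map, h.φ_inv]
      congr 2
      refine funext fun v => ?_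
      exact congrFun (h.φ_mul u v) H
    rw [e1, h.inv u _ (by rw [card_add, card_replicate, card_map]; omega)]
    gcongr
  · exact le_rfl

theorem Tq_le (h : GSys n t φ mul H m M ν c ε) (hj : j ≤ n) (a : 𝒜) (s : Multiset G) :
    ∀ᶠ q in atTop, TqG n t φ H m M j a q s ≤
      if s.card = n - j then c ^ j * t (replicate j H + s.map (fun v => φ v H)) else 0 := by
  filter_upwards [h.M_le a] with q hq
  unfold TqG
  have hm := h.m_pos q
  split_ifs with hs
  · have h1 := hq.rep (mul_pos h.hc hm).le j (s.map (fun v => φ v H)) (by rw [card_map]; omega)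
    rw [div_le_iff₀ (by positivity)]
    refine h1.trans (le_of_eq ?_)
    rw [mul_pow]
    ring
  · exact le_rfl

theorem Tq_ge (h : GSys n t φ mul H m M ν c ε) (hj : j ≤ n) (a : 𝒜) (q : ℕ) :
    GE (n - j) (TqG n t φ H m M j a q) := by
  have hm := h.m_pos q
  refine Pool.Agent.N769.RK.leafGE α G (n - j) (fun s => t (replicate j (M a q) + s) / m q ^ j) mul
    (fun v => φ v H) _ ?_ ?_ ?_ ?_
  · intro s hs
    have := h.pos (replicate j (M a q) + s) (by rw [card_add, card_replicate]; omega)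
    positivity
  · intro R hR x y z w
    have h1 := h.ex (replicate j (M a q) + R) (by rw [card_add, card_replicate]; omega) x y z w
    have e : ∀ x y : α, replicate j (M a q) + x ::ₘ y ::ₘ R = x ::ₘ y ::ₘ (replicate j (M a q) + R) := by
      intro x y
      rw [add_cons, add_cons]
    simp only [e]
    have hk : 0 < (m q ^ j)⁻¹ := by positivity
    have h2 := mul_le_mul_of_nonneg_left h1 (mul_pos hk hk).le
    simp only [div_eq_mul_inv]
    calc _ = (m q ^ j)⁻¹ * (m q ^ j)⁻¹ * (t (x ::ₘ y ::ₘ (replicate j (M a q) + R)) *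
        t (z ::ₘ w ::ₘ (replicate j (M a q) + R))) := by ring
      _ ≤ _ := h2
      _ = _ := by ring
  · intro x y s hs
    have h1 := h.mul_t x y (replicate j (M a q) + s) (by rw [card_add, card_replicate]; omega)
    simp only [add_cons]
    rw [h1, add_div]
  · intro s hs
    unfold TqG
    rw [if_pos hs]

/-- the joint exchange inequality of the quotients -/
theorem Tq_jnt (h : GSys n t φ mul H m M ν c ε) {k : ℕ} (hk : n - j = k + 2) (a : 𝒜) (q : ℕ) :
    Jnt k (TqG n t φ H m M j a q) (TqG n t φ H m M (j + 1) a q) := by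
  intro s hs x y z
  have hm := h.m_pos q
  have h1 := h.ex (replicate j (M a q) + s.map (fun v => φ v H))
    (by rw [card_add, card_replicate, card_map]; omega) (M a q) (φ x H) (φ y H) (φ z H)
  have e1 : ∀ x : G, TqG n t φ H m M (j + 1) a q (x ::ₘ s) =
      t (M a q ::ₘ φ x H ::ₘ (replicate j (M a q) + s.map (fun v => φ v H))) / m q ^ (j + 1) := by
    intro x
    unfold TqG
    rw [if_pos (by rw [card_cons]; omega), map_cons, replicate_succ, cons_add, add_cons]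
  have e2 : ∀ x y : G, TqG n t φ H m M j a q (x ::ₘ y ::ₘ s) =
      t (φ x H ::ₘ φ y H ::ₘ (replicate j (M a q) + s.map (fun v => φ v H))) / m q ^ j := by
    intro x y
    unfold TqG
    rw [if_pos (by rw [card_cons, card_cons]; omega), map_cons, map_cons, add_cons, add_cons]
  rw [e1, e2, e1, e2, e1, e2]
  have hk : 0 < (m q ^ (j + 1))⁻¹ * (m q ^ j)⁻¹ := by positivity
  have h2 := mul_le_mul_of_nonneg_left h1 hk.le
  simp only [div_eq_mul_inv]
  calc _ = (m q ^ (j + 1))⁻¹ * (m q ^ j)⁻¹ *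
      (t (M a q ::ₘ φ x H ::ₘ (replicate j (M a q) + s.map (fun v => φ v H))) *
        t (φ y H ::ₘ φ z H ::ₘ (replicate j (M a q) + s.map (fun v => φ v H)))) := by ring
    _ ≤ _ := h2
    _ = _ := by ring

variable {𝒰 : Ultrafilter ℕ}

theorem K_spec (h : GSys n t φ mul H m M ν c ε) (h𝒰 : (𝒰 : Filter ℕ) ≤ atTop) (hj : j ≤ n)
    (a : 𝒜) (s : Multiset G) :
    Tendsto (fun q => TqG n t φ H m M j a q s) 𝒰 (𝓝 (KG n t φ H m M 𝒰 j a s)) ∧
      0 ≤ KG n t φ H m M 𝒰 j a s ∧ KG n t φ H m M 𝒰 j a s ≤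
        if s.card = n - j then c ^ j * t (replicate j H + s.map (fun v => φ v H)) else 0 := by
  obtain ⟨B, hB⟩ : ∃ B, B = if s.card = n - j then
    c ^ j * t (replicate j H + s.map (fun v => φ v H)) else 0 := ⟨_, rfl⟩
  rw [← hB]
  have h1 : ((𝒰.map (fun q => TqG n t φ H m M j a q s) : Ultrafilter ℝ) : Filter ℝ) ≤
      𝓟 (Set.Icc 0 B) := by
    rw [le_principal_iff, Ultrafilter.coe_map, Filter.mem_map]
    have h2 := h𝒰 (h.Tq_le hj a s)
    filter_upwards [h2] with q hq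
    rw [hB]
    exact ⟨h.Tq_nonneg hj a q s, hq⟩
  obtain ⟨x, hx, hx2⟩ := isCompact_Icc.ultrafilter_le_nhds _ h1
  rw [Ultrafilter.coe_map] at hx2
  have h3 : Tendsto (fun q => TqG n t φ H m M j a q s) 𝒰 (𝓝 x) := hx2
  have h4 := h3.limUnder_eq
  unfold KG
  rw [h4]
  exact ⟨h3, hx.1, hx.2⟩

theorem K_mono (h : GSys n t φ mul H m M ν c ε) (h𝒰 : (𝒰 : Filter ℕ) ≤ atTop) (hj : j ≤ n)
    (s : Multiset G) : Monotone fun a => KG n t φ H m M 𝒰 j a s := fun a a' haa =>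
  le_of_tendsto_of_tendsto (h.K_spec h𝒰 hj a s).1 (h.K_spec h𝒰 hj a' s).1
    (Eventually.of_forall fun q => h.Tq_mono hj haa q s)

theorem K_bdd (h : GSys n t φ mul H m M ν c ε) (h𝒰 : (𝒰 : Filter ℕ) ≤ atTop) (hj : j ≤ n)
    (s : Multiset G) : BddAbove (Set.range fun a => KG n t φ H m M 𝒰 j a s) := by
  refine ⟨if s.card = n - j then c ^ j * t (replicate j H + s.map (fun v => φ v H)) else 0, ?_⟩
  rintro _ ⟨a, rfl⟩
  exact (h.K_spec h𝒰 hj a s).2.2

theorem J_le (h : GSys n t φ mul H m M ν c ε) (h𝒰 : (𝒰 : Filter ℕ) ≤ atTop) (hj : j ≤ n)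
    (a : 𝒜) (s : Multiset G) : KG n t φ H m M 𝒰 j a s ≤ JG n t φ H m M 𝒰 j s :=
  le_ciSup (h.K_bdd h𝒰 hj s) a

variable [IsDirected 𝒜 (· ≤ ·)] [Nonempty 𝒜]

theorem J_tend (h : GSys n t φ mul H m M ν c ε) (h𝒰 : (𝒰 : Filter ℕ) ≤ atTop) (hj : j ≤ n)
    (s : Multiset G) :
    Tendsto (fun a => KG n t φ H m M 𝒰 j a s) atTop (𝓝 (JG n t φ H m M 𝒰 j s)) :=
  tendsto_atTop_ciSup (h.K_mono h𝒰 hj s) (h.K_bdd h𝒰 hj s)

theorem J_ge (h : GSys n t φ mul H m M ν c ε) (h𝒰 : (𝒰 : Filter ℕ) ≤ atTop) (hj : j ≤ n) :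
    GE (n - j) (JG n t φ H m M 𝒰 j) := by
  have hNB : (𝒰 : Filter ℕ).NeBot := inferInstance
  have hKge : ∀ a, GE (n - j) (KG n t φ H m M 𝒰 j a) := fun a =>
    (isClosed_GE (n - j)).mem_of_tendsto (tendsto_pi_nhds.2 fun s => (h.K_spec h𝒰 hj a s).1)
      (Eventually.of_forall fun q => h.Tq_ge hj a q)
  exact (isClosed_GE (n - j)).mem_of_tendsto (tendsto_pi_nhds.2 (h.J_tend h𝒰 hj))
    (Eventually.of_forall fun a => hKge a)

theorem J_dom (h : GSys n t φ mul H m M ν c ε) (h𝒰 : (𝒰 : Filter ℕ) ≤ atTop) (hj : j ≤ n)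
    (v w : G) (s : Multiset G) : JG n t φ H m M 𝒰 j (v ::ₘ s) ≤
      CCG n t φ H (w⁻¹ * v) * JG n t φ H m M 𝒰 j (w ::ₘ s) := by
  have hNB : (𝒰 : Filter ℕ).NeBot := inferInstance
  have hKdom : ∀ a, KG n t φ H m M 𝒰 j a (v ::ₘ s) ≤
      CCG n t φ H (w⁻¹ * v) * KG n t φ H m M 𝒰 j a (w ::ₘ s) := fun a =>
    le_of_tendsto_of_tendsto (h.K_spec h𝒰 hj a _).1 ((h.K_spec h𝒰 hj a _).1.const_mul _)
      (Eventually.of_forall fun q => h.Tq_dom hj a q v w s)
  exact le_of_tendsto_of_tendsto (h.J_tend h𝒰 hj _) ((h.J_tend h𝒰 hj _).const_mul _)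
      (Eventually.of_forall fun a => hKdom a)

theorem J_nonneg (h : GSys n t φ mul H m M ν c ε) (h𝒰 : (𝒰 : Filter ℕ) ≤ atTop) (hj : j ≤ n)
    (s : Multiset G) : 0 ≤ JG n t φ H m M 𝒰 j s :=
  (h.K_spec h𝒰 hj (Classical.arbitrary 𝒜) s).2.1.trans (h.J_le h𝒰 hj _ s)

theorem J_zero (h : GSys n t φ mul H m M ν c ε) (h𝒰 : (𝒰 : Filter ℕ) ≤ atTop) (hj : j ≤ n)
    (s : Multiset G) (hs : s.card ≠ n - j) : JG n t φ H m M 𝒰 j s = 0 := by
  refine le_antisymm ?_ (h.J_nonneg h𝒰 hj s)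
  refine ciSup_le fun a => ?_
  have := (h.K_spec h𝒰 hj a s).2.2
  rwa [if_neg hs] at this

theorem J_inv (h : GSys n t φ mul H m M ν c ε) (h𝒰 : (𝒰 : Filter ℕ) ≤ atTop) (hj : j ≤ n)
    (u : G) (s : Multiset G) :
    JG n t φ H m M 𝒰 j (s.map (fun v => u * v)) = JG n t φ H m M 𝒰 j s := by
  have hNB : (𝒰 : Filter ℕ).NeBot := inferInstance
  have hJinv1 : ∀ (u : G) s, JG n t φ H m M 𝒰 j (s.map (fun v => u * v)) ≤
      JG n t φ H m M 𝒰 j s := by
    intro u s
    refine ciSup_le fun a => ?_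
    obtain ⟨a', ha'⟩ := h.Tq_inv hj u a
    exact (le_of_tendsto_of_tendsto (h.K_spec h𝒰 hj a _).1 (h.K_spec h𝒰 hj a' _).1
      (Eventually.of_forall fun q => ha' q s)).trans (h.J_le h𝒰 hj a' s)
  refine le_antisymm (hJinv1 u s) ?_
  have h1 := hJinv1 u⁻¹ (s.map (fun v => u * v))
  rw [Multiset.map_map] at h1
  have e : ((fun v : G => u⁻¹ * v) ∘ fun v => u * v) = id := by
    funext v
    simp
  rw [e, Multiset.map_id] at h1
  exact h1

/-- the joint exchange inequality of consecutive limit forms -/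
theorem J_jnt (h : GSys n t φ mul H m M ν c ε) (h𝒰 : (𝒰 : Filter ℕ) ≤ atTop) {k : ℕ}
    (hk : n - j = k + 2) : Jnt k (JG n t φ H m M 𝒰 j) (JG n t φ H m M 𝒰 (j + 1)) := by
  have hj : j ≤ n := by omega
  have hj1 : j + 1 ≤ n := by omega
  intro s hs x y z
  have hK : ∀ a, KG n t φ H m M 𝒰 (j + 1) a (x ::ₘ s) * KG n t φ H m M 𝒰 j a (y ::ₘ z ::ₘ s) ≤
      2 * (KG n t φ H m M 𝒰 (j + 1) a (y ::ₘ s) * KG n t φ H m M 𝒰 j a (x ::ₘ z ::ₘ s) +
        KG n t φ H m M 𝒰 (j + 1) a (z ::ₘ s) * KG n t φ H m M 𝒰 j a (x ::ₘ y ::ₘ s)) := fun a =>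
    le_of_tendsto_of_tendsto
      ((h.K_spec h𝒰 hj1 a _).1.mul (h.K_spec h𝒰 hj a _).1)
      ((((h.K_spec h𝒰 hj1 a _).1.mul (h.K_spec h𝒰 hj a _).1).add
        ((h.K_spec h𝒰 hj1 a _).1.mul (h.K_spec h𝒰 hj a _).1)).const_mul 2)
      (Eventually.of_forall fun q => h.Tq_jnt hk a q s hs x y z)
  exact le_of_tendsto_of_tendsto
    ((h.J_tend h𝒰 hj1 _).mul (h.J_tend h𝒰 hj _))
    ((((h.J_tend h𝒰 hj1 _).mul (h.J_tend h𝒰 hj _)).add
      ((h.J_tend h𝒰 hj1 _).mul (h.J_tend h𝒰 hj _))).const_mul 2)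
    (Eventually.of_forall hK)

/-- positivity -/
theorem J_norm (h : GSys n t φ mul H m M ν c ε) (h𝒰 : (𝒰 : Filter ℕ) ≤ atTop) (hj : j ≤ ν) :
    0 < JG n t φ H m M 𝒰 j (replicate (n - j) 1) := by
  have hν := h.hν
  have hjn : j ≤ n := by omega
  obtain ⟨a, ha⟩ := h.eps
  have hc := h.hc
  have hε := h.hε
  have hpos : 0 < ε / c ^ (ν - j) := by positivity
  refine hpos.trans_le (le_trans ?_ (h.J_le h𝒰 hjn a _))
  refine ge_of_tendsto (h.K_spec h𝒰 hjn a _).1 ?_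
  filter_upwards [h𝒰 ha, h𝒰 (h.M_le a)] with q hq hq2
  have hm := h.m_pos q
  unfold TqG
  rw [card_replicate, if_pos rfl, map_replicate, h.φ_one, id, div_le_div_iff₀ (by positivity)
    (by positivity)]
  have h1 := hq2.rep (mul_pos hc hm).le (ν - j) (replicate j (M a q) + replicate (n - ν) H)
    (by rw [card_add, card_replicate, card_replicate]; omega)
  have e1 : replicate (ν - j) (M a q) + (replicate j (M a q) + replicate (n - ν) H) =
      replicate ν (M a q) + replicate (n - ν) H := by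
    rw [← add_assoc, ← replicate_add]
    congr 2
    omega
  have e2 : replicate (ν - j) H + (replicate j (M a q) + replicate (n - ν) H) =
      replicate j (M a q) + replicate (n - j) H := by
    rw [add_left_comm, ← replicate_add]
    congr 2
    omega
  rw [e1, e2] at h1
  have h2 := hq.trans h1
  have e3 : m q ^ ν = m q ^ (ν - j) * m q ^ j := by
    rw [← pow_add]
    congr 1
    omega
  rw [e3, mul_pow] at h2
  have h3 : m q ^ (ν - j) * (ε * m q ^ j) ≤ m q ^ (ν - j) *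
      (t (replicate j (M a q) + replicate (n - j) H) * c ^ (ν - j)) := by
    calc m q ^ (ν - j) * (ε * m q ^ j) = ε * (m q ^ (ν - j) * m q ^ j) := by ring
      _ ≤ _ := h2
      _ = _ := by ring
  exact le_of_mul_le_mul_left h3 (pow_pos hm _)

/-- the normalised limit form -/
theorem J_NF (h : GSys n t φ mul H m M ν c ε) (h𝒰 : (𝒰 : Filter ℕ) ≤ atTop) (hj : j ≤ ν) :
    NF (CCG n t φ H) (n - j) (fun s => (JG n t φ H m M 𝒰 j (replicate (n - j) 1))⁻¹ *
      JG n t φ H m M 𝒰 j s) (fun _ => 1) := by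
  have hν := h.hν
  have hjn : j ≤ n := by omega
  have hκ0 := h.J_norm h𝒰 hj
  have hκi : 0 ≤ (JG n t φ H m M 𝒰 j (replicate (n - j) 1))⁻¹ := (inv_pos.2 hκ0).le
  refine ⟨fun s => mul_nonneg hκi (h.J_nonneg h𝒰 hjn s),
    fun s hs => by rw [h.J_zero h𝒰 hjn s hs, mul_zero], inv_mul_cancel₀ hκ0.ne', ?_,
    Pool.Agent.N769.RK.GE_smul (h.J_ge h𝒰 hjn) _, ?_⟩
  · intro v w s
    have := mul_le_mul_of_nonneg_left (h.J_dom h𝒰 hjn v w s) hκi
    calc _ ≤ _ := this
      _ = _ := by ring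
  · intro u s
    rw [h.J_inv h𝒰 hjn, one_mul]

/-- the form of degree `n` -/
theorem J_top (h : GSys n t φ mul H m M ν c ε) (h𝒰 : (𝒰 : Filter ℕ) ≤ atTop) (s : Multiset G)
    (hs : s.card = n) : JG n t φ H m M 𝒰 0 s = t (s.map (fun v => φ v H)) := by
  have hNB : (𝒰 : Filter ℕ).NeBot := inferInstance
  have h1 : ∀ a, KG n t φ H m M 𝒰 0 a s = t (s.map (fun v => φ v H)) := by
    intro a
    refine tendsto_nhds_unique (h.K_spec h𝒰 (Nat.zero_le n) a s).1 ?_
    refine tendsto_const_nhds.congr fun q => ?_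
    unfold TqG
    rw [if_pos (by rw [hs, Nat.sub_zero]), replicate_zero, zero_add, pow_zero, div_one]
  unfold JG
  rw [iSup_congr h1, ciSup_const]

end GSys

theorem Jnt.smul {k : ℕ} {J L : Multiset G → ℝ} (h : Jnt k J L) {a b : ℝ} (ha : 0 ≤ a)
    (hb : 0 ≤ b) : Jnt k (fun s => a * J s) (fun s => b * L s) := by
  intro s hs x y z
  have h1 := mul_le_mul_of_nonneg_left (h s hs x y z) (mul_nonneg ha hb)
  calc b * L (x ::ₘ s) * (a * J (y ::ₘ z ::ₘ s)) =
      a * b * (L (x ::ₘ s) * J (y ::ₘ z ::ₘ s)) := by ring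
    _ ≤ _ := h1
    _ = _ := by ring

end

end Run7.h528.NR
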