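import Pool.Agent.N110.RK.Rank
import Pool.Agent.Run7.h528.NR.Lim

/-!
The rank theorem for intersection numbers with an action of a nilpotent group.
-/

set_option autoImplicit false
set_option linter.unusedSectionVars false

open Multiset Filter Topology Module

namespace Run7.h528.NR

open Pool.Agent.N110 Pool.Agent.N110.RK

section

variable {α 𝒜 G : Type} [Preorder 𝒜] [Group G] {n : ℕ} {t : Multiset α → ℝ} {φ : G → α → α}
  {mul : α → α → α} {H : α} {m : ℕ → ℝ} {M : 𝒜 → ℕ → α} {ν : ℕ} {c ε : ℝ}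

/-- a group of sequences with zero growth -/
theorem rank_dirG [IsDirected 𝒜 (· ≤ ·)] [Nonempty 𝒜] [Group.IsNilpotent G]
    (h : GSys n t φ mul H m M ν c ε) {ι : Type} [Fintype ι] [Nonempty ι] (s : ι → G)
    (hs : Submonoid.closure (Set.range s) = ⊤) {r : ℕ} (a : Fin r → G) :
    ∃ W : Submodule ℝ (Fin r → ℝ), (ν < n → r + ν + 1 ≤ finrank ℝ W + n) ∧ (ν = n → W = ⊤) ∧
      ∀ x ∈ AW a W, Gr 0 (fun l => t (φ (x l) H ::ₘ replicate (n - 1) H)) := by
  have hn := h.hn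
  have hν := h.hν
  obtain ⟨𝒰, h𝒰⟩ : ∃ 𝒰 : Ultrafilter ℕ, (𝒰 : Filter ℕ) ≤ atTop :=
    ⟨Ultrafilter.of atTop, Ultrafilter.of_le atTop⟩
  obtain ⟨C, hCdef⟩ : ∃ C : G → ℝ, C = CCG n t φ H := ⟨_, rfl⟩
  have hC : ∀ v, 1 ≤ C v := fun v => by rw [hCdef]; exact GSys.CC_one v
  have hCm : ∀ u v, C (u * v) ≤ C u * C v := fun u v => by rw [hCdef]; exact h.CC_mul u v
  obtain ⟨κ, hκ⟩ : ∃ κ : ℕ → ℝ, ∀ j, κ j = JG n t φ H m M 𝒰 j (replicate (n - j) 1) :=
    ⟨_, fun _ => rfl⟩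
  obtain ⟨J, hJ⟩ : ∃ J : ℕ → Multiset G → ℝ, ∀ j, J j = fun s => (κ j)⁻¹ * JG n t φ H m M 𝒰 j s :=
    ⟨_, fun _ => rfl⟩
  have hκ0 : ∀ j ≤ ν, 0 < κ j := fun j hj => by rw [hκ]; exact h.J_norm h𝒰 hj
  have hNF : ∀ j ≤ ν, NF C (n - j) (J j) (fun _ => 1) := by
    intro j hj
    have := h.J_NF h𝒰 hj
    rw [← hκ, ← hJ, ← hCdef] at this
    exact this
  have hjnt : ∀ j k, j + 1 ≤ ν → n - j = k + 2 → Jnt k (J j) (J (j + 1)) := by
    intro j k hj hk
    rw [hJ, hJ]
    exact (h.J_jnt h𝒰 hk).smul (inv_pos.2 (hκ0 j (by omega))).le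
      (inv_pos.2 (hκ0 (j + 1) hj)).le
  -- descent
  have hdesc : ∀ W : Submodule ℝ (Fin r → ℝ), ∀ j, j + 1 ≤ ν → j + 2 ≤ n →
      (∀ x ∈ AW a W, Gr 0 (fun l => dgr (n - (j + 1)) (J (j + 1)) (x l))) →
      ∀ x ∈ AW a W, Gr 0 (fun l => dgr (n - j) (J j) (x l)) := by
    intro W j hj hjn hg
    obtain ⟨k, hk⟩ : ∃ k, n - j = k + 2 := ⟨n - j - 2, by omega⟩
    have hk1 : n - (j + 1) = k + 1 := by omega
    rw [hk1] at hg
    have h1 := hNF j (by omega)
    have h2 := hNF (j + 1) hj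
    rw [hk] at h1 ⊢
    rw [hk1] at h2
    exact principle hC h1 (hjnt j k hj hk) h2.norm h2.nonneg (AW a W)
      (fun ε hε => genW_small a hC hCm W hε) (fun x _ => Gr.const 1) hg
  have hdesc2 : ∀ W : Submodule ℝ (Fin r → ℝ), ∀ i j, j = i → j ≤ ν → j + 1 ≤ n →
      (∀ x ∈ AW a W, Gr 0 (fun l => dgr (n - j) (J j) (x l))) →
      ∀ x ∈ AW a W, Gr 0 (fun l => dgr n (J 0) (x l)) := by
    intro W i
    induction i with
    | zero =>
      rintro j rfl _ _ h1
      rwa [Nat.sub_zero] at h1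
    | succ i ih =>
      rintro j rfl hj hjn h1
      exact ih i rfl (by omega) (by omega) (hdesc W i hj (by omega) h1)
  -- the top
  have htop : ∀ g, t (φ g H ::ₘ replicate (n - 1) H) = κ 0 * dgr n (J 0) g := by
    intro g
    have h1 := h.J_top h𝒰 (g ::ₘ replicate (n - 1) 1) (by rw [card_cons, card_replicate]; omega)
    rw [map_cons, map_replicate, h.φ_one, id] at h1
    have h2 := (hκ0 0 (Nat.zero_le _)).ne'
    unfold dgr
    rw [hJ]
    beta_reduce
    rw [← mul_assoc, mul_inv_cancel₀ h2, one_mul, h1]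
  have hfin : ∀ W : Submodule ℝ (Fin r → ℝ),
      (∀ x ∈ AW a W, Gr 0 (fun l => dgr n (J 0) (x l))) →
      ∀ x ∈ AW a W, Gr 0 (fun l => t (φ (x l) H ::ₘ replicate (n - 1) H)) := by
    intro W h1 x hx
    refine ((h1 x hx).const_mul (hκ0 0 (Nat.zero_le _)).le).of_le fun l => ?_
    rw [htop]
  rcases Nat.lt_or_ge ν n with h0 | h0
  · obtain ⟨k, hk⟩ : ∃ k, n - ν = k + 1 := ⟨n - ν - 1, by omega⟩
    have h1 := hNF ν le_rfl
    rw [hk] at h1
    obtain ⟨W, -, hW, hZ⟩ := leafCG s hs hC hCm a k _ _ h1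
    have hW1 := hW fun _ => rfl
    rw [← hk] at hZ
    exact ⟨W, fun _ => by omega, fun h2 => by omega,
      hfin W (hdesc2 W ν ν rfl le_rfl (by omega) hZ)⟩
  · have hνn : ν = n := le_antisymm hν h0
    refine ⟨⊤, fun h2 => by omega, fun _ => rfl,
      hfin ⊤ (hdesc2 ⊤ (n - 1) (n - 1) rfl (by omega) (by omega) fun x _ => ?_)⟩
    have h1 := hNF (n - 1) (by omega)
    have e1 : n - (n - 1) = 1 := by omega
    rw [e1] at h1 ⊢
    exact (Gr.const 1).of_le fun l => (dgr_one h1 _).le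

theorem triv_gsys (hpos : ∀ s : Multiset α, s.card = n → 0 < t s) (hex : Exch n t) (hn : 0 < n)
    (hφ0 : φ 1 = id) (hφ : ∀ u v, φ (u * v) = φ u ∘ φ v)
    (hinv : ∀ u (s : Multiset α), s.card = n → t (s.map (φ u)) = t s)
    (hmul : ∀ a b (s : Multiset α), s.card + 1 = n →
      t (mul a b ::ₘ s) = t (a ::ₘ s) + t (b ::ₘ s)) :
    GSys n t φ mul H (fun q : ℕ => (q : ℝ) + 1) (fun (a : ℕ) (_ : ℕ) => RSys.D mul H H a) 0 1
      (t (replicate n H)) := by
  have hD : ∀ (a : ℕ) (s : Multiset α), s.card + 1 = n →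
      t (RSys.D mul H H a ::ₘ s) = (a + 1) * t (H ::ₘ s) := by
    intro a s hs
    induction a with
    | zero => simp [RSys.D]
    | succ a ih =>
      rw [RSys.D, hmul _ _ _ hs, ih]
      push_cast
      ring
  have hH : 0 < t (replicate n H) := hpos _ (card_replicate _ _)
  have hHs : ∀ s : Multiset α, s.card + 1 = n → 0 < t (H ::ₘ s) := fun s hs =>
    hpos _ (by rw [card_cons]; exact hs)
  have hneg : ∀ u, φ u ∘ φ u⁻¹ = id := by
    intro u
    have h1 := hφ u u⁻¹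
    rw [mul_inv_cancel, hφ0] at h1
    exact h1.symm
  refine ⟨hpos, hex, hn, Nat.zero_le _, one_pos, hH, hφ0, hφ, hinv, hmul, fun q => by positivity,
    ?_, ?_, ?_, ?_⟩
  · intro a a' haa q s hs
    rw [hD a s hs, hD a' s hs, one_mul]
    have h1 : (a : ℝ) ≤ a' := by exact_mod_cast haa
    exact mul_le_mul_of_nonneg_right (by linarith) (hHs s hs).le
  · intro u a
    -- the constant
    obtain ⟨C, hC⟩ : ∃ C : ℝ, C = 4 ^ (n - 1) * t (φ u H ::ₘ replicate (n - 1) H) /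
      t (replicate n H) := ⟨_, rfl⟩
    have hdom : ∀ s : Multiset α, s.card + 1 = n → t (φ u H ::ₘ s) ≤ C * t (H ::ₘ s) := by
      intro s hs
      have h1 := rkt1 hpos hex H (φ u H) s 0 (by rw [card_zero]; omega)
      have hs' : s.card = n - 1 := by omega
      rw [hs', add_zero, add_zero, add_zero, show n - 1 + 1 = n by omega] at h1
      rw [hC, div_mul_eq_mul_div, le_div_iff₀ hH, mul_assoc]
      exact h1
    obtain ⟨a', ha'⟩ := exists_nat_ge ((a + 1) * C)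
    refine ⟨a', fun q s hs => ?_⟩
    rw [one_mul, hD a' s hs]
    obtain ⟨s', hs'⟩ : ∃ s', s' = s.map (φ u⁻¹) := ⟨_, rfl⟩
    have e1 : s = s'.map (φ u) := by
      rw [hs', Multiset.map_map, hneg, Multiset.map_id]
    have hc' : s'.card + 1 = n := by rw [hs', card_map]; exact hs
    have h2 : t (φ u (RSys.D mul H H a) ::ₘ s) = (a + 1) * t (φ u H ::ₘ s) := by
      rw [e1, ← map_cons, ← map_cons, hinv _ _ (by rw [card_cons]; exact hc'),
        hinv _ _ (by rw [card_cons]; exact hc'), hD a s' hc']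
    rw [h2]
    calc ((a : ℝ) + 1) * t (φ u H ::ₘ s) ≤ (a + 1) * (C * t (H ::ₘ s)) :=
          mul_le_mul_of_nonneg_left (hdom s hs) (by positivity)
      _ = ((a + 1) * C) * t (H ::ₘ s) := by ring
      _ ≤ (a' + 1) * t (H ::ₘ s) :=
        mul_le_mul_of_nonneg_right (by linarith) (hHs s hs).le
  · intro a
    filter_upwards [eventually_ge_atTop a] with q hq s hs
    rw [hD a s hs, one_mul]
    have h1 : (a : ℝ) ≤ q := by exact_mod_cast hq
    exact mul_le_mul_of_nonneg_right (by linarith) (hHs s hs).le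
  · refine ⟨0, Eventually.of_forall fun q => ?_⟩
    rw [pow_zero, mul_one, replicate_zero, zero_add, Nat.sub_zero]

end

/-- uniform bounds near a ray, from the bounds for all sequences near the ray -/
theorem near_ray {G : Type} [Group G] {r : ℕ} (a : Fin r → G) {W : Submodule ℝ (Fin r → ℝ)}
    {f : G → ℝ} (hf : ∀ x ∈ AW a W, Gr 0 (fun l => f (x l))) {w : Fin r → ℝ} (hw : w ∈ W)
    {ε : ℝ} (hε : 0 < ε) : ∃ B : ℝ, ∀ l : ℕ, ∀ u ∈ Tl w l, f (pr a u) ≤ B * Real.exp (ε * l) := by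
  have hmax : ∀ l : ℕ, ∃ v ∈ Tl w l, ∀ u ∈ Tl w l, f (pr a u) ≤ f (pr a v) := by
    intro l
    obtain ⟨v, hv, hv2⟩ := Set.exists_max_image (Tl w l) (fun u => f (pr a u)) (Tl_fin w l)
      ⟨fl w l, Tl_fl w l⟩
    exact ⟨v, hv, hv2⟩
  choose v hv hv2 using hmax
  have hx : (fun l => pr a fun i => v l i) ∈ AW a W := by
    refine (le_sup_left : _ ≤ AW a W) (Subgroup.subset_closure
      ⟨fun i l => v l i, w, hw, fun i => ⟨1, fun l => (hv l i).le⟩, rfl⟩)
  obtain ⟨B, hB⟩ := hf _ hx ε hε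
  exact ⟨B, fun l u hu => (hv2 l u hu).trans (hB l)⟩

/-- the generators and their inverses generate a group as a monoid -/
theorem closure_gens {G : Type} [Group G] {r : ℕ} (a : Fin r → G)
    (ha : Subgroup.closure (Set.range a) = ⊤) : Submonoid.closure (Set.range
      (fun i : Option (Fin r) × Bool => i.1.elim 1 fun j => if i.2 then a j else (a j)⁻¹)) =
        (⊤ : Submonoid G) := by
  rw [eq_top_iff]
  intro g _
  have hg : g ∈ Subgroup.closure (Set.range a) := by rw [ha]; trivial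
  induction hg using Subgroup.closure_induction_left with
  | one => exact Submonoid.one_mem _
  | mul_left x hx y _ ih =>
    obtain ⟨j, rfl⟩ := hx
    exact Submonoid.mul_mem _ (Submonoid.subset_closure ⟨(some j, true), rfl⟩) (ih trivial)
  | inv_mul_cancel x hx y _ ih =>
    obtain ⟨j, rfl⟩ := hx
    exact Submonoid.mul_mem _ (Submonoid.subset_closure ⟨(some j, false), rfl⟩) (ih trivial)

end Run7.h528.NR
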