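import Pool.Agent.N110.RK.Main
import Pool.Agent.Run7.h528.NR.Defs
import Pool.Agent.Run7.h528.NR.Geo

/-!
**The rank theorem for nilpotent groups** of birational self-maps which preserve `K_X + Δ`.
-/

set_option autoImplicit false
set_option linter.overlappingInstances false
set_option linter.unusedSectionVars false

open FF Module MvPolynomial Pool.Agent.W602.GT Pool.Agent.W603.LV
open Pool.Agent.Y172 Pool.Agent.Y191 Pool.Agent.R887
open Pool.Agent.N110 Pool.Agent.N110.RK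
open scoped ENNReal

namespace Run7.h528.NR

section

variable {K : Type} [Field K] [Algebra ℂ K] {N n : ℕ} {y : Fin (N + 1) → K}

/-- the generators as elements of the group -/
def gens {r : ℕ} (f : Fin r → (K ≃ₐ[ℂ] K)) (i : Fin r) : Subgroup.closure (Set.range f) :=
  ⟨f i, Subgroup.subset_closure ⟨i, rfl⟩⟩

theorem gens_top {r : ℕ} (f : Fin r → (K ≃ₐ[ℂ] K)) :
    Subgroup.closure (Set.range (gens f)) = ⊤ := by
  rw [← Subgroup.closure_closure_coe_preimage (k := Set.range f)]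
  congr 1
  ext ⟨x, hx⟩
  constructor
  · rintro ⟨i, hi⟩
    exact ⟨i, congrArg Subtype.val hi⟩
  · rintro ⟨i, hi⟩
    exact ⟨i, Subtype.ext hi⟩

theorem pr_gens {r : ℕ} (f : Fin r → (K ≃ₐ[ℂ] K)) (v : Fin r → ℤ) :
    ((pr (gens f) v : Subgroup.closure (Set.range f)) : K ≃ₐ[ℂ] K) = nprod f v := by
  unfold pr nprod
  rw [Subgroup.val_list_prod, List.map_ofFn]
  rfl

/-- the degrees near the rays -/
theorem subexp_of {i : Fin (N + 1)} (hy : NormalModel y) (hn : Algebra.trdeg ℂ K = n)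
    (hn0 : 0 < n) (hi : y i ≠ 0) {r : ℕ} (f : Fin r → (K ≃ₐ[ℂ] K))
    {W : Submodule ℝ (Fin r → ℝ)}
    (hW : ∀ x ∈ AW (gens f) W, Gr 0 (fun l => ((I ((mapCls hy hi ((x l : Subgroup.closure
      (Set.range f)) : K ≃ₐ[ℂ] K) (hcls hy hi)) ::ₘ Multiset.replicate (n - 1) (hcls hy hi)) :
        ℕ) : ℝ))) : ∀ w ∈ W, Subexp (nprod f) y n w := by
  intro w hw ε hε
  obtain ⟨B, hB⟩ := near_ray (gens f) (f := fun g => ((I ((mapCls hy hi ((g : Subgroup.closure
      (Set.range f)) : K ≃ₐ[ℂ] K) (hcls hy hi)) ::ₘ Multiset.replicate (n - 1) (hcls hy hi)) :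
        ℕ) : ℝ)) hW hw hε
  refine ⟨B, fun l v hv => ?_⟩
  have h1 := hB l v hv
  rw [pr_gens] at h1
  rw [mixedDegree_eq hy hn hi (nprod f v) (by omega : 1 ≤ n), Multiset.replicate_one,
    Multiset.singleton_add, ← ENNReal.ofReal_natCast]
  exact ENNReal.ofReal_le_ofReal h1

/-- **The rank theorem for nilpotent groups**, without hypothesis on the growth. -/
theorem nil_space (hy : NormalModel y) (hn : Algebra.trdeg ℂ K = n) (hn0 : 0 < n)
    {Δ : Place ℂ K → ℚ} (hΔ : {P | IsPrimeDivisor y P ∧ Δ P ≠ 0}.Finite) {r : ℕ}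
    (f : Fin r → (K ≃ₐ[ℂ] K)) [hnil : Group.IsNilpotent (Subgroup.closure (Set.range f))]
    (hP : ∀ g ∈ Subgroup.closure (Set.range f), PullLe g y n Δ) {ν : ℕ} (hν : ν ≤ n)
    (hnum : ¬ NumDimLt y n Δ ν) :
    ∃ W : Submodule ℝ (Fin r → ℝ), (r + ν + 1 ≤ finrank ℝ W + n ∨ W = ⊤) ∧
      ∀ w ∈ W, Subexp (nprod f) y n w := by
  obtain ⟨i, hi⟩ := hy.ne
  obtain ⟨m, M, c, ε, h⟩ := exists_gsys hy hn hn0 hi hΔ (G := Subgroup.closure (Set.range f))
    (φ := fun g => (g : K ≃ₐ[ℂ] K)) rfl (fun _ _ => rfl) (fun g => hP g g.2) hν hnum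
  obtain ⟨W, hW1, hW2, hW⟩ := rank_dirG h _ (closure_gens (gens f) (gens_top f)) (gens f)
  refine ⟨W, ?_, subexp_of hy hn hn0 hi f hW⟩
  rcases Nat.lt_or_ge ν n with h1 | h1
  · have := hW1 h1
    left
    omega
  · right
    exact hW2 (le_antisymm hν h1)

/-- the rank theorem for the numerical dimension zero -/
theorem nil_space_zero (hy : NormalModel y) (hn : Algebra.trdeg ℂ K = n) (hn0 : 0 < n)
    {r : ℕ} (f : Fin r → (K ≃ₐ[ℂ] K)) [hnil : Group.IsNilpotent (Subgroup.closure (Set.range f))] :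
    ∃ W : Submodule ℝ (Fin r → ℝ), r + 1 ≤ finrank ℝ W + n ∧
      ∀ w ∈ W, Subexp (nprod f) y n w := by
  classical
  obtain ⟨i, hi⟩ := hy.ne
  have cx := ctx hy hn hi
  have h := triv_gsys (n := n) (G := Subgroup.closure (Set.range f))
    (t := fun s : Multiset (Cls ℂ (affS y i)) => (I s : ℝ))
    (φ := fun v => mapCls hy hi (v : K ≃ₐ[ℂ] K)) (mul := mulCls (fin_affS i) (one_affS hi))
    (H := hcls hy hi) (fun s hs => by exact_mod_cast I_pos cx hs) (exch cx) hn0
    (by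
      funext A
      exact mapCls_one)
    (by
      intro u v
      funext A
      change _ = mapCls hy hi (u : K ≃ₐ[ℂ] K) (mapCls hy hi (v : K ≃ₐ[ℂ] K) A)
      rw [mapCls_mapCls]
      rfl)
    (by
      intro u s hs
      exact_mod_cast I_map hy hn hi (u : K ≃ₐ[ℂ] K) hs)
    (by
      intro a b s hs
      have h1 := I_add cx (D := mulCls (fin_affS i) (one_affS hi) a b) (V := a) (V' := b)
        le_rfl hs
      have h2 := I_mul_ge cx (D := mulCls (fin_affS i) (one_affS hi) a b) (V := a) (V' := b)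
        le_rfl hs
      exact_mod_cast le_antisymm h1 h2)
  obtain ⟨W, hW1, -, hW⟩ := rank_dirG h _ (closure_gens (gens f) (gens_top f)) (gens f)
  exact ⟨W, hW1 hn0, subexp_of hy hn hn0 hi f hW⟩

/-- exponential growth in all directions: the growth rank is `r` -/
theorem nil_of_exp {r : ℕ} {φ : (Fin r → ℤ) → (K ≃ₐ[ℂ] K)} (h : ExpGrowth φ y n) :
    GrowthRankGe φ y n r := growthRank_of_exp h

/-- **The rank theorem for nilpotent groups.** -/
theorem nil_main (hy : NormalModel y) (hn : Algebra.trdeg ℂ K = n) (hn0 : 0 < n)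
    {Δ : Place ℂ K → ℚ} (hΔ : {P | IsPrimeDivisor y P ∧ Δ P ≠ 0}.Finite) {r s : ℕ} (hs : 0 < s)
    (f : Fin r → (K ≃ₐ[ℂ] K)) (hnil : Group.IsNilpotent (Subgroup.closure (Set.range f)))
    (hP : ∀ g ∈ Subgroup.closure (Set.range f), PullLe g y n Δ)
    (hrank : GrowthRankGe (nprod f) y n s) : s < n ∧ NumDimLt y n Δ (n - s) := by
  have hsn : s < n := by
    obtain ⟨W, hW1, hW⟩ := nil_space_zero hy hn hn0 f
    have := hrank W hW
    omega
  refine ⟨hsn, ?_⟩
  by_contra hnum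
  obtain ⟨W, hW1, hW⟩ := nil_space hy hn hn0 hΔ f hP (Nat.sub_le n s) hnum
  have h2 := hrank W hW
  rcases hW1 with h1 | rfl
  · omega
  · rw [finrank_top, finrank_fin_fun] at h2
    omega

end

end Run7.h528.NR
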