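import Pool.Agent.N110.NV.Main

/-!
Divisors `K_X + Δ` with a section are pseudo-effective.
-/

set_option autoImplicit false
set_option linter.overlappingInstances false
set_option linter.unusedSectionVars false

open FF Module MvPolynomial Pool.Agent.W602.GT Pool.Agent.W603.LV
open Pool.Agent.Y172 Pool.Agent.Y191 Pool.Agent.R887
open Pool.Agent.N110

namespace Run7.h528.NR

section

variable {K : Type} [Field K] [Algebra ℂ K] {N n : ℕ} {y : Fin (N + 1) → K}

theorem psef_of_section {Δ : Place ℂ K → ℚ} {m : ℕ} (hm : 1 ≤ m)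
    {ω : (Fin n → Derivation ℂ K K) → K} (hω0 : ω ≠ 0) (hω : IsSection y n m (m • Δ) ω) :
    LogPsef y n Δ := by
  intro i hi q hq
  refine ⟨m, hm, fun E => ω E ^ q, fun h => hω0 ?_, ⟨?_, ?_⟩⟩
  · funext E
    have h1 := congrFun h E
    exact pow_eq_zero_iff (by omega : q ≠ 0) |>.1 h1
  · intro A D
    change ω _ ^ q = _ * ω D ^ q
    rw [hω.1 A D, mul_pow, ← pow_mul]
  · intro P l hP hl E hE
    by_cases h0 : ω E = 0
    · left
      change ω E ^ q = 0
      rw [h0, zero_pow (by omega)]
    · right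
      have h1 := (hω.2 P hP E hE).resolve_left h0
      change _ ≤ ((P.ord (ω E ^ q) : ℤ) : ℚ)
      rw [P.ord_pow]
      have h2 : (0 : ℚ) ≤ P.ord (y i / y l) := by
        have := (P.reg_iff (div_ne_zero hi hl.1)).1 (hl.2 i)
        exact_mod_cast this
      have h3 : (0 : ℚ) ≤ (m : ℚ) * P.ord (y i / y l) := mul_nonneg (Nat.cast_nonneg _) h2
      rw [Pi.smul_apply, nsmul_eq_mul] at h1
      have h4 := mul_le_mul_of_nonneg_left h1 (show (0 : ℚ) ≤ q from Nat.cast_nonneg _)
      push_cast
      nlinarith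

end

end Run7.h528.NR
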