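import Pool.Agent.N110.RK.Basic
import Pool.Agent.N110.Grow

/-!
Forms on a group with the exchange property for all combinations: definitions and basic
properties. This generalises `Pool/Agent/N110/RK/Defs.lean` and `Basic.lean` (lattices) to groups
which need not be commutative.
-/

set_option autoImplicit false
set_option linter.unusedSectionVars false

open Multiset Filter Topology

namespace Run7.h528.NR

open Pool.Agent.N110 Pool.Agent.N110.RK

/-- forms of degree `k` on the group `G`, with a character -/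
structure NF {G : Type} [Group G] (C : G → ℝ) (k : ℕ) (J : Multiset G → ℝ) (χ : G → ℝ) :
    Prop where
  nonneg : ∀ s, 0 ≤ J s
  zero : ∀ s, s.card ≠ k → J s = 0
  norm : J (replicate k 1) = 1
  dom : ∀ v w s, J (v ::ₘ s) ≤ C (w⁻¹ * v) * J (w ::ₘ s)
  ge : GE k J
  inv : ∀ (u : G) s, J (s.map (fun v => u * v)) = χ u * J s

/-- the degree of `v` for a form of degree `k` -/
noncomputable def dgr {G : Type} [Group G] (k : ℕ) (J : Multiset G → ℝ) (v : G) : ℝ :=
  J (v ::ₘ replicate (k - 1) 1)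

/-- the closed cone spanned by the forms `J (v, ·)` -/
def coneG {G : Type} (J : Multiset G → ℝ) : Set (Multiset G → ℝ) :=
  closure {X | ∃ θ : G →₀ ℝ, (∀ v, 0 ≤ θ v) ∧ X = mix θ J}

/-- the joint exchange inequality of a form `J` of degree `k + 2` and a form `L` of degree
`k + 1` -/
def Jnt {G : Type} (k : ℕ) (J L : Multiset G → ℝ) : Prop :=
  ∀ s : Multiset G, s.card = k → ∀ x y z : G,
    L (x ::ₘ s) * J (y ::ₘ z ::ₘ s) ≤
      2 * (L (y ::ₘ s) * J (x ::ₘ z ::ₘ s) + L (z ::ₘ s) * J (x ::ₘ y ::ₘ s))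

section

variable {G : Type} [Group G] {C : G → ℝ} {k : ℕ} {J : Multiset G → ℝ} {χ : G → ℝ}

/-- the elements of `s` are replaced by `1` -/
theorem rep_leG (hC : ∀ v, 1 ≤ C v) (hdom : ∀ v w s, J (v ::ₘ s) ≤ C (w⁻¹ * v) * J (w ::ₘ s))
    (s : Multiset G) : ∀ R : Multiset G,
    J (replicate s.card 1 + R) ≤ (s.map fun v => C v⁻¹).prod * J (s + R) := by
  induction s using Multiset.induction_on with
  | empty => intro R; simp
  | cons v s ih =>
    intro R
    have h1 := ih (1 ::ₘ R)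
    have h2 := hdom 1 v (s + R)
    rw [card_cons, replicate_succ, map_cons, prod_cons]
    have e1 : (1 : G) ::ₘ replicate s.card 1 + R = replicate s.card 1 + 1 ::ₘ R := by
      rw [cons_add, add_cons]
    have e2 : s + (1 : G) ::ₘ R = 1 ::ₘ (s + R) := by rw [add_cons]
    rw [e1]
    rw [e2] at h1
    rw [mul_one] at h2
    have hP : 0 ≤ (s.map fun v => C v⁻¹).prod := by
      refine prod_nonneg fun a ha => ?_
      obtain ⟨w, -, rfl⟩ := mem_map.1 ha
      exact zero_le_one.trans (hC _)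
    rw [cons_add]
    calc J (replicate s.card 1 + 1 ::ₘ R) ≤ (s.map fun v => C v⁻¹).prod * J (1 ::ₘ (s + R)) := h1
      _ ≤ (s.map fun v => C v⁻¹).prod * (C v⁻¹ * J (v ::ₘ (s + R))) :=
        mul_le_mul_of_nonneg_left h2 hP
      _ = C v⁻¹ * (s.map fun v => C v⁻¹).prod * J (v ::ₘ (s + R)) := by ring

/-- the elements of `s` are dominated -/
theorem le_repG (hC : ∀ v, 1 ≤ C v) (hdom : ∀ v w s, J (v ::ₘ s) ≤ C (w⁻¹ * v) * J (w ::ₘ s))
    (s : Multiset G) : ∀ R : Multiset G,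
    J (s + R) ≤ (s.map fun v => C v).prod * J (replicate s.card 1 + R) := by
  induction s using Multiset.induction_on with
  | empty => intro R; simp
  | cons v s ih =>
    intro R
    have h1 := ih (v ::ₘ R)
    have h2 := hdom v 1 (replicate s.card 1 + R)
    rw [card_cons, replicate_succ, map_cons, prod_cons]
    have hP : 0 ≤ (s.map fun v => C v).prod := by
      refine prod_nonneg fun a ha => ?_
      obtain ⟨w, -, rfl⟩ := mem_map.1 ha
      exact zero_le_one.trans (hC _)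
    rw [inv_one, one_mul] at h2
    have e1 : v ::ₘ s + R = s + v ::ₘ R := by rw [cons_add, add_cons]
    have e2 : replicate s.card (1 : G) + v ::ₘ R = v ::ₘ (replicate s.card 1 + R) := by
      rw [add_cons]
    rw [e1, cons_add]
    rw [e2] at h1
    calc J (s + v ::ₘ R) ≤ (s.map fun v => C v).prod * J (v ::ₘ (replicate s.card 1 + R)) := h1
      _ ≤ (s.map fun v => C v).prod * (C v * J (1 ::ₘ (replicate s.card 1 + R))) :=
        mul_le_mul_of_nonneg_left h2 hP
      _ = C v * (s.map fun v => C v).prod * J (1 ::ₘ (replicate s.card 1 + R)) := by ring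

theorem posG (hC : ∀ v, 1 ≤ C v) (hnn : ∀ s, 0 ≤ J s)
    (hdom : ∀ v w s, J (v ::ₘ s) ≤ C (w⁻¹ * v) * J (w ::ₘ s)) (hnorm : 0 < J (replicate k 1))
    (s : Multiset G) (hs : s.card = k) : 0 < J s := by
  have h1 := rep_leG hC hdom s 0
  rw [add_zero, add_zero, hs] at h1
  by_contra hcon
  have h2 : J s = 0 := le_antisymm (not_lt.1 hcon) (hnn s)
  rw [h2, mul_zero] at h1
  linarith

namespace NF

theorem pos (hC : ∀ v, 1 ≤ C v) (h : NF C k J χ) (s : Multiset G) (hs : s.card = k) :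
    0 < J s := posG hC h.nonneg h.dom (by rw [h.norm]; exact one_pos) s hs

theorem exch (h : NF C k J χ) : Exch k J := h.ge.exch

theorem chi_eq (h : NF C k J χ) (u : G) : χ u = J (replicate k u) := by
  have h1 := h.inv u (replicate k 1)
  rw [h.norm, mul_one, map_replicate, mul_one] at h1
  exact h1.symm

theorem chi_pos (hC : ∀ v, 1 ≤ C v) (h : NF C k J χ) (u : G) : 0 < χ u := by
  rw [h.chi_eq]
  exact h.pos hC _ (card_replicate _ _)

theorem chi_one (h : NF C k J χ) : χ 1 = 1 := by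
  rw [h.chi_eq, h.norm]

theorem chi_mul (h : NF C k J χ) (u v : G) : χ (u * v) = χ u * χ v := by
  have h1 := h.inv u (replicate k v)
  rw [map_replicate, ← h.chi_eq, ← h.chi_eq] at h1
  exact h1

theorem chi_inv (h : NF C k J χ) (u : G) : χ u⁻¹ = (χ u)⁻¹ := by
  refine eq_inv_of_mul_eq_one_right ?_
  rw [← h.chi_mul, mul_inv_cancel, h.chi_one]

/-- the degrees are submultiplicative -/
theorem sub (hC : ∀ v, 1 ≤ C v) (h : NF C (k + 1) J χ) (u v : G) :
    dgr (k + 1) J (u * v) ≤ 4 ^ k * (dgr (k + 1) J u * dgr (k + 1) J v) := by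
  have hpos := h.pos hC
  have h1 := rkt1 hpos h.exch u (u * v) (replicate k 1) 0
    (by rw [card_replicate, card_zero]; omega)
  rw [card_replicate, add_zero, add_zero, add_zero] at h1
  have e1 : replicate (k + 1) u = (replicate (k + 1) (1 : G)).map (fun v => u * v) := by
    rw [map_replicate, mul_one]
  have e2 : (u * v) ::ₘ replicate k u = (v ::ₘ replicate k 1).map (fun v => u * v) := by
    rw [map_cons, map_replicate, mul_one]
  rw [e1, e2, h.inv, h.inv, h.norm, mul_one] at h1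
  unfold dgr
  rw [Nat.add_sub_cancel]
  have h2 := h.chi_pos hC u
  have h3 : χ u * J ((u * v) ::ₘ replicate k 1) ≤
      χ u * (4 ^ k * (J (u ::ₘ replicate k 1) * J (v ::ₘ replicate k 1))) := by linarith
  exact le_of_mul_le_mul_left h3 h2

end NF

theorem mix_nonnegG (h : ∀ s, 0 ≤ J s) {θ : G →₀ ℝ} (hθ : ∀ v, 0 ≤ θ v) (s : Multiset G) :
    0 ≤ mix θ J s := by
  unfold mix Finsupp.sum
  exact Finset.sum_nonneg fun v _ => mul_nonneg (hθ v) (h _)

theorem mix_zeroG (h : ∀ s, s.card ≠ k + 1 → J s = 0) {θ : G →₀ ℝ} (s : Multiset G)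
    (hs : s.card ≠ k) : mix θ J s = 0 := by
  unfold mix Finsupp.sum
  refine Finset.sum_eq_zero fun v _ => ?_
  beta_reduce
  rw [h _ (by rw [card_cons]; omega), mul_zero]

theorem mix_domG (h : ∀ v w s, J (v ::ₘ s) ≤ C (w⁻¹ * v) * J (w ::ₘ s)) {θ : G →₀ ℝ}
    (hθ : ∀ v, 0 ≤ θ v) (v w : G) (s : Multiset G) :
    mix θ J (v ::ₘ s) ≤ C (w⁻¹ * v) * mix θ J (w ::ₘ s) := by
  unfold mix Finsupp.sum
  rw [Finset.mul_sum]
  refine Finset.sum_le_sum fun u _ => ?_
  have h1 := h v w (u ::ₘ s)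
  rw [cons_swap v u, cons_swap w u] at h1
  calc θ u * J (u ::ₘ v ::ₘ s) ≤ θ u * (C (w⁻¹ * v) * J (u ::ₘ w ::ₘ s)) :=
        mul_le_mul_of_nonneg_left h1 (hθ u)
    _ = C (w⁻¹ * v) * (θ u * J (u ::ₘ w ::ₘ s)) := by ring

/-- the properties of the elements of the cone -/
theorem coneG_prop (h : NF C (k + 1) J χ) {L : Multiset G → ℝ} (hL : L ∈ coneG J) :
    (∀ s, 0 ≤ L s) ∧ (∀ s, s.card ≠ k → L s = 0) ∧
      (∀ v w s, L (v ::ₘ s) ≤ C (w⁻¹ * v) * L (w ::ₘ s)) ∧ GE k L := by
  have hcl : IsClosed {L : Multiset G → ℝ | (∀ s, 0 ≤ L s) ∧ (∀ s, s.card ≠ k → L s = 0) ∧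
      (∀ v w s, L (v ::ₘ s) ≤ C (w⁻¹ * v) * L (w ::ₘ s)) ∧ GE k L} := by
    refine IsClosed.and ?_ (IsClosed.and ?_ (IsClosed.and ?_ (isClosed_GE k)))
    · simp only [Set.ofPred_forall]
      exact isClosed_iInter fun s => isClosed_le continuous_const (continuous_apply s)
    · simp only [Set.ofPred_forall]
      exact isClosed_iInter fun s => isClosed_iInter fun _ =>
        isClosed_eq (continuous_apply s) continuous_const
    · simp only [Set.ofPred_forall]
      exact isClosed_iInter fun v => isClosed_iInter fun w => isClosed_iInter fun s =>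
        isClosed_le (continuous_apply _) (continuous_const.mul (continuous_apply _))
  refine closure_minimal ?_ hcl hL
  rintro X ⟨θ, hθ, rfl⟩
  exact ⟨mix_nonnegG h.nonneg hθ, mix_zeroG h.zero, mix_domG h.dom hθ, h.ge.mix hθ⟩

/-- the joint exchange inequality of a form and an element of its cone -/
theorem jointG (h : NF C (k + 2) J χ) {L : Multiset G → ℝ} (hL : L ∈ coneG J) : Jnt k J L := by
  intro s hs x y z
  have hcl : IsClosed {L : Multiset G → ℝ | L (x ::ₘ s) * J (y ::ₘ z ::ₘ s) ≤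
      2 * (L (y ::ₘ s) * J (x ::ₘ z ::ₘ s) + L (z ::ₘ s) * J (x ::ₘ y ::ₘ s))} :=
    isClosed_le (by fun_prop) (by fun_prop)
  refine closure_minimal ?_ hcl hL
  rintro X ⟨θ, hθ, rfl⟩
  simp only [Set.mem_ofPred_eq]
  unfold mix Finsupp.sum
  rw [Finset.sum_mul, Finset.sum_mul, Finset.sum_mul, ← Finset.sum_add_distrib, Finset.mul_sum]
  refine Finset.sum_le_sum fun u _ => ?_
  have h1 := h.exch s (by omega) u x y z
  have h2 := mul_le_mul_of_nonneg_left h1 (hθ u)
  linarith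

/-- the lower bound for the degrees -/
theorem NF.lower (hC : ∀ v, 1 ≤ C v) (h : NF C (k + 1) J χ) (u : G) :
    χ u ≤ (4 ^ k * dgr (k + 1) J u) ^ (k + 1) := by
  have hLe : Le (k + 1) J (4 ^ k * dgr (k + 1) J u) u 1 := by
    intro s hs
    have h1 := rkt1 (h.pos hC) h.exch 1 u s 0 (by rw [card_zero]; omega)
    have hs' : s.card = k := by omega
    rw [hs', add_zero, add_zero, add_zero, h.norm, mul_one] at h1
    unfold dgr
    rw [Nat.add_sub_cancel]
    linarith
  have h0 : 0 ≤ 4 ^ k * dgr (k + 1) J u := mul_nonneg (by positivity) (h.nonneg _)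
  have h2 := hLe.rep h0 (k + 1) 0 (by rw [card_zero]; omega)
  rw [add_zero, add_zero, h.norm, mul_one, ← h.chi_eq] at h2
  exact h2

/-- **The inequality for the degrees** of a form `J` of degree `k + 2` and a form `L` of degree
`k + 1`. -/
theorem ineqG (hC : ∀ v, 1 ≤ C v) (h : NF C (k + 2) J χ) {L : Multiset G → ℝ}
    (hjnt : Jnt k J L) (hL1 : L (replicate (k + 1) 1) = 1) (u v : G) :
    dgr (k + 2) J (u * v) ≤ χ u * ((2 * 4 ^ k * (dgr (k + 1) L v * dgr (k + 2) J u⁻¹ /
      dgr (k + 2) J v + dgr (k + 1) L u⁻¹)) ^ (k + 1) * dgr (k + 2) J v) := by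
  obtain ⟨D, hD⟩ : ∃ D, D = dgr (k + 2) J v := ⟨_, rfl⟩
  have hDe : D = J (v ::ₘ replicate (k + 1) 1) := by
    rw [hD]
    rfl
  have hDp : 0 < D := by
    rw [hDe]
    exact h.pos hC _ (by rw [card_cons, card_replicate])
  have hUe : dgr (k + 2) J u⁻¹ = J (u⁻¹ ::ₘ replicate (k + 1) 1) := rfl
  have hle : dgr (k + 1) L v = L (v ::ₘ replicate k 1) := rfl
  have hue : dgr (k + 1) L u⁻¹ = L (u⁻¹ ::ₘ replicate k 1) := rfl
  -- invariance
  have e1 : dgr (k + 2) J (u * v) = χ u * J (v ::ₘ replicate (k + 1) u⁻¹) := by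
    rw [← h.inv, map_cons, map_replicate, mul_inv_cancel]
    rfl
  -- the mixed degree
  have h1 := hjnt (replicate k 1) (card_replicate _ _) 1 v u⁻¹
  rw [← replicate_succ, hL1, one_mul] at h1
  have e2 : (1 : G) ::ₘ u⁻¹ ::ₘ replicate k 1 = u⁻¹ ::ₘ replicate (k + 1) 1 := by
    rw [cons_swap, ← replicate_succ]
  have e3 : (1 : G) ::ₘ v ::ₘ replicate k 1 = v ::ₘ replicate (k + 1) 1 := by
    rw [cons_swap, ← replicate_succ]
  rw [e2, e3, ← hle, ← hue, ← hUe, ← hDe] at h1
  -- domination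
  obtain ⟨c, hc⟩ : ∃ c, c = 4 ^ k * J (v ::ₘ u⁻¹ ::ₘ replicate k 1) / D := ⟨_, rfl⟩
  have hc0 : 0 ≤ c := by
    rw [hc]
    exact div_nonneg (mul_nonneg (by positivity) (h.nonneg _)) hDp.le
  have hLe : Le (k + 1) (fun s => J (v ::ₘ s)) c u⁻¹ 1 := by
    intro s hs
    have hs' : s.card = k := by omega
    have hpos' : ∀ s : Multiset G, s.card = k + 1 → 0 < J (v ::ₘ s) := fun s hs =>
      h.pos hC _ (by rw [card_cons, hs])
    have hex' : Exch (k + 1) (fun s => J (v ::ₘ s)) := by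
      intro R hR a b c d
      have h2 := h.exch (v ::ₘ R) (by rw [card_cons]; omega) a b c d
      have e : ∀ x y : G, x ::ₘ y ::ₘ v ::ₘ R = v ::ₘ x ::ₘ y ::ₘ R := by
        intro x y
        rw [cons_swap y v, cons_swap x v]
      rw [e, e, e, e, e, e] at h2
      exact h2
    have h2 := rkt1 hpos' hex' 1 u⁻¹ s 0 (by rw [card_zero]; omega)
    rw [hs', add_zero, add_zero, add_zero, ← hDe] at h2
    beta_reduce
    rw [hc, div_mul_eq_mul_div, le_div_iff₀ hDp]
    linarith
  have h3 := hLe.rep hc0 (k + 1) 0 (by rw [card_zero]; omega)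
  rw [add_zero, add_zero, ← hDe] at h3
  rw [e1]
  refine mul_le_mul_of_nonneg_left ?_ (h.chi_pos hC u).le
  refine h3.trans ?_
  rw [← hD]
  refine mul_le_mul_of_nonneg_right (pow_le_pow_left₀ hc0 ?_ _) hDp.le
  rw [hc, div_le_iff₀ hDp]
  have e4 : 2 * 4 ^ k * (dgr (k + 1) L v * dgr (k + 2) J u⁻¹ / D + dgr (k + 1) L u⁻¹) * D =
      4 ^ k * (2 * (dgr (k + 1) L v * dgr (k + 2) J u⁻¹ + dgr (k + 1) L u⁻¹ * D)) := by
    field_simp
  rw [e4]
  exact mul_le_mul_of_nonneg_left h1 (by positivity)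

end

end Run7.h528.NR
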