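import Pool.Agent.Run7.h528.NR.Rank

/-!
The characters of a nilpotent group which control the growth of the degrees.
-/

set_option autoImplicit false
set_option linter.unusedSectionVars false

open Multiset Filter Topology Module

namespace Run7.h528.NR

open Pool.Agent.N110 Pool.Agent.N110.RK
open scoped commutatorElement

section

variable {G : Type} [Group G] {C : G → ℝ} {k : ℕ} {J : Multiset G → ℝ} {χ : G → ℝ}

/-- elements of small growth are in the kernel of the character -/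
theorem NF.chi_zero (hC : ∀ v, 1 ≤ C v) (h : NF C (k + 1) J χ) {g : G}
    (hg : Sml C 0 (fun l => g ^ l)) : Real.log (χ g) = 0 := by
  have key : ∀ g : G, Gr 0 (fun l => C (g ^ l)) → Real.log (χ g) ≤ 0 := by
    intro g hg
    have h1 : Gr 0 (fun l => χ (g ^ l)) := by
      have h2 := (hg.const_mul (c := 4 ^ k) (by positivity)).pow
        (fun n => mul_nonneg (by positivity) (zero_le_one.trans (hC _))) (k + 1)
      rw [mul_zero] at h2
      refine h2.of_le fun l => (h.lower hC _).trans ?_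
      refine pow_le_pow_left₀ (mul_nonneg (by positivity) (h.dgr_pos hC _).le) ?_ _
      exact mul_le_mul_of_nonneg_left (h.dgr_le _) (by positivity)
    by_contra hcon
    push Not at hcon
    obtain ⟨B, hB1, hB⟩ := h1.bound (show 0 < Real.log (χ g) / 2 by positivity)
    obtain ⟨l, hl⟩ := exists_nat_gt (Real.log B / (Real.log (χ g) / 2))
    rw [div_lt_iff₀ (by positivity)] at hl
    have h2 := hB l
    have h3 : Real.log (χ (g ^ l)) = Real.log (χ g) * l := by
      have := h.lg_zpow hC g l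
      rwa [zpow_natCast, Int.cast_natCast] at this
    have h4 := Real.log_le_log (h.chi_pos hC _) h2
    rw [h3, Real.log_mul (by linarith) (Real.exp_pos _).ne', Real.log_exp] at h4
    linarith
  refine le_antisymm (key g hg.1) ?_
  have h1 := key g⁻¹ (hg.2.of_le fun l => by rw [inv_pow])
  rw [h.lg_inv] at h1
  linarith

/-- **The characters** which control the growth of the degrees. -/
theorem chars [Group.IsNilpotent G] {ι : Type} [Fintype ι] [Nonempty ι] (s : ι → G)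
    (hs : Submonoid.closure (Set.range s) = ⊤) (hC : ∀ v, 1 ≤ C v)
    (hCm : ∀ u v, C (u * v) ≤ C u * C v) (k : ℕ) :
    ∀ (J : Multiset G → ℝ) (χ : G → ℝ), NF C (k + 1) J χ →
    ∃ Ψ : G → Fin k → ℝ, (∀ u v, Ψ (u * v) = Ψ u + Ψ v) ∧
      (∀ g, Sml C 0 (fun l => g ^ l) → Real.log (χ g) = 0 ∧ Ψ g = 0) ∧
      ∀ (r : ℕ) (a : Fin r → G) (W : Submodule ℝ (Fin r → ℝ)),
        (∀ w ∈ W, ∑ i, Real.log (χ (a i)) * w i = 0) →
        (∀ w ∈ W, ∀ j, ∑ i, Ψ (a i) j * w i = 0) →
        ∀ x ∈ AW a W, Gr 0 (fun n => dgr (k + 1) J (x n)) := by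
  induction k with
  | zero =>
    intro J χ hJ
    refine ⟨fun _ _ => 0, fun _ _ => by funext j; exact j.elim0,
      fun g hg => ⟨hJ.chi_zero hC hg, ?_⟩, ?_⟩
    · funext j
      exact j.elim0
    · intro r a W hW _ x hx
      exact (hJ.gr_chi hC a hW x hx).of_le fun n => (dgr_one hJ _).le
  | succ k ih =>
    intro J χ hJ
    obtain ⟨L, hL, χ', hL'⟩ := leafAG s hs hC hJ
    obtain ⟨Ψ, h1, h2, h3⟩ := ih L χ' hL'
    refine ⟨fun g => Fin.cons (Real.log (χ' g)) (Ψ g), fun u v => ?_, fun g hg => ?_, ?_⟩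
    · funext j
      refine Fin.cases ?_ (fun j => ?_) j
      · simp only [Fin.cons_zero, Pi.add_apply]
        exact hL'.lg_mul hC u v
      · simp only [Fin.cons_succ, Pi.add_apply]
        rw [h1, Pi.add_apply]
    · obtain ⟨h4, h5⟩ := h2 g hg
      refine ⟨hJ.chi_zero hC hg, ?_⟩
      funext j
      refine Fin.cases ?_ (fun j => ?_) j
      · exact h4
      · exact congrFun h5 j
    · intro r a W hW hW2 x hx
      refine principle hC hJ (jointG hJ hL) hL'.norm hL'.nonneg (AW a W)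
        (fun ε hε => genW_small a hC hCm W hε) (hJ.gr_chi hC a hW)
        (fun x hx => h3 r a W (fun w hw => ?_) (fun w hw j => ?_) x hx) x hx
      · have := hW2 w hw 0
        simpa only [Fin.cons_zero] using this
      · have := hW2 w hw j.succ
        simpa only [Fin.cons_succ] using this

end

section

variable {α 𝒜 G : Type} [Preorder 𝒜] [Group G] {n : ℕ} {t : Multiset α → ℝ} {φ : G → α → α}
  {mul : α → α → α} {H : α} {m : ℕ → ℝ} {M : 𝒜 → ℕ → α} {ν : ℕ} {c ε : ℝ}

/-- the inverse of an element of small growth -/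
theorem GSys.inv_small (h : GSys n t φ mul H m M ν c ε) {x : ℕ → G}
    (hx : Gr 0 (fun l => t (φ (x l) H ::ₘ replicate (n - 1) H))) :
    Sml (CCG n t φ H) 0 x := by
  have hn := h.hn
  have hT := h.tH
  have key : ∀ x : ℕ → G, Gr 0 (fun l => t (φ (x l) H ::ₘ replicate (n - 1) H)) →
      Gr 0 (fun l => CCG n t φ H (x l)) := by
    intro x hx
    have h1 := (Gr.const 1).add (hx.const_mul (c := 4 ^ (n - 1) / t (replicate n H))
      (by positivity))
    refine h1.of_le fun l => ?_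
    unfold CCG
    have h2 : 0 ≤ 4 ^ (n - 1) / t (replicate n H) *
        t (φ (x l) H ::ₘ replicate (n - 1) H) := by
      have := (h.pos (φ (x l) H ::ₘ replicate (n - 1) H)
        (by rw [card_cons, card_replicate]; omega)).le
      positivity
    have h3 : 4 ^ (n - 1) * t (φ (x l) H ::ₘ replicate (n - 1) H) / t (replicate n H) =
        4 ^ (n - 1) / t (replicate n H) * t (φ (x l) H ::ₘ replicate (n - 1) H) := by ring
    rw [h3]
    refine max_le ?_ ?_ <;> linarith
  refine ⟨key x hx, key (fun l => (x l)⁻¹) ?_⟩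
  -- the degrees of the inverses
  have h1 := ((key x hx).pow (fun l => zero_le_one.trans (GSys.CC_one _)) (n - 1)).const_mul
    (c := t (replicate n H)) hT.le
  rw [mul_zero] at h1
  refine h1.of_le fun l => ?_
  have h2 := h.inv (x l) (φ (x l)⁻¹ H ::ₘ replicate (n - 1) H)
    (by rw [card_cons, card_replicate]; omega)
  rw [map_cons, h.φ_inv, map_replicate] at h2
  rw [← h2]
  have hLe : Le n t (CCG n t φ H (x l)) (φ (x l) H) H := fun s hs => h.base (x l) s hs
  have h3 := hLe.rep (zero_le_one.trans (GSys.CC_one _)) (n - 1) {H}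
    (by rw [card_singleton]; omega)
  have e1 : H ::ₘ replicate (n - 1) (φ (x l) H) = replicate (n - 1) (φ (x l) H) + {H} := by
    rw [add_comm, singleton_add]
  have e2 : replicate (n - 1) H + {H} = replicate n H := by
    rw [add_comm, singleton_add, ← replicate_succ, show n - 1 + 1 = n by omega]
  rw [e1]
  rw [e2] at h3
  linarith

/-- **The characters** for intersection numbers. -/
theorem charsT [IsDirected 𝒜 (· ≤ ·)] [Nonempty 𝒜] [Group.IsNilpotent G]
    (h : GSys n t φ mul H m M ν c ε) (hνn : ν < n) {ι : Type} [Fintype ι] [Nonempty ι]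
    (s : ι → G) (hs : Submonoid.closure (Set.range s) = ⊤) :
    ∃ Ψ : G → Fin (n - ν - 1) → ℝ, (∀ u v, Ψ (u * v) = Ψ u + Ψ v) ∧
      (∀ g, Gr 0 (fun l => t (φ (g ^ l) H ::ₘ replicate (n - 1) H)) → Ψ g = 0) ∧
      ∀ (r : ℕ) (a : Fin r → G) (W : Submodule ℝ (Fin r → ℝ)),
        (∀ w ∈ W, ∀ j, ∑ i, Ψ (a i) j * w i = 0) →
        ∀ x ∈ AW a W, Gr 0 (fun l => t (φ (x l) H ::ₘ replicate (n - 1) H)) := by
  have hn := h.hn
  have hν := h.hν
  obtain ⟨𝒰, h𝒰⟩ : ∃ 𝒰 : Ultrafilter ℕ, (𝒰 : Filter ℕ) ≤ atTop :=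
    ⟨Ultrafilter.of atTop, Ultrafilter.of_le atTop⟩
  obtain ⟨C, hCdef⟩ : ∃ C : G → ℝ, C = CCG n t φ H := ⟨_, rfl⟩
  have hC : ∀ v, 1 ≤ C v := fun v => by rw [hCdef]; exact GSys.CC_one v
  have hCm : ∀ u v, C (u * v) ≤ C u * C v := fun u v => by rw [hCdef]; exact h.CC_mul u v
  obtain ⟨κ, hκ⟩ : ∃ κ : ℕ → ℝ, ∀ j, κ j = JG n t φ H m M 𝒰 j (replicate (n - j) 1) :=
    ⟨_, fun _ => rfl⟩
  obtain ⟨J, hJ⟩ : ∃ J : ℕ → Multiset G → ℝ, ∀ j, J j = fun s => (κ j)⁻¹ * JG n t φ H m M 𝒰 j s :=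
    ⟨_, fun _ => rfl⟩
  have hκ0 : ∀ j ≤ ν, 0 < κ j := fun j hj => by rw [hκ]; exact h.J_norm h𝒰 hj
  have hNF : ∀ j ≤ ν, NF C (n - j) (J j) (fun _ => 1) := by
    intro j hj
    have := h.J_NF h𝒰 hj
    rw [← hκ, ← hJ, ← hCdef] at this
    exact this
  have hjnt : ∀ j k, j + 1 ≤ ν → n - j = k + 2 → Jnt k (J j) (J (j + 1)) := by
    intro j k hj hk
    rw [hJ, hJ]
    exact (h.J_jnt h𝒰 hk).smul (inv_pos.2 (hκ0 j (by omega))).le
      (inv_pos.2 (hκ0 (j + 1) hj)).le
  -- descent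
  have hdesc : ∀ (r : ℕ) (a : Fin r → G) (W : Submodule ℝ (Fin r → ℝ)), ∀ j, j + 1 ≤ ν →
      (∀ x ∈ AW a W, Gr 0 (fun l => dgr (n - (j + 1)) (J (j + 1)) (x l))) →
      ∀ x ∈ AW a W, Gr 0 (fun l => dgr (n - j) (J j) (x l)) := by
    intro r a W j hj hg
    obtain ⟨k, hk⟩ : ∃ k, n - j = k + 2 := ⟨n - j - 2, by omega⟩
    have hk1 : n - (j + 1) = k + 1 := by omega
    rw [hk1] at hg
    have h1 := hNF j (by omega)
    have h2 := hNF (j + 1) hj
    rw [hk] at h1 ⊢
    rw [hk1] at h2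
    exact principle hC h1 (hjnt j k hj hk) h2.norm h2.nonneg (AW a W)
      (fun ε hε => genW_small a hC hCm W hε) (fun x _ => Gr.const 1) hg
  have hdesc2 : ∀ (r : ℕ) (a : Fin r → G) (W : Submodule ℝ (Fin r → ℝ)), ∀ i j, j = i → j ≤ ν →
      (∀ x ∈ AW a W, Gr 0 (fun l => dgr (n - j) (J j) (x l))) →
      ∀ x ∈ AW a W, Gr 0 (fun l => dgr n (J 0) (x l)) := by
    intro r a W i
    induction i with
    | zero =>
      rintro j rfl _ h1
      rwa [Nat.sub_zero] at h1
    | succ i ih =>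
      rintro j rfl hj h1
      exact ih i rfl (by omega) (hdesc r a W i hj h1)
  -- the top
  have htop : ∀ g, t (φ g H ::ₘ replicate (n - 1) H) = κ 0 * dgr n (J 0) g := by
    intro g
    have h1 := h.J_top h𝒰 (g ::ₘ replicate (n - 1) 1) (by rw [card_cons, card_replicate]; omega)
    rw [map_cons, map_replicate, h.φ_one, id] at h1
    have h2 := (hκ0 0 (Nat.zero_le _)).ne'
    unfold dgr
    rw [hJ]
    beta_reduce
    rw [← mul_assoc, mul_inv_cancel₀ h2, one_mul, h1]
  obtain ⟨k, hk⟩ : ∃ k, n - ν = k + 1 := ⟨n - ν - 1, by omega⟩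
  have h1 := hNF ν le_rfl
  rw [hk] at h1
  obtain ⟨Ψ, p1, p2, p3⟩ := chars s hs hC hCm k _ _ h1
  rw [show n - ν - 1 = k by omega]
  refine ⟨Ψ, p1, fun g hg => ?_, fun r a W hW x hx => ?_⟩
  · refine (p2 g ?_).2
    rw [hCdef]
    exact h.inv_small hg
  · have h2 := p3 r a W (fun w _ => by simp) hW
    rw [← hk] at h2
    have h3 := hdesc2 r a W ν ν rfl le_rfl h2 x hx
    refine (h3.const_mul (hκ0 0 (Nat.zero_le _)).le).of_le fun l => ?_
    rw [htop]

end

/-- the sequences near a ray -/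
theorem mem_AW {G : Type} [Group G] {r : ℕ} (a : Fin r → G) {W : Submodule ℝ (Fin r → ℝ)}
    {v : Fin r → ℕ → ℤ} {w : Fin r → ℝ} (hw : w ∈ W) (hv : ∀ i, NL (v i) (w i)) :
    (fun n => pr a fun i => v i n) ∈ AW a W :=
  (le_sup_left : _ ≤ AW a W) (Subgroup.subset_closure ⟨v, w, hw, hv, rfl⟩)

end Run7.h528.NR
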