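import Pool.Agent.Run7.h528.NR.Struct2
import Pool.Agent.N110.PA.Main

/-!
The structure theorem for nilpotent groups of birational self-maps, isomorphisms in codimension one,
which preserve `K_X + Δ`.
-/

set_option autoImplicit false
set_option linter.overlappingInstances false
set_option linter.unusedSectionVars false

open FF Module MvPolynomial Pool.Agent.W602.GT Pool.Agent.W603.LV
open Pool.Agent.Y172 Pool.Agent.Y191 Pool.Agent.R887
open Pool.Agent.N110 Pool.Agent.N110.RK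
open scoped ENNReal

namespace Run7.h528.NR

section

variable {K : Type} [Field K] [Algebra ℂ K] {N n : ℕ} {y : Fin (N + 1) → K}

/-- **The structure theorem.** -/
theorem struct_main (hy : NormalModel y) (hn : Algebra.trdeg ℂ K = n) (hn0 : 0 < n)
    (hN : NeronSeveri y) (G : Subgroup (K ≃ₐ[ℂ] K)) (hnil : Group.IsNilpotent G)
    (hps : ∀ g ∈ G, PseudoAut g y) :
    ∃ (ρ : ℕ) (Φ : G →* Multiplicative (Fin ρ → ℤ)), Function.Surjective Φ ∧
      (∀ g : G, Φ g = 1 ↔ dynDegree (g : K ≃ₐ[ℂ] K) y n 1 ≤ 1) ∧ ρ < n ∧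
      ∀ Δ : Place ℂ K → ℚ, {P | IsPrimeDivisor y P ∧ Δ P ≠ 0}.Finite →
        (∀ g ∈ G, PullLe g y n Δ) → 0 < ρ → NumDimLt y n Δ (n - ρ) := by
  obtain ⟨i, hi⟩ := hy.ne
  obtain ⟨ε, hε, hgap⟩ := gapG hy hn hn0 hN hi G hps
  obtain ⟨ρ, hρ, Φ, hΦ, hker⟩ := struct_k (chars_zero hy hn hn0 hi G) hε hgap
  refine ⟨ρ, Φ, hΦ, fun g => ?_, by omega, fun Δ hΔ hP hρ0 => ?_⟩
  · rw [hker, dyn_iff hy hn hn0 hi]
    exact Iff.rfl
  · by_contra hnum
    obtain ⟨ρ', hρ', Φ', hΦ', hker'⟩ := struct_k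
      (chars_nu hy hn hn0 hi G hΔ hP (show n - ρ < n by omega) hnum) hε hgap
    have h1 := rank_unique Φ Φ' hΦ hΦ' fun g => by rw [hker, hker']
    omega

end

end Run7.h528.NR
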