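import Pool.Agent.Run7.h528.NR.GeoD
import Pool.Agent.Run7.h528.NR.Final
import Pool.Agent.N110.DV.Main

/-!
Nilpotent groups of birational self-maps which preserve the class of a divisor: the rank theorem and
the structure theorem.
-/

set_option autoImplicit false
set_option linter.overlappingInstances false
set_option linter.unusedSectionVars false

open FF Module MvPolynomial Pool.Agent.W602.GT Pool.Agent.W603.LV
open Pool.Agent.Y172 Pool.Agent.Y191 Pool.Agent.R887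
open Pool.Agent.N110 Pool.Agent.N110.RK Pool.Agent.N110.DV
open scoped ENNReal

namespace Run7.h528.NR

section

variable {K : Type} [Field K] [Algebra ℂ K] {N n : ℕ} {y : Fin (N + 1) → K} {L : Place ℂ K → ℚ}

/-- the system attached to a divisor -/
theorem exists_gsysD (hy : NormalModel y) (hn : Algebra.trdeg ℂ K = n) (hn0 : 0 < n)
    {i : Fin (N + 1)} (hi : y i ≠ 0) (hL : {P | IsPrimeDivisor y P ∧ L P ≠ 0}.Finite)
    {G : Type} [Group G] {φ : G → (K ≃ₐ[ℂ] K)} (hφ0 : φ 1 = 1)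
    (hφ : ∀ u v, φ (u * v) = φ u * φ v) (hiso : ∀ v, PseudoAut (φ v) y)
    (hcl : ∀ v, ClassLe (φ v) y L) {ν : ℕ} (hν : ν ≤ n) (hnum : ¬ NuLt y n L ν) :
    ∃ (m : ℕ → ℝ) (M : EffT y → ℕ → Cls ℂ (affS y i)) (c ε : ℝ),
      GSys n (fun s : Multiset (Cls ℂ (affS y i)) => (I s : ℝ)) (fun v => mapCls hy hi (φ v))
        (mulCls (fin_affS i) (one_affS hi)) (hcls hy hi) m M ν c ε := by
  obtain ⟨x, E, hx, hE⟩ := exists_crd hn (k := ℂ) (K := K)
  have hfr : IsFrame E := fun F => ⟨fun j => F (x j),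
    (Pool.Agent.W73.PG.PULL.expand x hx E hE F).symm⟩
  obtain ⟨c, hcfin, hc⟩ := exists_ordc hy hn hx hE
  have hc' : IsDisc y E c := hc
  exact exists_gsysW hy hn hn0 hi hfr hcfin hc' (sh_fin hcfin hL) hφ0 hφ
    (fun v => wpulls_of (hiso v) (hcl v)) hν (fun h => hnum ((nuLt_iff hE hfr hc').1 h))

/-- **The rank theorem for nilpotent groups and divisors** -/
theorem nil_mainD (hy : NormalModel y) (hn : Algebra.trdeg ℂ K = n) (hn0 : 0 < n)
    (hL : {P | IsPrimeDivisor y P ∧ L P ≠ 0}.Finite) {r s : ℕ} (hs : 0 < s)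
    (f : Fin r → (K ≃ₐ[ℂ] K)) (hnil : Group.IsNilpotent (Subgroup.closure (Set.range f)))
    (hiso : ∀ g ∈ Subgroup.closure (Set.range f), PseudoAut g y)
    (hcl : ∀ g ∈ Subgroup.closure (Set.range f), ClassLe g y L)
    (hrank : GrowthRankGe (nprod f) y n s) : s < n ∧ NuLt y n L (n - s) := by
  have hsn : s < n := by
    obtain ⟨W, hW1, hW⟩ := nil_space_zero hy hn hn0 f
    have := hrank W hW
    omega
  refine ⟨hsn, ?_⟩
  by_contra hnum
  obtain ⟨i, hi⟩ := hy.ne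
  obtain ⟨m, M, c, ε, h⟩ := exists_gsysD hy hn hn0 hi hL (G := Subgroup.closure (Set.range f))
    (φ := fun g => (g : K ≃ₐ[ℂ] K)) rfl (fun _ _ => rfl) (fun g => hiso g g.2)
    (fun g => hcl g g.2) (Nat.sub_le n s) hnum
  obtain ⟨W, hW1, hW2, hW⟩ := rank_dirG h _ (closure_gens (gens f) (gens_top f)) (gens f)
  have h2 := hrank W (subexp_of hy hn hn0 hi f hW)
  have := hW1 (by omega)
  omega

theorem chars_nuD (hy : NormalModel y) (hn : Algebra.trdeg ℂ K = n) (hn0 : 0 < n)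
    {i : Fin (N + 1)} (hi : y i ≠ 0) (G : Subgroup (K ≃ₐ[ℂ] K)) [hG : Group.IsNilpotent G]
    (hL : {P | IsPrimeDivisor y P ∧ L P ≠ 0}.Finite)
    (hiso : ∀ g ∈ G, PseudoAut g y) (hcl : ∀ g ∈ G, ClassLe g y L) {ν : ℕ} (hν : ν < n)
    (hnum : ¬ NuLt y n L ν) :
    HasChars hy hi n G (n - ν - 1) := by
  intro q f hf
  have hle : Subgroup.closure (Set.range f) ≤ G := by
    rw [Subgroup.closure_le]
    rintro _ ⟨i, rfl⟩
    exact hf i
  have hnil : Group.IsNilpotent (Subgroup.closure (Set.range f)) := nil_of_le hle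
  obtain ⟨m, M, c, ε, h⟩ := exists_gsysD hy hn hn0 hi hL (G := Subgroup.closure (Set.range f))
    (φ := fun g => (g : K ≃ₐ[ℂ] K)) rfl (fun _ _ => rfl) (fun g => hiso g (hle g.2))
    (fun g => hcl g (hle g.2)) hν.le hnum
  exact exists_chars h hν _ (closure_gens (gens f) (gens_top f))

/-- **The structure theorem** for divisors. -/
theorem struct_mainD (hy : NormalModel y) (hn : Algebra.trdeg ℂ K = n) (hn0 : 0 < n)
    (hN : NeronSeveri y) (G : Subgroup (K ≃ₐ[ℂ] K)) (hnil : Group.IsNilpotent G)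
    (hps : ∀ g ∈ G, PseudoAut g y) :
    ∃ (ρ : ℕ) (Φ : G →* Multiplicative (Fin ρ → ℤ)), Function.Surjective Φ ∧
      (∀ g : G, Φ g = 1 ↔ dynDegree (g : K ≃ₐ[ℂ] K) y n 1 ≤ 1) ∧ ρ < n ∧
      ∀ L : Place ℂ K → ℚ, {P | IsPrimeDivisor y P ∧ L P ≠ 0}.Finite →
        (∀ g ∈ G, ClassLe g y L) → 0 < ρ → NuLt y n L (n - ρ) := by
  obtain ⟨i, hi⟩ := hy.ne
  obtain ⟨ε, hε, hgap⟩ := gapG hy hn hn0 hN hi G hps
  obtain ⟨ρ, hρ, Φ, hΦ, hker⟩ := struct_k (chars_zero hy hn hn0 hi G) hε hgap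
  refine ⟨ρ, Φ, hΦ, fun g => ?_, by omega, fun L hL hcl hρ0 => ?_⟩
  · rw [hker, dyn_iff hy hn hn0 hi]
    exact Iff.rfl
  · by_contra hnum
    obtain ⟨ρ', hρ', Φ', hΦ', hker'⟩ := struct_k
      (chars_nuD hy hn hn0 hi G hL hps hcl (show n - ρ < n by omega) hnum) hε hgap
    have h1 := rank_unique Φ Φ' hΦ hΦ' fun g => by rw [hker, hker']
    omega

end

end Run7.h528.NR
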