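import Pool.Agent.Run7.h528.NR.PMat
import Pool.Agent.Run7.h528.NR.Main
import Pool.Agent.N572.PA.Gap

/-!
Groups of isomorphisms in codimension one: elements of very small growth have no growth. The first
dynamical degree.
-/

set_option autoImplicit false
set_option linter.overlappingInstances false
set_option linter.unusedSectionVars false

open FF Module MvPolynomial Pool.Agent.W602.GT Pool.Agent.W603.LV
open Pool.Agent.Y172 Pool.Agent.Y191 Pool.Agent.R887
open Pool.Agent.N110 Pool.Agent.N110.RK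
open scoped ENNReal

namespace Run7.h528.NR

section

variable {K : Type} [Field K] [Algebra ℂ K] {N n : ℕ} {y : Fin (N + 1) → K}

/-- the first degree of a birational self-map -/
noncomputable def dg (hy : NormalModel y) {i : Fin (N + 1)} (hi : y i ≠ 0) (n : ℕ)
    (g : K ≃ₐ[ℂ] K) : ℝ :=
  ((I ((mapCls hy hi g (hcls hy hi)) ::ₘ Multiset.replicate (n - 1) (hcls hy hi)) : ℕ) : ℝ)

theorem md_dg (hy : NormalModel y) (hn : Algebra.trdeg ℂ K = n) (hn0 : 0 < n)
    {i : Fin (N + 1)} (hi : y i ≠ 0) (g : K ≃ₐ[ℂ] K) :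
    mixedDegree g y n 1 = ENNReal.ofReal (dg hy hi n g) := by
  rw [mixedDegree_eq hy hn hi g (by omega : 1 ≤ n), Multiset.replicate_one,
    Multiset.singleton_add, ← ENNReal.ofReal_natCast]
  rfl

theorem dg_nat (hy : NormalModel y) (hn : Algebra.trdeg ℂ K = n) (hn0 : 0 < n)
    {i : Fin (N + 1)} (hi : y i ≠ 0) (g : K ≃ₐ[ℂ] K) :
    ∃ D : ℕ, dg hy hi n g = D ∧ mixedDegree g y n 1 = D := by
  refine ⟨_, rfl, ?_⟩
  rw [md_dg hy hn hn0 hi g, ← ENNReal.ofReal_natCast]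
  rfl

theorem dg_nonneg (hy : NormalModel y) {i : Fin (N + 1)} (hi : y i ≠ 0) (g : K ≃ₐ[ℂ] K) :
    0 ≤ dg hy hi n g := Nat.cast_nonneg _

theorem mat_powG {G : Type} [Group G] {ρ : ℕ} {M : G → Matrix (Fin ρ) (Fin ρ) ℤ} (h0 : M 1 = 1)
    (hM : ∀ u v, M (u * v) = M u * M v) (g : G) (l : ℕ) : M g ^ l = M (g ^ l) := by
  induction l with
  | zero => rw [pow_zero, pow_zero, h0]
  | succ l ih => rw [pow_succ, ih, ← hM, pow_succ]

/-- elements of very small growth have no growth -/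
theorem gapG (hy : NormalModel y) (hn : Algebra.trdeg ℂ K = n) (hn0 : 0 < n)
    (hN : NeronSeveri y) {i : Fin (N + 1)} (hi : y i ≠ 0) (G : Subgroup (K ≃ₐ[ℂ] K))
    (hps : ∀ g ∈ G, PseudoAut g y) :
    ∃ ε : ℝ, 0 < ε ∧ ∀ g ∈ G, Gr ε (fun l => dg hy hi n (g ^ l)) →
      Gr 0 (fun l => dg hy hi n (g ^ l)) := by
  obtain ⟨ρ, M, C, hC, hM1, hM, hup, hlow⟩ := matG hy hn hn0 hN (G := G)
    (φ := fun g => (g : K ≃ₐ[ℂ] K)) (fun _ _ => rfl) (fun g => hps g g.2)
  obtain ⟨ε, hε, hgap⟩ := Pool.Agent.N572.PA.gap ρ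
  refine ⟨ε / 2, by positivity, fun g hg hgr => ?_⟩
  obtain ⟨x, hx⟩ : ∃ x : G, (x : K ≃ₐ[ℂ] K) = g := ⟨⟨g, hg⟩, rfl⟩
  have e : ∀ m : ℕ, ((x ^ m : G) : K ≃ₐ[ℂ] K) = g ^ m := fun m => by rw [Subgroup.coe_pow, hx]
  obtain ⟨B, hB⟩ := hgr ε (by linarith)
  have h1 : ∃ B : ℝ, ∀ (m : ℕ) (i j : Fin ρ),
      |((M x ^ m) i j : ℝ)| ≤ B * Real.exp (ε * m) := by
    refine ⟨C * B, fun m i' j' => ?_⟩
    obtain ⟨D, hD1, hD2⟩ := dg_nat hy hn hn0 hi (g ^ m)
    have h2 := hlow (x ^ m) D (by rw [e, hD2])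
    rw [mat_powG hM1 hM]
    have h3 : |((M (x ^ m)) i' j' : ℝ)| ≤ ∑ i, ∑ j, |((M (x ^ m)) i j : ℝ)| :=
      (Finset.single_le_sum (f := fun j => |((M (x ^ m)) i' j : ℝ)|)
        (fun _ _ => abs_nonneg _) (Finset.mem_univ j')).trans
        (Finset.single_le_sum (f := fun i => ∑ j, |((M (x ^ m)) i j : ℝ)|)
          (fun _ _ => Finset.sum_nonneg fun _ _ => abs_nonneg _) (Finset.mem_univ i'))
    refine (h3.trans h2).trans ?_
    rw [← hD1, mul_assoc]
    exact mul_le_mul_of_nonneg_left (hB m) hC.le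
  intro δ hδ
  obtain ⟨B', hB'⟩ := hgap _ h1 δ hδ
  refine ⟨C * (∑ _i : Fin ρ, ∑ _j : Fin ρ, B') + C, fun l => ?_⟩
  have h4 : dg hy hi n (g ^ l) ≤ C * (∑ i, ∑ j, |((M (x ^ l)) i j : ℝ)| + 1) := by
    have h5 := hup (x ^ l)
    rw [e, md_dg hy hn hn0 hi] at h5
    exact (ENNReal.ofReal_le_ofReal_iff (mul_nonneg hC.le (add_nonneg (Finset.sum_nonneg fun _ _ =>
      Finset.sum_nonneg fun _ _ => abs_nonneg _) zero_le_one))).1 h5
  have h7 : ∑ i, ∑ j, |((M (x ^ l)) i j : ℝ)| ≤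
      ∑ _i : Fin ρ, ∑ _j : Fin ρ, B' * Real.exp (δ * l) := by
    refine Finset.sum_le_sum fun i _ => Finset.sum_le_sum fun j _ => ?_
    rw [← mat_powG hM1 hM]
    exact hB' l i j
  have h8 : ∑ _i : Fin ρ, ∑ _j : Fin ρ, B' * Real.exp (δ * l) =
      (∑ _i : Fin ρ, ∑ _j : Fin ρ, B') * Real.exp (δ * l) := by
    rw [Finset.sum_mul]
    exact Finset.sum_congr rfl fun i _ => by rw [Finset.sum_mul]
  rw [h8] at h7
  have h10 : (1 : ℝ) ≤ Real.exp (δ * l) := Real.one_le_exp (by positivity)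
  have h11 := mul_le_mul_of_nonneg_left h7 hC.le
  nlinarith

/-- the first dynamical degree is at most `1` if and only if the degrees have zero growth -/
theorem dyn_iff (hy : NormalModel y) (hn : Algebra.trdeg ℂ K = n) (hn0 : 0 < n)
    {i : Fin (N + 1)} (hi : y i ≠ 0) (g : K ≃ₐ[ℂ] K) :
    dynDegree g y n 1 ≤ 1 ↔ Gr 0 (fun l => dg hy hi n (g ^ l)) := by
  constructor
  · intro h ε hε
    have h1 : ∀ᶠ l : ℕ in Filter.atTop,
        mixedDegree (g ^ l) y n 1 ^ (1 / (l : ℝ)) < ENNReal.ofReal (Real.exp ε) := by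
      refine Filter.eventually_lt_of_limsup_lt (lt_of_le_of_lt h ?_) (by isBoundedDefault)
      rw [← ENNReal.ofReal_one]
      refine (ENNReal.ofReal_lt_ofReal_iff (Real.exp_pos _)).2 ?_
      exact Real.one_lt_exp_iff.2 hε
    obtain ⟨L, hL⟩ := Filter.eventually_atTop.1 h1
    refine ⟨1 + ∑ l ∈ Finset.range (L + 1), dg hy hi n (g ^ l), fun l => ?_⟩
    have hs : 0 ≤ ∑ l ∈ Finset.range (L + 1), dg hy hi n (g ^ l) :=
      Finset.sum_nonneg fun _ _ => dg_nonneg hy hi _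
    have hexp : (1 : ℝ) ≤ Real.exp (ε * l) := Real.one_le_exp (by positivity)
    rcases Nat.lt_or_ge l (L + 1) with h2 | h2
    · have h3 := Finset.single_le_sum (f := fun l => dg hy hi n (g ^ l))
        (fun _ _ => dg_nonneg hy hi _) (Finset.mem_range.2 h2)
      have h4 := mul_le_mul_of_nonneg_left hexp
        (show 0 ≤ 1 + ∑ l ∈ Finset.range (L + 1), dg hy hi n (g ^ l) by positivity)
      linarith
    · have hl0 : (0 : ℝ) < l := by exact_mod_cast (show 0 < l by omega)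
      have h3 := hL l (by omega)
      have h4 := ENNReal.rpow_lt_rpow h3 hl0
      rw [← ENNReal.rpow_mul, one_div, inv_mul_cancel₀ hl0.ne', ENNReal.rpow_one,
        ENNReal.rpow_natCast, ← ENNReal.ofReal_pow (Real.exp_pos _).le, ← Real.exp_nat_mul,
        md_dg hy hn hn0 hi] at h4
      have h5 := (ENNReal.ofReal_lt_ofReal_iff (Real.exp_pos _)).1 h4
      rw [mul_comm] at h5
      have h6 := mul_nonneg hs (Real.exp_pos (ε * l)).le
      linarith
  · intro h
    refine le_of_forall_gt_imp_ge_of_dense fun s hs => ?_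
    rcases eq_or_ne s ⊤ with rfl | hs'
    · exact le_top
    obtain ⟨t, ht⟩ : ∃ t : NNReal, (t : ℝ≥0∞) = s := ⟨s.toNNReal, ENNReal.coe_toNNReal hs'⟩
    have ht1 : (1 : ℝ) < t := by
      rw [← ht] at hs
      exact_mod_cast hs
    have hlog : 0 < Real.log t := Real.log_pos ht1
    obtain ⟨B, hB⟩ := h (Real.log t / 2) (by positivity)
    refine Filter.limsup_le_of_le (by isBoundedDefault) ?_
    have htend : Filter.Tendsto (fun l : ℕ => Real.exp (Real.log t / 2 * l)) Filter.atTop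
        Filter.atTop := Real.tendsto_exp_atTop.comp
      ((tendsto_natCast_atTop_atTop (R := ℝ)).const_mul_atTop (by positivity))
    filter_upwards [htend.eventually_gt_atTop B, Filter.eventually_gt_atTop 0] with l hl hl0
    have hl0' : (0 : ℝ) < l := by exact_mod_cast hl0
    have h2 : mixedDegree (g ^ l) y n 1 ≤ s ^ (l : ℝ) := by
      rw [md_dg hy hn hn0 hi, ← ht]
      have h5 : (t : ℝ≥0∞) ^ (l : ℝ) = ENNReal.ofReal (Real.exp (Real.log t * l)) := by
        rw [ENNReal.rpow_natCast, Real.exp_mul, Real.exp_log (by linarith),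
          Real.rpow_natCast, ENNReal.ofReal_pow t.coe_nonneg, ENNReal.ofReal_coe_nnreal]
      rw [h5]
      refine ENNReal.ofReal_le_ofReal ((hB l).trans ?_)
      have h9 : Real.exp (Real.log t * l) =
          Real.exp (Real.log t / 2 * l) * Real.exp (Real.log t / 2 * l) := by
        rw [← Real.exp_add]
        congr 1
        ring
      rw [h9]
      exact mul_le_mul_of_nonneg_right hl.le (Real.exp_pos _).le
    calc mixedDegree (g ^ l) y n 1 ^ (1 / (l : ℝ)) ≤ (s ^ (l : ℝ)) ^ (1 / (l : ℝ)) :=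
          ENNReal.rpow_le_rpow h2 (by positivity)
      _ = s := by
        rw [← ENNReal.rpow_mul, mul_one_div, div_self hl0'.ne', ENNReal.rpow_one]

end

end Run7.h528.NR
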