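import Pool.Agent.N110.RK.Geo
import Pool.Agent.N110.DV.Pull
import Pool.Agent.Run7.h528.NR.Rank

/-!
The action of a group by birational self-maps which preserve the class of a divisor. This adapts the
theorem `exists_rsysW` of helper110 (`Pool/Agent/N110/DV/R.lean`) for lattices.
-/

set_option autoImplicit false
set_option linter.overlappingInstances false
set_option linter.unusedSectionVars false

open FF Module MvPolynomial Pool.Agent.W602.GT Pool.Agent.W603.LV
open Pool.Agent.Y172 Pool.Agent.Y191 Pool.Agent.R887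
open Pool.Agent.N110 Pool.Agent.N110.RK Pool.Agent.N110.DV

namespace Run7.h528.NR

section

variable {K : Type} [Field K] [Algebra ℂ K] {N n : ℕ} {y : Fin (N + 1) → K}

theorem exists_gsysW (hy : NormalModel y) (hn : Algebra.trdeg ℂ K = n) (hn0 : 0 < n)
    {i : Fin (N + 1)} (hi : y i ≠ 0) {E : Fin n → Derivation ℂ K K}
    (hfr : IsFrame E) {c : Place ℂ K → ℤ} (hcfin : {P | IsPrimeDivisor y P ∧ c P ≠ 0}.Finite)
    (hc' : IsDisc y E c) {Δ : Place ℂ K → ℚ}
    (hΔ : {P | IsPrimeDivisor y P ∧ Δ P ≠ 0}.Finite) {G : Type} [Group G]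
    {φ : G → (K ≃ₐ[ℂ] K)} (hφ0 : φ 1 = 1)
    (hφ : ∀ u v, φ (u * v) = φ u * φ v) (hP : ∀ v, WPulls y c Δ (φ v)) {ν : ℕ} (hν : ν ≤ n)
    (hnum : ¬ NumDimLt y n Δ ν) :
    ∃ (m : ℕ → ℝ) (M : EffT y → ℕ → Cls ℂ (affS y i)) (c ε : ℝ),
      GSys n (fun s : Multiset (Cls ℂ (affS y i)) => (I s : ℝ)) (fun v => mapCls hy hi (φ v))
        (mulCls (fin_affS i) (one_affS hi)) (hcls hy hi) m M ν c ε := by
  classical
  have hess := hy.ess
  have cx := ctx hy hn hi
  obtain ⟨Hy, hHy, hHP⟩ := exists_hyp hy hi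
  -- the sequence of sections
  unfold NumDimLt at hnum
  push Not at hnum
  obtain ⟨A0, hA0, ε, hε, hseq⟩ := hnum
  have hseq' : ∀ q : ℕ, ∃ m b : ℕ, q + 1 ≤ m ∧ (b : ℝ) ≤ 1 / (q + 1) * m ∧
      ∃ g : Fin (ν + 1) → K, (∀ j, g j ∈ Lsp y c m (m • Δ + b • A0)) ∧ g 0 ≠ 0 ∧
      ∃ u : Fin (n - ν) → K, (∀ a, IsPencil y (u a)) ∧
        ε * m ^ ν < degreeOver u (fun j : Fin ν => g j.succ / g 0) := by
    intro q
    obtain ⟨m, b, hm, hb, u, hu, ω, E', hω, hω0, hlt⟩ := hseq (1 / ((q : ℝ) + 1))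
      (by positivity) (q + 1)
    refine ⟨m, b, hm, hb, fun j => ω j E, fun j => ?_, ?_, u, hu, ?_⟩
    · exact (isSection_iff hc' (hω j).1).1 (hω j)
    · exact (ratio_frame hfr (hω 0).1 (hω 0).1 hω0).1
    · have e1 : (fun j : Fin ν => ω j.succ E / ω 0 E) = fun j : Fin ν => ω j.succ E' / ω 0 E' := by
        funext j
        exact ((ratio_frame hfr (hω 0).1 (hω j.succ).1 hω0).2).symm
      rw [e1]
      exact hlt
  choose m b hm hb g hg hg0 u hu hdeg using hseq'
  -- the divisors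
  obtain ⟨A1, hA1⟩ : ∃ A1, A1 = A0 + Hy := ⟨_, rfl⟩
  have hA1e : Effective y A1 := by rw [hA1]; exact Effective.add' hA0 hHy
  have hmem : ∀ A : EffT y, ∀ q l,
      g q 0 * (y l / y i) ∈ Lsp y c (m q) (m q • Δ + (b q + 1) • (A1 + A.A)) := by
    intro A q l
    refine Lsp_mono le_rfl hA1e.1 (fun P hP => ?_) ?_ (A := A1) (b := b q + 1)
    · have := A.eff.1 P hP
      change A1 P ≤ A1 P + A.A P
      linarith
    · rw [hA1]
      exact mul_hyp hy hA0 hHy hHP hi (hg q 0) l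
  -- the spaces
  obtain ⟨M, hMV⟩ : ∃ M : EffT y → ℕ → Cls ℂ (affS y i), ∀ A q,
      M A q = secCls hy hi hcfin hΔ (Effective.add' hA1e A.eff) (m q) (b q + 1) (hg0 q)
        (hmem A q) := ⟨_, fun _ _ => rfl⟩
  have hMmem : ∀ A q v, v ∈ (M A q).V ↔
      g q 0 * v ∈ Lsp y c (m q) (m q • Δ + (b q + 1) • (A1 + A.A)) := by
    intro A q v
    rw [hMV]
    rfl
  obtain ⟨β, f, hf, hdom⟩ := dom_sections hy hi hcfin hΔ
  have hm1 : ∀ q, 1 ≤ m q := fun q => by have := hm q; omega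
  -- pull back
  have hMpull : ∀ ψ : K ≃ₐ[ℂ] K, WPulls y c Δ ψ → ∀ A : EffT y,
      ∃ A' : EffT y, ∀ q, ∃ J : K, J ≠ 0 ∧ ∀ v ∈ (M A q).V, J * ψ v ∈ (M A' q).V := by
    intro ψ hψ A
    obtain ⟨B, hB, hB0⟩ := hψ (A1 + A.A) (Effective.add' hA1e A.eff)
    refine ⟨⟨B, hB⟩, fun q => ?_⟩
    obtain ⟨J, hJ, hB1⟩ := hB0 (m q) (hm1 q)
    refine ⟨J * ψ (g q 0) / g q 0, div_ne_zero (mul_ne_zero hJ
      (by rw [Ne, map_eq_zero]; exact hg0 q)) (hg0 q), fun v hv => ?_⟩
    rw [hMmem] at hv ⊢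
    have e1 := hB1 (b q + 1) (Nat.le_add_left 1 (b q)) _ hv
    have e2 : g q 0 * (J * ψ (g q 0) / g q 0 * ψ v) = J * ψ (g q 0 * v) := by
      rw [map_mul]
      have := hg0 q
      field_simp
    rw [e2]
    refine Lsp_mono le_rfl hB.1 (fun P hP => ?_) e1
    have := hA1e.1 P hP
    change B P ≤ A1 P + B P
    linarith
  refine ⟨fun q => (m q : ℝ), M, β + 1, ε, ?_⟩
  refine ⟨?_, exch cx, hn0, hν, by positivity, hε, ?_, ?_, ?_, ?_, ?_, ?_, ?_, ?_, ?_⟩
  · -- pos
    intro s hs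
    beta_reduce
    exact_mod_cast I_pos cx hs
  · -- zero
    funext A
    beta_reduce
    rw [hφ0, mapCls_one]
    rfl
  · -- add
    intro u v
    funext A
    change _ = mapCls hy hi (φ u) (mapCls hy hi (φ v) A)
    rw [mapCls_mapCls, hφ]
  · -- inv
    intro u s hs
    beta_reduce
    exact_mod_cast I_map hy hn hi (φ u) hs
  · -- mul_t
    intro a b s hs
    beta_reduce
    have h1 := I_add cx (D := mulCls (fin_affS i) (one_affS hi) a b) (V := a) (V' := b)
      le_rfl hs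
    have h2 := I_mul_ge cx (D := mulCls (fin_affS i) (one_affS hi) a b) (V := a) (V' := b)
      le_rfl hs
    exact_mod_cast le_antisymm h1 h2
  · -- m_pos
    intro q
    exact_mod_cast hm1 q
  · -- mono
    intro A A' hAA q s hs
    rw [one_mul]
    refine Nat.cast_le.2 (I_mono cx (g := 1) one_ne_zero (fun v hv => ?_) hs)
    rw [one_mul]
    rw [hMmem] at hv ⊢
    refine Lsp_mono le_rfl (Effective.add' hA1e A.eff).1 (fun P hP => ?_) hv
    have := hAA P hP
    change A1 P + A.A P ≤ A1 P + A'.A P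
    linarith
  · -- M_f
    intro u A
    obtain ⟨A', hA'⟩ := hMpull (φ u) (hP u) A
    refine ⟨A', fun q s hs => ?_⟩
    obtain ⟨J, hJ, hJA⟩ := hA' q
    rw [one_mul]
    refine Nat.cast_le.2 (I_mono cx (g := J) hJ ?_ hs)
    rintro _ ⟨v, hv, rfl⟩
    exact hJA v hv
  · -- M_le
    intro A
    obtain ⟨βA, gA, hgA, hdomA⟩ := hdom (A1 + A.A) (Effective.add' hA1e A.eff)
    filter_upwards [Filter.eventually_ge_atTop (2 * βA)] with q hq
    intro s hs
    have e1 := I_dom cx (V := M A q) (H := hcls hy hi) (fun v hv => hv)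
      (B := m q * β + (b q + 1) * βA) (f := f ^ m q * gA ^ (b q + 1) * g q 0)
      (mul_ne_zero (mul_ne_zero (pow_ne_zero _ hf) (pow_ne_zero _ hgA)) (hg0 q))
      (fun v hv => by
        rw [mul_assoc]
        exact hdomA (m q) (b q + 1) _ ((hMmem A q v).1 hv)) hs
    have e2 : ((m q * β + (b q + 1) * βA : ℕ) : ℝ) ≤ ((β : ℝ) + 1) * m q := by
      push_cast
      have hmq : ((q : ℝ) + 1) ≤ m q := by exact_mod_cast hm q
      have hbq := hb q
      have hq' : 2 * (βA : ℝ) ≤ q := by exact_mod_cast hq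
      have hβ0 : (0 : ℝ) ≤ βA := Nat.cast_nonneg _
      have hm0 : (0 : ℝ) ≤ m q := Nat.cast_nonneg _
      have e3 : (b q : ℝ) * βA ≤ m q / 2 := by
        have e4 : (b q : ℝ) * βA ≤ 1 / ((q : ℝ) + 1) * m q * βA :=
          mul_le_mul_of_nonneg_right hbq hβ0
        have e5 : 1 / ((q : ℝ) + 1) * m q * βA = m q * (βA / (q + 1)) := by ring
        have e6 : (βA : ℝ) / (q + 1) ≤ 1 / 2 := by
          rw [div_le_div_iff₀ (by positivity) (by norm_num)]
          linarith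
        have e7 := mul_le_mul_of_nonneg_left e6 hm0
        linarith
      nlinarith
    calc ((I (M A q ::ₘ s) : ℕ) : ℝ) ≤ ((m q * β + (b q + 1) * βA : ℕ) : ℝ) *
          (I (hcls hy hi ::ₘ s) : ℝ) := by exact_mod_cast e1
      _ ≤ ((β : ℝ) + 1) * m q * (I (hcls hy hi ::ₘ s) : ℝ) :=
        mul_le_mul_of_nonneg_right e2 (Nat.cast_nonneg _)
  · -- eps
    refine ⟨zeroE y, Filter.Eventually.of_forall fun q => ?_⟩
    obtain ⟨Z, hZ⟩ : ∃ Z : EffT y, Z = zeroE y := ⟨_, rfl⟩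
    rw [← hZ]
    have hcard : (Multiset.replicate ν (M Z q) + Multiset.replicate (n - ν)
        (hcls hy hi)).card = n := by
      rw [Multiset.card_add, Multiset.card_replicate, Multiset.card_replicate]
      omega
    have e1 : degreeOver (u q) (fun j : Fin ν => g q j.succ / g q 0) =
        dm ℂ (toM (u q) + toM (fun j : Fin ν => g q j.succ / g q 0)) :=
      deg_dm (toM_set _) (toM_set _)
    obtain ⟨Q', hQ', e2⟩ := replace_pencils' hy hn hi (toM (u q))
      (toM (fun j : Fin ν => g q j.succ / g q 0))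
      (by rw [Multiset.card_add, toM_card, toM_card]; omega) (fun z hz => by
        obtain ⟨j, rfl⟩ := mem_toM.1 hz
        exact hu q j)
    rw [toM_card] at hQ'
    have hsel : Sel (toM (fun j : Fin ν => g q j.succ / g q 0))
        (Multiset.replicate ν (M Z q)) := by
      rw [sel_rep]
      refine ⟨toM_card _, fun z hz => ?_⟩
      obtain ⟨j, rfl⟩ := mem_toM.1 hz
      rw [hMmem]
      have e3 : g q 0 * (g q j.succ / g q 0) = g q j.succ := mul_div_cancel₀ _ (hg0 q)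
      rw [e3]
      refine Lsp_mono (Nat.le_succ _) hA0.1 (fun P hP => ?_) (hg q j.succ)
      have e4 := hHy.1 P hP
      have e5 := Z.eff.1 P hP
      rw [hA1]
      change A0 P ≤ A0 P + Hy P + Z.A P
      linarith
    have e3 := le_I cx hcard (sel_add hsel hQ')
    have e4 : degreeOver (u q) (fun j : Fin ν => g q j.succ / g q 0) ≤
        I (Multiset.replicate ν (M Z q) + Multiset.replicate (n - ν) (hcls hy hi)) := by
      rw [e1]
      rw [add_comm] at e3
      exact e2.trans e3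
    have e5 : ((degreeOver (u q) (fun j : Fin ν => g q j.succ / g q 0) : ℕ) : ℝ) ≤
        (I (Multiset.replicate ν (M Z q) + Multiset.replicate (n - ν) (hcls hy hi)) : ℝ) :=
      Nat.cast_le.2 e4
    exact (hdeg q).le.trans e5

end

end Run7.h528.NR
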