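import Pool.Agent.N572.PA.Alg
import Pool.Agent.N492.PA.Mat
import Pool.Agent.N110.PA.MatN

/-!
Degrees of isomorphisms in codimension one are comparable to integral matrices: the version for
groups which need not be abelian. This adapts the theorems `alg` (helper572), `mat` (helper492) and
`matN` (helper110) for lattices.
-/

set_option autoImplicit false
set_option linter.unusedSectionVars false
set_option linter.unusedVariables false

namespace Run7.h528.NR

open Module Pool.Agent.N572.PA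

/-- ALG -/
theorem algG (𝒬 : Type) (ρ : ℕ) (G : Type) [Group G] (c : 𝒬 → Fin ρ → ℤ) (π : G → Equiv.Perm 𝒬)
    (hπ : ∀ u v, π (u * v) = π u * π v)
    (hrel : ∀ (v : G) (D : 𝒬 →₀ ℤ), (D.sum fun P a => a • c P) = 0 →
      (D.sum fun P a => a • c (π v P)) = 0) :
    ∃ (ρ' : ℕ) (M : G → Matrix (Fin ρ') (Fin ρ') ℤ) (F : Finset 𝒬) (C : ℝ), 0 < C ∧
      M 1 = 1 ∧ (∀ u v, M (u * v) = M u * M v) ∧
      (∀ v, ∑ i, ∑ j, |(M v i j : ℝ)| ≤ C * ∑ P ∈ F, ∑ i, |(c (π v P) i : ℝ)|) ∧
      (∀ P, ∃ C' : ℝ, ∀ v i, |(c (π v P) i : ℝ)| ≤ C' * ∑ i, ∑ j, |(M v i j : ℝ)|) ∧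
      ∀ D : 𝒬 →₀ ℤ, ∃ x : 𝒬 → ℤ, (D.sum fun P a => a • c P) = ∑ P ∈ F, x P • c P ∧
        ∑ P ∈ F, |(x P : ℝ)| ≤ C * ∑ i, |((D.sum fun P a => a • c P) i : ℝ)| := by
  classical
  set cl : (𝒬 →₀ ℤ) →ₗ[ℤ] (Fin ρ → ℤ) := Finsupp.linearCombination ℤ c with hcl
  have hclD : ∀ D : 𝒬 →₀ ℤ, cl D = D.sum fun P a => a • c P := fun D =>
    Finsupp.linearCombination_apply ℤ D
  obtain ⟨n, b, C1, hC1, hb⟩ := lattice_coord (LinearMap.range cl)
  -- the action on divisors
  set lm : G → (𝒬 →₀ ℤ) →ₗ[ℤ] (𝒬 →₀ ℤ) := fun v => Finsupp.lmapDomain ℤ ℤ (π v) with hlm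
  have hcllm : ∀ v D, cl (lm v D) = D.sum fun P a => a • c (π v P) := by
    intro v D
    rw [hclD, hlm]
    simp only [Finsupp.lmapDomain_apply]
    exact Finsupp.sum_mapDomain_index (fun _ => zero_smul _ _) (fun _ _ _ => add_smul _ _ _)
  have hker : ∀ v D, cl D = 0 → cl (lm v D) = 0 := by
    intro v D h
    rw [hcllm]
    exact hrel v D (by rw [← hclD]; exact h)
  have hπ0 : π 1 = 1 := by
    have h1 := hπ 1 1
    rw [mul_one] at h1
    exact (mul_eq_left.1 h1.symm)
  have hlm0 : ∀ D, lm 1 D = D := by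
    intro D
    rw [hlm]
    simp only [Finsupp.lmapDomain_apply, hπ0]
    exact Finsupp.mapDomain_id
  have hlmadd : ∀ u v D, lm (u * v) D = lm u (lm v D) := by
    intro u v D
    rw [hlm]
    simp only [Finsupp.lmapDomain_apply, hπ]
    rw [← Finsupp.mapDomain_comp]
    rfl
  -- the section
  choose g hg using fun j : Fin n => LinearMap.mem_range.1 (b j).2
  set s : LinearMap.range cl →ₗ[ℤ] (𝒬 →₀ ℤ) := b.constr ℤ g with hs
  have hsb : ∀ j, s (b j) = g j := fun j => b.constr_basis ℤ g j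
  have hcls : ∀ x : LinearMap.range cl, cl (s x) = x := by
    intro x
    have h1 : cl ∘ₗ s = (LinearMap.range cl).subtype := by
      refine b.ext fun j => ?_
      rw [LinearMap.comp_apply, hsb, hg, Submodule.subtype_apply]
    exact LinearMap.congr_fun h1 x
  set T : G → LinearMap.range cl →ₗ[ℤ] LinearMap.range cl := fun v =>
    cl.rangeRestrict ∘ₗ lm v ∘ₗ s with hT
  have hTval : ∀ v x, ((T v x : LinearMap.range cl) : Fin ρ → ℤ) = cl (lm v (s x)) := fun v x => rfl
  have hTcl : ∀ v D, ((T v (cl.rangeRestrict D) : LinearMap.range cl) : Fin ρ → ℤ) =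
      cl (lm v D) := by
    intro v D
    rw [hTval, ← sub_eq_zero, ← map_sub, ← map_sub]
    apply hker
    rw [map_sub, hcls]
    exact sub_self _
  have hT0 : T 1 = LinearMap.id := by
    refine LinearMap.ext fun x => Subtype.ext ?_
    rw [hTval, hlm0, hcls, LinearMap.id_apply]
  have hTadd : ∀ u v, T (u * v) = T u ∘ₗ T v := by
    intro u v
    refine LinearMap.ext fun x => Subtype.ext ?_
    rw [hTval, hlmadd, LinearMap.comp_apply, ← hTcl]
    rfl
  -- the finite set
  set F : Finset 𝒬 := Finset.univ.biUnion fun j => (g j).support with hF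
  have hgF : ∀ j P, P ∉ F → g j P = 0 := by
    intro j P hP
    by_contra h
    exact hP (Finset.mem_biUnion.2 ⟨j, Finset.mem_univ j, Finsupp.mem_support_iff.2 h⟩)
  set C3 : ℝ := ∑ j, ∑ P ∈ F, |(g j P : ℝ)| with hC3
  have hC30 : 0 ≤ C3 := Finset.sum_nonneg fun _ _ => Finset.sum_nonneg fun _ _ => abs_nonneg _
  have hsumF : ∀ (j : Fin n) (w : 𝒬 → Fin ρ → ℤ), ((g j).sum fun P a => a • w P) =
      ∑ P ∈ F, g j P • w P := by
    intro j w
    refine Finsupp.sum_of_support_subset _ ?_ _ (fun _ _ => zero_smul _ _)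
    intro P hP
    exact Finset.mem_biUnion.2 ⟨j, Finset.mem_univ j, hP⟩
  have hC : 0 < C1 * C3 + 1 := by positivity
  refine ⟨n, fun v => LinearMap.toMatrix b b (T v), F, C1 * C3 + 1, hC, ?_, ?_, ?_, ?_, ?_⟩
  · simp only [hT0, LinearMap.toMatrix_id]
  · intro u v
    simp only [hTadd, LinearMap.toMatrix_comp b b b]
  · intro v
    simp only [LinearMap.toMatrix_apply]
    rw [Finset.sum_comm]
    have h1 : ∀ j, ∑ i, |(b.repr (T v (b j)) i : ℝ)| ≤
        C1 * ∑ P ∈ F, |(g j P : ℝ)| * ∑ k, |(c (π v P) k : ℝ)| := by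
      intro j
      refine (hb _).trans (mul_le_mul_of_nonneg_left ?_ hC1)
      rw [hTval, hsb, hcllm, hsumF j (fun P => c (π v P))]
      calc ∑ i, |((∑ P ∈ F, g j P • c (π v P)) i : ℝ)|
          ≤ ∑ i, ∑ P ∈ F, |(g j P : ℝ)| * |(c (π v P) i : ℝ)| := by
            refine Finset.sum_le_sum fun i _ => ?_
            rw [Finset.sum_apply, Int.cast_sum]
            refine (Finset.abs_sum_le_sum_abs _ _).trans (Finset.sum_le_sum fun P _ => ?_)
            rw [Pi.smul_apply, smul_eq_mul, Int.cast_mul, abs_mul]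
        _ = ∑ P ∈ F, |(g j P : ℝ)| * ∑ k, |(c (π v P) k : ℝ)| := by
            rw [Finset.sum_comm]
            refine Finset.sum_congr rfl fun P _ => ?_
            rw [Finset.mul_sum]
    have h2 : ∀ P ∈ F, ∀ j, |(g j P : ℝ)| ≤ ∑ P ∈ F, |(g j P : ℝ)| := fun P hP j =>
      Finset.single_le_sum (f := fun P => |(g j P : ℝ)|) (fun _ _ => abs_nonneg _) hP
    have hS0 : 0 ≤ ∑ P ∈ F, ∑ i, |(c (π v P) i : ℝ)| :=
      Finset.sum_nonneg fun _ _ => Finset.sum_nonneg fun _ _ => abs_nonneg _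
    calc ∑ j, ∑ i, |(b.repr (T v (b j)) i : ℝ)|
        ≤ ∑ j, C1 * ∑ P ∈ F, (∑ P ∈ F, |(g j P : ℝ)|) * ∑ k, |(c (π v P) k : ℝ)| := by
          refine Finset.sum_le_sum fun j _ => (h1 j).trans
            (mul_le_mul_of_nonneg_left (Finset.sum_le_sum fun P hP => ?_) hC1)
          exact mul_le_mul_of_nonneg_right (h2 P hP j)
            (Finset.sum_nonneg fun _ _ => abs_nonneg _)
      _ = C1 * C3 * ∑ P ∈ F, ∑ k, |(c (π v P) k : ℝ)| := by
          rw [← Finset.mul_sum, hC3, mul_assoc, Finset.sum_mul]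
          congr 1
          refine Finset.sum_congr rfl fun j _ => ?_
          rw [← Finset.mul_sum]
      _ ≤ (C1 * C3 + 1) * ∑ P ∈ F, ∑ k, |(c (π v P) k : ℝ)| :=
          mul_le_mul_of_nonneg_right (by linarith) hS0
  · intro P
    set t : Fin n → ℤ := fun k => b.repr (cl.rangeRestrict (Finsupp.single P 1)) k with ht
    refine ⟨(∑ k, |(t k : ℝ)|) * ∑ j, ∑ i, |(((b j : LinearMap.range cl) : Fin ρ → ℤ) i : ℝ)|,
      fun v i => ?_⟩
    set N : ℝ := ∑ i, ∑ j, |((LinearMap.toMatrix b b (T v)) i j : ℝ)| with hN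
    have hNle : ∀ j k, |((LinearMap.toMatrix b b (T v)) j k : ℝ)| ≤ N := by
      intro j k
      calc |((LinearMap.toMatrix b b (T v)) j k : ℝ)|
          ≤ ∑ k, |((LinearMap.toMatrix b b (T v)) j k : ℝ)| :=
            Finset.single_le_sum (f := fun k => |((LinearMap.toMatrix b b (T v)) j k : ℝ)|)
              (fun _ _ => abs_nonneg _) (Finset.mem_univ k)
        _ ≤ N := Finset.single_le_sum
              (f := fun j => ∑ k, |((LinearMap.toMatrix b b (T v)) j k : ℝ)|)
              (fun _ _ => Finset.sum_nonneg fun _ _ => abs_nonneg _) (Finset.mem_univ j)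
    have h1 : c (π v P) = ((T v (cl.rangeRestrict (Finsupp.single P 1)) : LinearMap.range cl) :
        Fin ρ → ℤ) := by
      rw [hTcl, hcllm]
      exact ((Finsupp.sum_single_index (h := fun P a => a • c (π v P))
        (zero_smul ℤ (c (π v P)))).trans (one_smul ℤ (c (π v P)))).symm
    have h2 : ∀ j, b.repr (T v (cl.rangeRestrict (Finsupp.single P 1))) j =
        ∑ k, (LinearMap.toMatrix b b (T v)) j k * t k := by
      intro j
      have h3 := congrFun (LinearMap.toMatrix_mulVec_repr b b (T v)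
        (cl.rangeRestrict (Finsupp.single P 1))) j
      rw [← h3]
      rfl
    have h4 : ∀ j, |(b.repr (T v (cl.rangeRestrict (Finsupp.single P 1))) j : ℝ)| ≤
        N * ∑ k, |(t k : ℝ)| := by
      intro j
      rw [h2, Int.cast_sum, Finset.mul_sum]
      refine (Finset.abs_sum_le_sum_abs _ _).trans (Finset.sum_le_sum fun k _ => ?_)
      rw [Int.cast_mul, abs_mul]
      exact mul_le_mul_of_nonneg_right (hNle j k) (abs_nonneg _)
    have h5 := congrArg (fun y : LinearMap.range cl => (y : Fin ρ → ℤ) i)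
      (b.sum_repr (T v (cl.rangeRestrict (Finsupp.single P 1))))
    simp only [Submodule.coe_sum, Submodule.coe_smul, Finset.sum_apply, Pi.smul_apply,
      smul_eq_mul] at h5
    rw [h1, ← h5, Int.cast_sum]
    refine (Finset.abs_sum_le_sum_abs _ _).trans ?_
    calc ∑ j, |((b.repr (T v (cl.rangeRestrict (Finsupp.single P 1))) j *
          ((b j : LinearMap.range cl) : Fin ρ → ℤ) i : ℤ) : ℝ)|
        ≤ ∑ j, (N * ∑ k, |(t k : ℝ)|) *
            ∑ i, |(((b j : LinearMap.range cl) : Fin ρ → ℤ) i : ℝ)| := by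
          refine Finset.sum_le_sum fun j _ => ?_
          rw [Int.cast_mul, abs_mul]
          refine mul_le_mul (h4 j) ?_ (abs_nonneg _) ((abs_nonneg _).trans (h4 j))
          exact Finset.single_le_sum
            (f := fun i => |(((b j : LinearMap.range cl) : Fin ρ → ℤ) i : ℝ)|)
            (fun _ _ => abs_nonneg _) (Finset.mem_univ i)
      _ = (∑ k, |(t k : ℝ)|) *
          (∑ j, ∑ i, |(((b j : LinearMap.range cl) : Fin ρ → ℤ) i : ℝ)|) * N := by
          rw [← Finset.mul_sum]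
          ring
  · intro D
    set y : LinearMap.range cl := cl.rangeRestrict D with hy
    have hyv : (y : Fin ρ → ℤ) = D.sum fun P a => a • c P := by
      rw [← hclD]
      rfl
    have h1 : s y = ∑ j, b.repr y j • g j := by
      conv_lhs => rw [← b.sum_repr y]
      rw [map_sum]
      refine Finset.sum_congr rfl fun j _ => ?_
      rw [map_smul, hsb]
    have h1P : ∀ P, s y P = ∑ j, b.repr y j * g j P := by
      intro P
      rw [h1, Finsupp.finsetSum_apply]
      refine Finset.sum_congr rfl fun j _ => ?_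
      rw [Finsupp.smul_apply, smul_eq_mul]
    refine ⟨fun P => s y P, ?_, ?_⟩
    · rw [← hyv, ← hcls y, hclD]
      refine Finsupp.sum_of_support_subset _ ?_ _ (fun _ _ => zero_smul _ _)
      intro P hP
      by_contra hPF
      rw [Finsupp.mem_support_iff, h1P] at hP
      exact hP (Finset.sum_eq_zero fun j _ => by rw [hgF j P hPF, mul_zero])
    · rw [← hyv]
      have hS0 : 0 ≤ ∑ i, |((y : Fin ρ → ℤ) i : ℝ)| := Finset.sum_nonneg fun _ _ => abs_nonneg _
      calc ∑ P ∈ F, |(s y P : ℝ)|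
          ≤ ∑ P ∈ F, ∑ j, |(b.repr y j : ℝ)| * |(g j P : ℝ)| := by
            refine Finset.sum_le_sum fun P _ => ?_
            rw [h1P, Int.cast_sum]
            refine (Finset.abs_sum_le_sum_abs _ _).trans (Finset.sum_le_sum fun j _ => ?_)
            rw [Int.cast_mul, abs_mul]
        _ = ∑ j, |(b.repr y j : ℝ)| * ∑ P ∈ F, |(g j P : ℝ)| := by
            rw [Finset.sum_comm]
            refine Finset.sum_congr rfl fun j _ => ?_
            rw [Finset.mul_sum]
        _ ≤ ∑ j, |(b.repr y j : ℝ)| * C3 := by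
            refine Finset.sum_le_sum fun j _ => mul_le_mul_of_nonneg_left ?_ (abs_nonneg _)
            exact Finset.single_le_sum (f := fun j => ∑ P ∈ F, |(g j P : ℝ)|)
              (fun _ _ => Finset.sum_nonneg fun _ _ => abs_nonneg _) (Finset.mem_univ j)
        _ = (∑ j, |(b.repr y j : ℝ)|) * C3 := by rw [Finset.sum_mul]
        _ ≤ (C1 * ∑ i, |((y : Fin ρ → ℤ) i : ℝ)|) * C3 :=
            mul_le_mul_of_nonneg_right (hb y) hC30
        _ ≤ (C1 * C3 + 1) * ∑ i, |((y : Fin ρ → ℤ) i : ℝ)| := by nlinarith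

end Run7.h528.NR
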