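import Mathlib

/-!
A torsion free abelian group of finite rank whose elements with small coordinates vanish is free.
-/

set_option autoImplicit false

open Module

namespace Run7.h528.NR

/-- A torsion free abelian group of rank at most `k` is free of finite rank if the elements with
small rational coordinates vanish. -/
theorem free_of_disc {B : Type} [AddCommGroup B]
    (htf : ∀ (x : B) (m : ℕ), 0 < m → m • x = 0 → x = 0) (k : ℕ)
    (h1 : ∀ (q : ℕ) (b : Fin q → B), LinearIndependent ℤ b → q ≤ k)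
    (h2 : ∀ (q : ℕ) (b : Fin q → B), ∃ δ : ℝ, 0 < δ ∧ ∀ (x : B) (m : ℕ) (v : Fin q → ℤ), 0 < m →
      m • x = ∑ i, v i • b i → (∀ i, |(v i : ℝ)| ≤ δ * m) → x = 0) :
    ∃ ρ : ℕ, ρ ≤ k ∧ Nonempty (B ≃+ (Fin ρ → ℤ)) := by
  classical
  -- a maximal independent family
  obtain ⟨ρ, hρk, b, hb, hmax⟩ : ∃ ρ : ℕ, ρ ≤ k ∧ ∃ b : Fin ρ → B, LinearIndependent ℤ b ∧
      ∀ b' : Fin (ρ + 1) → B, ¬ LinearIndependent ℤ b' := by
    by_contra hcon
    push Not at hcon
    have h3 : ∀ q : ℕ, q ≤ k + 1 → ∃ b : Fin q → B, LinearIndependent ℤ b := by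
      intro q
      induction q with
      | zero => intro _; exact ⟨Fin.elim0, linearIndependent_empty_type⟩
      | succ q ih =>
        intro hq
        obtain ⟨b, hb⟩ := ih (by omega)
        exact hcon q (by omega) b hb
    obtain ⟨b, hb⟩ := h3 (k + 1) le_rfl
    have := h1 _ b hb
    omega
  have hall : ∀ x : B, ∃ (m : ℕ) (v : Fin ρ → ℤ), 0 < m ∧ m • x = ∑ i, v i • b i := by
    intro x
    have h3 := hmax (Fin.cons x b)
    rw [Fintype.linearIndependent_iff] at h3
    push Not at h3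
    obtain ⟨g, hg, i, hi⟩ := h3
    rw [Fin.sum_univ_succ] at hg
    simp only [Fin.cons_zero, Fin.cons_succ] at hg
    have h0 : g 0 ≠ 0 := by
      intro h0
      rw [h0, zero_smul, zero_add] at hg
      have h4 := (Fintype.linearIndependent_iff.1 hb) (fun i => g i.succ) hg
      refine hi ?_
      refine Fin.cases h0 (fun j => h4 j) i
    rcases Int.natAbs_eq (g 0) with h5 | h5
    · refine ⟨(g 0).natAbs, fun i => - g i.succ, Int.natAbs_pos.2 h0, ?_⟩
      have h6 : ((g 0).natAbs : ℤ) • x = g 0 • x := by rw [← h5]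
      rw [natCast_zsmul] at h6
      rw [h6]
      simp only [neg_smul, Finset.sum_neg_distrib]
      exact eq_neg_of_add_eq_zero_left hg
    · refine ⟨(g 0).natAbs, fun i => g i.succ, Int.natAbs_pos.2 h0, ?_⟩
      have h6 : ((g 0).natAbs : ℤ) • x = - (g 0 • x) := by
        rw [← neg_smul]
        congr 1
        omega
      rw [natCast_zsmul] at h6
      rw [h6]
      exact neg_eq_of_add_eq_zero_right hg
  choose m v hm hv using hall
  -- the coordinates
  obtain ⟨T, hT⟩ : ∃ T : B → Fin ρ → ℝ, ∀ x i, T x i = (v x i : ℝ) / m x := ⟨_, fun _ _ => rfl⟩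
  have huniq : ∀ (x : B) (m' : ℕ) (v' : Fin ρ → ℤ), 0 < m' → m' • x = ∑ i, v' i • b i →
      ∀ i, T x i = (v' i : ℝ) / m' := by
    intro x m' v' hm' hv' i
    have e1 : ∑ i, ((m' : ℤ) * v x i - (m x : ℤ) * v' i) • b i = 0 := by
      simp only [sub_smul, mul_smul, Finset.sum_sub_distrib]
      rw [← Finset.smul_sum, ← Finset.smul_sum, ← hv x, ← hv', natCast_zsmul, natCast_zsmul,
        smul_smul, smul_smul, mul_comm, sub_self]
    have h3 := (Fintype.linearIndependent_iff.1 hb) _ e1 i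
    have h4 : ((m' : ℝ)) * v x i = m x * v' i := by
      have h5 : (m' : ℤ) * v x i = (m x : ℤ) * v' i := by linarith
      exact_mod_cast h5
    have hm1 : (m x : ℝ) ≠ 0 := by exact_mod_cast (hm x).ne'
    have hm2 : (m' : ℝ) ≠ 0 := by exact_mod_cast hm'.ne'
    rw [hT, div_eq_div_iff hm1 hm2]
    linarith
  have hadd : ∀ x x', T (x + x') = T x + T x' := by
    intro x x'
    funext i
    have e1 : (m x * m x') • (x + x') =
        ∑ i, ((m x' : ℤ) * v x i + (m x : ℤ) * v x' i) • b i := by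
      simp only [add_smul, mul_smul, Finset.sum_add_distrib]
      rw [← Finset.smul_sum, ← Finset.smul_sum, ← hv x, ← hv x', natCast_zsmul, natCast_zsmul,
        smul_smul (m x') (m x) x, smul_smul (m x) (m x') x', mul_comm (m x') (m x), ← mul_smul,
        smul_add]
    have h3 := huniq (x + x') _ _ (Nat.mul_pos (hm x) (hm x')) e1 i
    rw [h3, Pi.add_apply, hT, hT]
    have hm1 : (m x : ℝ) ≠ 0 := by exact_mod_cast (hm x).ne'
    have hm2 : (m x' : ℝ) ≠ 0 := by exact_mod_cast (hm x').ne'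
    push_cast
    field_simp
  have hzero : ∀ x, T x = 0 → x = 0 := by
    intro x hx
    refine htf x (m x) (hm x) ?_
    rw [hv x]
    refine Finset.sum_eq_zero fun i _ => ?_
    have h3 := congrFun hx i
    rw [hT, Pi.zero_apply, div_eq_zero_iff] at h3
    rcases h3 with h3 | h3
    · have h4 : v x i = 0 := by exact_mod_cast h3
      rw [h4, zero_smul]
    · exact absurd (by exact_mod_cast h3) (hm x).ne'
  obtain ⟨T', hT'⟩ : ∃ T' : B →+ (Fin ρ → ℝ), ∀ x, T' x = T x := ⟨AddMonoidHom.mk' T hadd, fun _ => rfl⟩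
  obtain ⟨L, hL⟩ : ∃ L : Submodule ℤ (Fin ρ → ℝ), L = LinearMap.range T'.toIntLinearMap := ⟨_, rfl⟩
  have hmem : ∀ x, T x ∈ L := fun x => by
    rw [hL]
    exact ⟨x, hT' x⟩
  have hmem' : ∀ z ∈ L, ∃ x, T x = z := by
    intro z hz
    rw [hL] at hz
    obtain ⟨x, hx⟩ := hz
    exact ⟨x, (hT' x).symm.trans hx⟩
  obtain ⟨δ, hδ, hδ2⟩ := h2 ρ b
  have hdisc : DiscreteTopology L := by
    refine discreteTopology_of_isOpen_singleton_zero ?_
    rw [Metric.isOpen_iff]
    rintro z hz
    rw [Set.mem_singleton_iff] at hz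
    refine ⟨δ, hδ, fun u hu => ?_⟩
    rw [hz, mem_ball_zero_iff] at hu
    obtain ⟨x, hx⟩ := hmem' u.1 u.2
    have h3 : x = 0 := by
      refine hδ2 x (m x) (v x) (hm x) (hv x) fun i => ?_
      have h4 := norm_le_pi_norm (u : Fin ρ → ℝ) i
      rw [← hx, hT, Real.norm_eq_abs, abs_div, Nat.abs_cast] at h4
      have hm1 : (0 : ℝ) < m x := by exact_mod_cast hm x
      rw [div_le_iff₀ hm1] at h4
      refine h4.trans (mul_le_mul_of_nonneg_right ?_ hm1.le)
      rw [hx]
      exact hu.le
    refine Subtype.ext ?_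
    rw [← hx, h3]
    have h4 := hadd 0 0
    rw [add_zero] at h4
    exact left_eq_add.1 h4
  have hlat : IsZLattice ℝ L := by
    refine ⟨eq_top_iff.2 ?_⟩
    rw [← (Pi.basisFun ℝ (Fin ρ)).span_eq]
    refine Submodule.span_mono ?_
    rintro z ⟨i, rfl⟩
    have h3 : T (b i) = Pi.basisFun ℝ (Fin ρ) i := by
      funext j
      have h4 := huniq (b i) 1 (Pi.single i 1) one_pos (by
        rw [one_smul, Finset.sum_eq_single i]
        · rw [Pi.single_eq_same, one_smul]
        · intro j _ hj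
          rw [Pi.single_eq_of_ne hj, zero_smul]
        · intro h
          exact absurd (Finset.mem_univ i) h) j
      rw [h4, Pi.basisFun_apply, Nat.cast_one, div_one]
      rcases eq_or_ne j i with rfl | hj
      · rw [Pi.single_eq_same, Pi.single_eq_same, Int.cast_one]
      · rw [Pi.single_eq_of_ne hj, Pi.single_eq_of_ne hj, Int.cast_zero]
    rw [← h3]
    exact hmem _
  refine ⟨ρ, hρk, ⟨?_⟩⟩
  -- the isomorphism
  have hinj : Function.Injective T'.toIntLinearMap := by
    rw [injective_iff_map_eq_zero]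
    intro x hx
    exact hzero x ((hT' x).symm.trans hx)
  exact ((LinearEquiv.ofInjective T'.toIntLinearMap hinj).trans
    ((LinearEquiv.ofEq _ _ hL.symm).trans (IsZLattice.basis L).equivFun)).toAddEquiv

end Run7.h528.NR
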