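import Pool.Agent.Run7.h528.NR.Char

/-!
Elements with small characters have small growth; discreteness of the values of the characters.
-/

set_option autoImplicit false
set_option linter.unusedSectionVars false

open Multiset Filter Topology Module

namespace Run7.h528.NR

open Pool.Agent.N110 Pool.Agent.N110.RK

section

variable {G : Type} [Group G] {r : ℕ} (a : Fin r → G) {C : G → ℝ}

/-- the growth of the ordered products near a short vector -/
theorem pr_small (hC : ∀ v, 1 ≤ C v) (hCm : ∀ u v, C (u * v) ≤ C u * C v) {M : ℝ} (hM1 : 1 ≤ M)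
    (hg : ∀ i, C (a i) ≤ M) (hg' : ∀ i, C (a i)⁻¹ ≤ M) (v : Fin r → ℕ → ℤ) (w : Fin r → ℝ) (δ : ℝ)
    (hv : ∀ i, NL (v i) (w i)) (hw : ∀ i, |w i| ≤ δ) :
    Sml C (r * (Real.log M * δ)) (fun n => pr a fun i => v i n) := by
  have hprod : ∀ (l : List (ℕ → G)) (δ : ℝ), (∀ x ∈ l, Sml C δ x) →
      Sml C (l.length * δ) l.prod := by
    intro l δ
    induction l with
    | nil =>
      intro _
      rw [List.length_nil, Nat.cast_zero, zero_mul, List.prod_nil]
      exact ⟨(Gr.const (C 1)).of_le fun n => le_rfl,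
        (Gr.const (C 1)).of_le fun n => by rw [Pi.one_apply, inv_one]⟩
    | cons x l ih =>
      intro h
      rw [List.prod_cons, List.length_cons]
      refine (Sml.mul hC hCm (h x List.mem_cons_self)
        (ih fun y hy => h y (List.mem_cons_of_mem _ hy))).mono (le_of_eq ?_)
      push_cast
      ring
  have h1 := hprod (List.ofFn fun i => pw (a i) (v i)) (Real.log M * δ) (by
    intro x hx
    obtain ⟨i, rfl⟩ := (List.mem_ofFn' _ _).1 hx
    exact Tsl_sml a hC hCm hM1 hg hg' _ ⟨i, v i, w i, hw i, hv i, rfl⟩)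
  rw [List.length_ofFn] at h1
  have e : (List.ofFn fun i => pw (a i) (v i)).prod = fun n => pr a fun i => v i n := by
    funext n
    rw [Pi.list_prod_apply, List.map_ofFn]
    rfl
  rwa [e] at h1

theorem pr_cons (g : G) (v : Fin (r + 1) → ℤ) :
    pr (Fin.cons g a : Fin (r + 1) → G) v = g ^ v 0 * pr a (fun i => v i.succ) := by
  unfold pr
  rw [List.ofFn_succ, List.prod_cons]
  simp only [Fin.cons_zero, Fin.cons_succ]

theorem NL.floor (w : ℝ) : NL (fun n => ⌊(n : ℝ) * w⌋) w := by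
  refine ⟨1, fun n => ?_⟩
  have h4 := Int.floor_le ((n : ℝ) * w)
  have h5 := Int.lt_floor_add_one ((n : ℝ) * w)
  rw [abs_le]
  constructor <;> linarith

theorem NL.id : NL (fun n => (n : ℤ)) 1 := ⟨0, fun n => by simp⟩

/-- the characters which control the growth of the degrees `d` -/
structure Chars (d C : G → ℝ) (k : ℕ) (Ψ : G → Fin k → ℝ) : Prop where
  mul : ∀ u v, Ψ (u * v) = Ψ u + Ψ v
  zero : ∀ g, Gr 0 (fun l => d (g ^ l)) → Ψ g = 0
  small : ∀ (q : ℕ) (a : Fin q → G) (R δ : ℝ), 1 ≤ R → (∀ i, C (a i) ≤ R) →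
    (∀ i, C (a i)⁻¹ ≤ R) → ∀ (g : G) (w : Fin q → ℝ), (∀ i, |w i| ≤ δ) →
    (∀ j, Ψ g j = ∑ i, Ψ (a i) j * w i) → Gr (q * (Real.log R * δ)) (fun l => d (g ^ l))

end

section

variable {α 𝒜 G : Type} [Preorder 𝒜] [Group G] {n : ℕ} {t : Multiset α → ℝ} {φ : G → α → α}
  {mul : α → α → α} {H : α} {m : ℕ → ℝ} {M : 𝒜 → ℕ → α} {ν : ℕ} {c ε : ℝ}

theorem exists_chars [IsDirected 𝒜 (· ≤ ·)] [Nonempty 𝒜] [Group.IsNilpotent G]
    (h : GSys n t φ mul H m M ν c ε) (hνn : ν < n) {ι : Type} [Fintype ι] [Nonempty ι]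
    (s : ι → G) (hs : Submonoid.closure (Set.range s) = ⊤) :
    ∃ Ψ : G → Fin (n - ν - 1) → ℝ,
      Chars (fun g => t (φ g H ::ₘ replicate (n - 1) H)) (CCG n t φ H) (n - ν - 1) Ψ := by
  obtain ⟨Ψ, h1, h2, h3⟩ := charsT h hνn s hs
  have hC : ∀ v, 1 ≤ CCG n t φ H v := fun v => GSys.CC_one v
  have hCm : ∀ u v, CCG n t φ H (u * v) ≤ CCG n t φ H u * CCG n t φ H v := fun u v => h.CC_mul u v
  have hn := h.hn
  refine ⟨Ψ, h1, h2, ?_⟩
  intro q a R δ hR hg hg' g w hw he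
  obtain ⟨a', ha'⟩ : ∃ a' : Fin (q + 1) → G, a' = Fin.cons g a := ⟨_, rfl⟩
  obtain ⟨w', hw'⟩ : ∃ w' : Fin (q + 1) → ℝ, w' = Fin.cons 1 (fun i => - w i) := ⟨_, rfl⟩
  obtain ⟨v, hv⟩ : ∃ v : Fin (q + 1) → ℕ → ℤ, v = Fin.cons (fun n : ℕ => (n : ℤ))
    (fun (i : Fin q) (n : ℕ) => ⌊(n : ℝ) * (- w i)⌋) := ⟨_, rfl⟩
  have hNL : ∀ i, NL (v i) (w' i) := by
    intro i
    rw [hv, hw']
    refine Fin.cases ?_ (fun i => ?_) i
    · exact NL.id
    · simp only [Fin.cons_succ]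
      exact NL.floor _
  obtain ⟨W, hW⟩ : ∃ W : Submodule ℝ (Fin (q + 1) → ℝ), W = Submodule.span ℝ {w'} := ⟨_, rfl⟩
  have hWz : ∀ u ∈ W, ∀ j, ∑ i, Ψ (a' i) j * u i = 0 := by
    intro u hu j
    rw [hW, Submodule.mem_span_singleton] at hu
    obtain ⟨t, rfl⟩ := hu
    have e1 : ∑ i, Ψ (a' i) j * w' i = 0 := by
      rw [Fin.sum_univ_succ, ha', hw']
      simp only [Fin.cons_zero, Fin.cons_succ, mul_neg, mul_one]
      rw [Finset.sum_neg_distrib, he j]
      ring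
    have e2 : ∑ i, Ψ (a' i) j * (t • w') i = t * ∑ i, Ψ (a' i) j * w' i := by
      rw [Finset.mul_sum]
      exact Finset.sum_congr rfl fun i _ => by rw [Pi.smul_apply, smul_eq_mul]; ring
    rw [e2, e1, mul_zero]
  have hw'W : w' ∈ W := by
    rw [hW]
    exact Submodule.mem_span_singleton_self _
  have hX := mem_AW a' hw'W hNL
  have hXs := h.inv_small (h3 (q + 1) a' W hWz _ hX)
  have hY := pr_small a hC hCm hR hg hg' (fun i n => ⌊(n : ℝ) * (- w i)⌋) (fun i => - w i) δ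
    (fun i => NL.floor _) (fun i => by rw [abs_neg]; exact hw i)
  have h4 := (Sml.mul hC hCm hXs hY.inv).1
  rw [zero_add] at h4
  refine (h4.const_mul (c := t (replicate n H)) h.tH.le).of_le fun l => ?_
  have e3 : ((fun l : ℕ => pr a' fun i => v i l) *
      (fun n : ℕ => pr a fun i => ⌊(n : ℝ) * (- w i)⌋)⁻¹) l = g ^ l := by
    rw [Pi.mul_apply, Pi.inv_apply, ha', pr_cons, hv]
    simp only [Fin.cons_zero, Fin.cons_succ, zpow_natCast]
    rw [mul_inv_cancel_right]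
  rw [e3]
  have h5 := h.base (g ^ l) (replicate (n - 1) H) (by rw [card_replicate]; omega)
  rw [← replicate_succ, show n - 1 + 1 = n by omega] at h5
  linarith

end

section

variable {G : Type} [Group G] {d C : G → ℝ} {k : ℕ} {Ψ : G → Fin k → ℝ}

namespace Chars

theorem one (h : Chars d C k Ψ) : Ψ 1 = 0 := by
  have h1 := h.mul 1 1
  rw [mul_one] at h1
  exact left_eq_add.1 h1

theorem inv (h : Chars d C k Ψ) (g : G) : Ψ g⁻¹ = - Ψ g := by
  have h1 := h.mul g g⁻¹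
  rw [mul_inv_cancel, h.one] at h1
  exact (neg_eq_of_add_eq_zero_right h1.symm).symm

theorem pow (h : Chars d C k Ψ) (g : G) (m : ℕ) : Ψ (g ^ m) = (m : ℝ) • Ψ g := by
  induction m with
  | zero => rw [pow_zero, h.one, Nat.cast_zero, zero_smul]
  | succ m ih => rw [pow_succ, h.mul, ih, Nat.cast_succ, add_smul, one_smul]

theorem zpow (h : Chars d C k Ψ) (g : G) (m : ℤ) : Ψ (g ^ m) = (m : ℝ) • Ψ g := by
  rcases Int.eq_nat_or_neg m with ⟨l, rfl | rfl⟩
  · rw [zpow_natCast, h.pow, Int.cast_natCast]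
  · rw [zpow_neg, zpow_natCast, h.inv, h.pow, Int.cast_neg, Int.cast_natCast, neg_smul]

theorem pr (h : Chars d C k Ψ) {q : ℕ} (a : Fin q → G) (v : Fin q → ℤ) :
    Ψ (Run7.h528.NR.pr a v) = ∑ i, (v i : ℝ) • Ψ (a i) := by
  induction q with
  | zero => 
    rw [Finset.univ_eq_empty, Finset.sum_empty]
    exact h.one
  | succ q ih =>
    have e : Run7.h528.NR.pr a v = a 0 ^ v 0 * Run7.h528.NR.pr (fun i => a i.succ) (fun i => v i.succ) := by
      unfold Run7.h528.NR.pr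
      rw [List.ofFn_succ, List.prod_cons]
    rw [e, h.mul, h.zpow, ih, Fin.sum_univ_succ]

/-- the kernel of the characters -/
theorem zero_iff (h : Chars d C k Ψ) (g : G) : Ψ g = 0 ↔ Gr 0 (fun l => d (g ^ l)) := by
  refine ⟨fun h1 => ?_, h.zero g⟩
  have h2 := h.small 0 Fin.elim0 1 0 le_rfl (fun i => i.elim0) (fun i => i.elim0) g Fin.elim0
    (fun i => i.elim0) (fun j => by rw [h1]; simp)
  simpa using h2

/-- discreteness of the values of the characters on a finitely generated group -/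
theorem disc (h : Chars d C k Ψ) {ε : ℝ} (hε : 0 < ε)
    (hgap : ∀ g, Gr ε (fun l => d (g ^ l)) → Gr 0 (fun l => d (g ^ l))) {q : ℕ} (a : Fin q → G) :
    ∃ η : ℝ, 0 < η ∧ ∀ v : Fin q → ℤ, ‖∑ i, (v i : ℝ) • Ψ (a i)‖ < η →
      ∑ i, (v i : ℝ) • Ψ (a i) = 0 := by
  obtain ⟨F, hF⟩ : ∃ F : (Fin q → ℝ) →ₗ[ℝ] (Fin k → ℝ),
    F = Fintype.linearCombination ℝ (fun i => Ψ (a i)) := ⟨_, rfl⟩
  obtain ⟨σ, hσ⟩ := LinearMap.exists_rightInverse_of_surjective F.rangeRestrict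
    (LinearMap.range_eq_top.2 F.surjective_rangeRestrict)
  obtain ⟨S, hS⟩ : ∃ S : (LinearMap.range F) →L[ℝ] (Fin q → ℝ),
    S = LinearMap.toContinuousLinearMap σ := ⟨_, rfl⟩
  have hSσ : ∀ x, S x = σ x := fun x => by rw [hS]; rfl
  obtain ⟨R, hR⟩ : ∃ R : ℝ, R = 1 + ∑ i, (|C (a i)| + |C (a i)⁻¹|) := ⟨_, rfl⟩
  have hs : ∀ i, |C (a i)| + |C (a i)⁻¹| ≤ ∑ i, (|C (a i)| + |C (a i)⁻¹|) := fun i =>
    Finset.single_le_sum (f := fun i => |C (a i)| + |C (a i)⁻¹|)
      (fun i _ => add_nonneg (abs_nonneg _) (abs_nonneg _)) (Finset.mem_univ i)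
  have hR1 : 1 ≤ R := by
    rw [hR]
    have : 0 ≤ ∑ i, (|C (a i)| + |C (a i)⁻¹|) :=
      Finset.sum_nonneg fun i _ => add_nonneg (abs_nonneg _) (abs_nonneg _)
    linarith
  have hg : ∀ i, C (a i) ≤ R := fun i => by
    have := hs i
    have := abs_nonneg (C (a i)⁻¹)
    have := le_abs_self (C (a i))
    rw [hR]
    linarith
  have hg' : ∀ i, C (a i)⁻¹ ≤ R := fun i => by
    have := hs i
    have := abs_nonneg (C (a i))
    have := le_abs_self (C (a i)⁻¹)
    rw [hR]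
    linarith
  have hlog : 0 ≤ Real.log R := Real.log_nonneg hR1
  have hS0 : 0 ≤ ‖S‖ := ContinuousLinearMap.opNorm_nonneg S
  obtain ⟨η, hη⟩ : ∃ η : ℝ, η = ε / (q * Real.log R * ‖S‖ + 1) := ⟨_, rfl⟩
  have hη0 : 0 < η := by rw [hη]; positivity
  refine ⟨η, hη0, fun v hv => ?_⟩
  obtain ⟨x, hx⟩ : ∃ x, x = ∑ i, (v i : ℝ) • Ψ (a i) := ⟨_, rfl⟩
  rw [← hx] at hv ⊢
  have hxF : x = F (fun i => (v i : ℝ)) := by
    rw [hx, hF, Fintype.linearCombination_apply]
  have hxr : x ∈ LinearMap.range F := ⟨_, hxF.symm⟩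
  obtain ⟨w, hw⟩ : ∃ w, w = S ⟨x, hxr⟩ := ⟨_, rfl⟩
  have hFw : F w = x := by
    have h1 := LinearMap.congr_fun hσ ⟨x, hxr⟩
    have h2 := congrArg Subtype.val h1
    rw [hw, hSσ]
    exact h2
  have hwn : ∀ i, |w i| ≤ ‖S‖ * η := by
    intro i
    have h1 := norm_le_pi_norm w i
    have h2 := S.le_opNorm ⟨x, hxr⟩
    rw [← hw] at h2
    rw [Real.norm_eq_abs] at h1
    refine h1.trans (h2.trans (mul_le_mul_of_nonneg_left ?_ hS0))
    exact hv.le
  have hg2 := h.small q a R (‖S‖ * η) hR1 hg hg' (Run7.h528.NR.pr a v) w hwn (fun j => by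
    rw [h.pr, ← hx, ← hFw, hF, Fintype.linearCombination_apply, Finset.sum_apply]
    exact Finset.sum_congr rfl fun i _ => by rw [Pi.smul_apply, smul_eq_mul, mul_comm])
  have hle : (q : ℝ) * (Real.log R * (‖S‖ * η)) ≤ ε := by
    have e : (q * Real.log R * ‖S‖ + 1) * η = ε := by rw [hη]; field_simp
    nlinarith
  have h3 := hgap _ (hg2.mono hle)
  have h4 := (h.zero_iff _).2 h3
  rw [h.pr, ← hx] at h4
  exact h4

/-- the rank of the group modulo the kernel is at most the number of the characters -/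
theorem rank_le (h : Chars d C k Ψ) {ε : ℝ} (hε : 0 < ε)
    (hgap : ∀ g, Gr ε (fun l => d (g ^ l)) → Gr 0 (fun l => d (g ^ l))) {q : ℕ} (a : Fin q → G)
    (hind : ∀ v : Fin q → ℤ, Gr 0 (fun l => d (Run7.h528.NR.pr a v ^ l)) → v = 0) : q ≤ k := by
  obtain ⟨η, hη, hd⟩ := h.disc hε hgap a
  have hli : LinearIndependent ℤ (fun i => Ψ (a i)) := by
    rw [Fintype.linearIndependent_iff]
    intro v hv
    have h1 : ∑ i, (v i : ℝ) • Ψ (a i) = 0 := by
      rw [← hv]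
      exact Finset.sum_congr rfl fun i _ => (Int.cast_smul_eq_zsmul ℝ _ _)
    have h2 := hind v ((h.zero_iff _).1 (by rw [h.pr, h1]))
    intro i
    rw [h2]
    rfl
  have hdisc : DiscreteTopology (Submodule.span ℤ (Set.range fun i => Ψ (a i))) := by
    refine discreteTopology_of_isOpen_singleton_zero ?_
    rw [Metric.isOpen_iff]
    rintro x hx
    rw [Set.mem_singleton_iff] at hx
    refine ⟨η, hη, fun z hz => ?_⟩
    rw [hx, mem_ball_zero_iff] at hz
    obtain ⟨v, hv⟩ := (Submodule.mem_span_range_iff_exists_fun ℤ).1 z.2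
    have h1 : ∑ i, (v i : ℝ) • Ψ (a i) = (z : Fin k → ℝ) := by
      rw [← hv]
      exact Finset.sum_congr rfl fun i _ => (Int.cast_smul_eq_zsmul ℝ _ _)
    have h2 := hd v (by rw [h1]; exact hz)
    rw [h1] at h2
    exact Subtype.ext h2
  have h1 := Real.finrank_eq_int_finrank_of_discrete hdisc
  have h2 : Set.finrank ℤ (Set.range fun i => Ψ (a i)) = q := by
    rw [Set.finrank, finrank_span_eq_card hli, Fintype.card_fin]
  have h3 : Set.finrank ℝ (Set.range fun i => Ψ (a i)) ≤ k := by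
    refine (Submodule.finrank_le _).trans ?_
    rw [finrank_fin_fun]
  omega

end Chars

end

end Run7.h528.NR
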