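import Pool.Agent.Run7.h528.NR.Gap
import Pool.Agent.Run7.h528.NR.Small
import Pool.Agent.Run7.h528.NR.Quot

/-!
**The structure theorem** for nilpotent groups of birational self-maps: the elements of zero entropy
form a normal subgroup, and the quotient is free abelian of finite rank.
-/

set_option autoImplicit false
set_option linter.overlappingInstances false
set_option linter.unusedSectionVars false

open FF Module MvPolynomial Pool.Agent.W602.GT Pool.Agent.W603.LV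
open Pool.Agent.Y172 Pool.Agent.Y191 Pool.Agent.R887
open Pool.Agent.N110 Pool.Agent.N110.RK
open scoped ENNReal

namespace Run7.h528.NR

section

/-- the ordered products in a subgroup -/
theorem pr_coe {Γ : Type} [Group Γ] {H : Subgroup Γ} {q : ℕ} (a : Fin q → H) (v : Fin q → ℤ) :
    ((pr a v : H) : Γ) = pr (fun i => (a i : Γ)) v := by
  unfold pr
  rw [Subgroup.val_list_prod, List.map_ofFn]
  rfl

theorem nil_of_le {Γ : Type} [Group Γ] {G H : Subgroup Γ} (h : H ≤ G)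
    [hG : Group.IsNilpotent G] : Group.IsNilpotent H := by
  refine Subgroup.isNilpotent_of_ker_le_center (Subgroup.inclusion h) ?_ 
  rw [(MonoidHom.ker_eq_bot_iff _).2 (Subgroup.inclusion_injective h)]
  exact bot_le

variable {K : Type} [Field K] [Algebra ℂ K] {N n : ℕ} {y : Fin (N + 1) → K}

/-- the domination constants -/
noncomputable def cg (hy : NormalModel y) {i : Fin (N + 1)} (hi : y i ≠ 0) (n : ℕ)
    (g : K ≃ₐ[ℂ] K) : ℝ :=
  max 1 (4 ^ (n - 1) * dg hy hi n g / ((I (Multiset.replicate n (hcls hy hi)) : ℕ) : ℝ))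

/-- the degrees of the powers have zero growth -/
def Zr (hy : NormalModel y) {i : Fin (N + 1)} (hi : y i ≠ 0) (n : ℕ) (g : K ≃ₐ[ℂ] K) : Prop :=
  Gr 0 (fun l => dg hy hi n (g ^ l))

/-- the finitely generated subgroups have `k` characters which control the growth -/
def HasChars (hy : NormalModel y) {i : Fin (N + 1)} (hi : y i ≠ 0) (n : ℕ)
    (G : Subgroup (K ≃ₐ[ℂ] K)) (k : ℕ) : Prop :=
  ∀ (q : ℕ) (f : Fin q → (K ≃ₐ[ℂ] K)), (∀ i, f i ∈ G) →
    ∃ Ψ : Subgroup.closure (Set.range f) → Fin k → ℝ,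
      Chars (fun g : Subgroup.closure (Set.range f) => dg hy hi n (g : K ≃ₐ[ℂ] K))
        (fun g : Subgroup.closure (Set.range f) => cg hy hi n (g : K ≃ₐ[ℂ] K)) k Ψ

theorem chars_nu (hy : NormalModel y) (hn : Algebra.trdeg ℂ K = n) (hn0 : 0 < n)
    {i : Fin (N + 1)} (hi : y i ≠ 0) (G : Subgroup (K ≃ₐ[ℂ] K)) [hG : Group.IsNilpotent G]
    {Δ : Place ℂ K → ℚ} (hΔ : {P | IsPrimeDivisor y P ∧ Δ P ≠ 0}.Finite)
    (hP : ∀ g ∈ G, PullLe g y n Δ) {ν : ℕ} (hν : ν < n) (hnum : ¬ NumDimLt y n Δ ν) :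
    HasChars hy hi n G (n - ν - 1) := by
  intro q f hf
  have hle : Subgroup.closure (Set.range f) ≤ G := by
    rw [Subgroup.closure_le]
    rintro _ ⟨i, rfl⟩
    exact hf i
  have hnil : Group.IsNilpotent (Subgroup.closure (Set.range f)) := nil_of_le hle
  obtain ⟨m, M, c, ε, h⟩ := exists_gsys hy hn hn0 hi hΔ (G := Subgroup.closure (Set.range f))
    (φ := fun g => (g : K ≃ₐ[ℂ] K)) rfl (fun _ _ => rfl) (fun g => hP g (hle g.2)) hν.le hnum
  exact exists_chars h hν _ (closure_gens (gens f) (gens_top f))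

theorem chars_zero (hy : NormalModel y) (hn : Algebra.trdeg ℂ K = n) (hn0 : 0 < n)
    {i : Fin (N + 1)} (hi : y i ≠ 0) (G : Subgroup (K ≃ₐ[ℂ] K)) [hG : Group.IsNilpotent G] :
    HasChars hy hi n G (n - 0 - 1) := by
  intro q f hf
  have hle : Subgroup.closure (Set.range f) ≤ G := by
    rw [Subgroup.closure_le]
    rintro _ ⟨i, rfl⟩
    exact hf i
  have hnil : Group.IsNilpotent (Subgroup.closure (Set.range f)) := nil_of_le hle
  have cx := ctx hy hn hi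
  have h := triv_gsys (n := n) (G := Subgroup.closure (Set.range f))
    (t := fun s : Multiset (Cls ℂ (affS y i)) => (I s : ℝ))
    (φ := fun v => mapCls hy hi (v : K ≃ₐ[ℂ] K)) (mul := mulCls (fin_affS i) (one_affS hi))
    (H := hcls hy hi) (fun s hs => by exact_mod_cast I_pos cx hs) (exch cx) hn0
    (by
      funext A
      exact mapCls_one)
    (by
      intro u v
      funext A
      change _ = mapCls hy hi (u : K ≃ₐ[ℂ] K) (mapCls hy hi (v : K ≃ₐ[ℂ] K) A)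
      rw [mapCls_mapCls]
      rfl)
    (by
      intro u s hs
      exact_mod_cast I_map hy hn hi (u : K ≃ₐ[ℂ] K) hs)
    (by
      intro a b s hs
      have h1 := I_add cx (D := mulCls (fin_affS i) (one_affS hi) a b) (V := a) (V' := b)
        le_rfl hs
      have h2 := I_mul_ge cx (D := mulCls (fin_affS i) (one_affS hi) a b) (V := a) (V' := b)
        le_rfl hs
      exact_mod_cast le_antisymm h1 h2)
  exact exists_chars h hn0 _ (closure_gens (gens f) (gens_top f))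

variable {hy : NormalModel y} {i : Fin (N + 1)} {hi : y i ≠ 0} {G : Subgroup (K ≃ₐ[ℂ] K)} {k : ℕ}

/-- characters for a tuple of elements -/
theorem HasChars.get (h : HasChars hy hi n G k) {q : ℕ} (a : Fin q → G) :
    ∃ (H : Subgroup (K ≃ₐ[ℂ] K)) (Ψ : H → Fin k → ℝ) (b : Fin q → H), H ≤ G ∧
      (∀ j, (b j : K ≃ₐ[ℂ] K) = a j) ∧
      Chars (fun g : H => dg hy hi n (g : K ≃ₐ[ℂ] K)) (fun g : H => cg hy hi n (g : K ≃ₐ[ℂ] K)) k Ψ ∧
      (∀ x : H, Ψ x = 0 ↔ Zr hy hi n (x : K ≃ₐ[ℂ] K)) := by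
  obtain ⟨Ψ, hΨ⟩ := h q (fun j => (a j : K ≃ₐ[ℂ] K)) (fun j => (a j).2)
  refine ⟨_, Ψ, fun j => ⟨a j, Subgroup.subset_closure ⟨j, rfl⟩⟩, ?_, fun j => rfl, hΨ, fun x => ?_⟩
  · rw [Subgroup.closure_le]
    rintro _ ⟨j, rfl⟩
    exact (a j).2
  · rw [hΨ.zero_iff]
    exact Iff.rfl

/-- the elements of zero growth form a subgroup -/
def zeroSub (h : HasChars hy hi n G k) : Subgroup G where
  carrier := {g | Zr hy hi n (g : K ≃ₐ[ℂ] K)}
  one_mem' := by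
    obtain ⟨H, Ψ, b, -, -, hΨ, hz⟩ := h.get Fin.elim0
    exact (hz 1).1 hΨ.one
  mul_mem' := by
    intro x z hx hz'
    obtain ⟨H, Ψ, b, -, hb, hΨ, hz⟩ := h.get ![x, z]
    have e : ((b 0 * b 1 : H) : K ≃ₐ[ℂ] K) = ((x * z : G) : K ≃ₐ[ℂ] K) := by
      rw [Subgroup.coe_mul, Subgroup.coe_mul, hb, hb]
      rfl
    have h1 : Ψ (b 0) = 0 := (hz _).2 (by rw [hb]; exact hx)
    have h2 : Ψ (b 1) = 0 := (hz _).2 (by rw [hb]; exact hz')
    have h3 := (hz (b 0 * b 1)).1 (by rw [hΨ.mul, h1, h2, add_zero])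
    rw [e] at h3
    exact h3
  inv_mem' := by
    intro x hx
    obtain ⟨H, Ψ, b, -, hb, hΨ, hz⟩ := h.get ![x]
    have e : (((b 0)⁻¹ : H) : K ≃ₐ[ℂ] K) = ((x⁻¹ : G) : K ≃ₐ[ℂ] K) := by
      rw [Subgroup.coe_inv, Subgroup.coe_inv, hb]
      rfl
    have h1 : Ψ (b 0) = 0 := (hz _).2 (by rw [hb]; exact hx)
    have h3 := (hz (b 0)⁻¹).1 (by rw [hΨ.inv, h1, neg_zero])
    rw [e] at h3
    exact h3

theorem mem_zeroSub (h : HasChars hy hi n G k) (g : G) :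
    g ∈ zeroSub h ↔ Zr hy hi n (g : K ≃ₐ[ℂ] K) := Iff.rfl

theorem zeroSub_normal (h : HasChars hy hi n G k) : (zeroSub h).Normal := by
  refine ⟨fun x hx z => ?_⟩
  rw [mem_zeroSub] at hx ⊢
  obtain ⟨H, Ψ, b, -, hb, hΨ, hz⟩ := h.get ![x, z]
  have e : ((b 1 * b 0 * (b 1)⁻¹ : H) : K ≃ₐ[ℂ] K) = ((z * x * z⁻¹ : G) : K ≃ₐ[ℂ] K) := by
    rw [Subgroup.coe_mul, Subgroup.coe_mul, Subgroup.coe_inv, hb, hb]
    rfl
  have h1 : Ψ (b 0) = 0 := (hz _).2 (by rw [hb]; exact hx)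
  have h3 := (hz (b 1 * b 0 * (b 1)⁻¹)).1 (by
    rw [hΨ.mul, hΨ.mul, hΨ.inv, h1, add_zero, add_neg_cancel])
  rw [e] at h3
  exact h3

theorem zeroSub_comm (h : HasChars hy hi n G k) (x z : G) : x * z * x⁻¹ * z⁻¹ ∈ zeroSub h := by
  rw [mem_zeroSub]
  obtain ⟨H, Ψ, b, -, hb, hΨ, hz⟩ := h.get ![x, z]
  have e : ((b 0 * b 1 * (b 0)⁻¹ * (b 1)⁻¹ : H) : K ≃ₐ[ℂ] K) =
      ((x * z * x⁻¹ * z⁻¹ : G) : K ≃ₐ[ℂ] K) := by
    rw [Subgroup.coe_mul, Subgroup.coe_mul, Subgroup.coe_mul, Subgroup.coe_inv, Subgroup.coe_inv,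
      hb, hb]
    rfl
  have h3 := (hz (b 0 * b 1 * (b 0)⁻¹ * (b 1)⁻¹)).1 (by
    rw [hΨ.mul, hΨ.mul, hΨ.mul, hΨ.inv, hΨ.inv]
    abel)
  rw [e] at h3
  exact h3

theorem zeroSub_root (h : HasChars hy hi n G k) (x : G) (m : ℕ) (hm : 0 < m)
    (hx : x ^ m ∈ zeroSub h) : x ∈ zeroSub h := by
  rw [mem_zeroSub] at hx ⊢
  obtain ⟨H, Ψ, b, -, hb, hΨ, hz⟩ := h.get ![x]
  have e : ((b 0 ^ m : H) : K ≃ₐ[ℂ] K) = ((x ^ m : G) : K ≃ₐ[ℂ] K) := by
    rw [Subgroup.coe_pow, Subgroup.coe_pow, hb]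
    rfl
  have h1 := (hz (b 0 ^ m)).2 (by rw [e]; exact hx)
  rw [hΨ.pow, smul_eq_zero] at h1
  rcases h1 with h1 | h1
  · exact absurd (by exact_mod_cast h1) hm.ne'
  · have h3 := (hz (b 0)).1 h1
    rw [hb] at h3
    exact h3

end

end Run7.h528.NR
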