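import Pool.Agent.Run7.h528.NR.Struct

/-!
**The structure theorem** for nilpotent groups of birational self-maps, continued: the quotient by
the elements of zero entropy is free abelian of finite rank.
-/

set_option autoImplicit false
set_option linter.overlappingInstances false
set_option linter.unusedSectionVars false

open FF Module MvPolynomial Pool.Agent.W602.GT Pool.Agent.W603.LV
open Pool.Agent.Y172 Pool.Agent.Y191 Pool.Agent.R887
open Pool.Agent.N110 Pool.Agent.N110.RK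
open scoped ENNReal

namespace Run7.h528.NR

section

/-- an abelian quotient as an additive group -/
theorem exists_quot {Γ : Type} [Group Γ] (Z : Subgroup Γ) (hZ : Z.Normal)
    (hc : ∀ x z : Γ, x * z * x⁻¹ * z⁻¹ ∈ Z) :
    ∃ (B : Type) (_ : AddCommGroup B) (π : Γ → B), Function.Surjective π ∧
      (∀ u v, π (u * v) = π u + π v) ∧ ∀ u, π u = 0 ↔ u ∈ Z := by
  have hcomm : ∀ x z : Γ ⧸ Z, x * z = z * x := by
    intro x z
    induction x using QuotientGroup.induction_on with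
    | H x =>
      induction z using QuotientGroup.induction_on with
      | H z =>
        rw [← QuotientGroup.mk_mul, ← QuotientGroup.mk_mul, QuotientGroup.eq]
        have h1 := hc z⁻¹ x⁻¹
        have e : (x * z)⁻¹ * (z * x) = z⁻¹ * x⁻¹ * z⁻¹⁻¹ * x⁻¹⁻¹ := by group
        rw [e]
        exact h1
  let iB : CommGroup (Γ ⧸ Z) := { (inferInstance : Group (Γ ⧸ Z)) with mul_comm := hcomm }
  refine ⟨Additive (Γ ⧸ Z), inferInstance, fun g => Additive.ofMul (g : Γ ⧸ Z), ?_, ?_, ?_⟩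
  · intro b
    obtain ⟨g, hg⟩ := QuotientGroup.mk_surjective (Additive.toMul b)
    refine ⟨g, ?_⟩
    change Additive.ofMul (g : Γ ⧸ Z) = b
    rw [hg]
    rfl
  · intro u v
    rfl
  · intro u
    rw [← QuotientGroup.eq_one_iff]
    exact Iff.rfl

variable {Γ B : Type} [Group Γ] [AddCommGroup B] {π : Γ → B}

theorem pi_one (hπ : ∀ u v, π (u * v) = π u + π v) : π 1 = 0 := by
  have h1 := hπ 1 1
  rw [mul_one] at h1
  exact left_eq_add.1 h1

theorem pi_inv (hπ : ∀ u v, π (u * v) = π u + π v) (u : Γ) : π u⁻¹ = - π u := by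
  have h1 := hπ u u⁻¹
  rw [mul_inv_cancel, pi_one hπ] at h1
  exact (neg_eq_of_add_eq_zero_right h1.symm).symm

theorem pi_pow (hπ : ∀ u v, π (u * v) = π u + π v) (u : Γ) (m : ℕ) : π (u ^ m) = m • π u := by
  induction m with
  | zero => rw [pow_zero, pi_one hπ, zero_smul]
  | succ m ih => rw [pow_succ, hπ, ih, succ_nsmul]

theorem pi_zpow (hπ : ∀ u v, π (u * v) = π u + π v) (u : Γ) (m : ℤ) : π (u ^ m) = m • π u := by
  rcases Int.eq_nat_or_neg m with ⟨l, rfl | rfl⟩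
  · rw [zpow_natCast, pi_pow hπ, natCast_zsmul]
  · rw [zpow_neg, zpow_natCast, pi_inv hπ, pi_pow hπ, neg_smul, natCast_zsmul]

theorem pi_pr (hπ : ∀ u v, π (u * v) = π u + π v) {q : ℕ} (a : Fin q → Γ) (v : Fin q → ℤ) :
    π (pr a v) = ∑ i, v i • π (a i) := by
  induction q with
  | zero =>
    rw [Finset.univ_eq_empty, Finset.sum_empty]
    exact pi_one hπ
  | succ q ih =>
    have e : pr a v = a 0 ^ v 0 * pr (fun i => a i.succ) (fun i => v i.succ) := by
      unfold pr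
      rw [List.ofFn_succ, List.prod_cons]
    rw [e, hπ, pi_zpow hπ, ih, Fin.sum_univ_succ]

variable {K : Type} [Field K] [Algebra ℂ K] {N n : ℕ} {y : Fin (N + 1) → K}
  {hy : NormalModel y} {i : Fin (N + 1)} {hi : y i ≠ 0} {G : Subgroup (K ≃ₐ[ℂ] K)} {k : ℕ}

/-- the quotient is free abelian of rank at most `k` -/
theorem struct_k (h : HasChars hy hi n G k) {ε : ℝ} (hε : 0 < ε)
    (hgap : ∀ g ∈ G, Gr ε (fun l => dg hy hi n (g ^ l)) → Zr hy hi n g) :
    ∃ ρ : ℕ, ρ ≤ k ∧ ∃ Φ : G →* Multiplicative (Fin ρ → ℤ), Function.Surjective Φ ∧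
      ∀ g : G, Φ g = 1 ↔ Zr hy hi n (g : K ≃ₐ[ℂ] K) := by
  obtain ⟨B, iB, π, hsurj, hπ, hker⟩ := exists_quot (zeroSub h) (zeroSub_normal h) (zeroSub_comm h)
  have hgapH : ∀ H : Subgroup (K ≃ₐ[ℂ] K), H ≤ G → ∀ g : H,
      Gr ε (fun l => dg hy hi n ((g ^ l : H) : K ≃ₐ[ℂ] K)) →
      Gr 0 (fun l => dg hy hi n ((g ^ l : H) : K ≃ₐ[ℂ] K)) := by
    intro H hH g hg
    have h1 : Gr ε (fun l => dg hy hi n ((g : K ≃ₐ[ℂ] K) ^ l)) :=
      hg.of_le fun l => by rw [Subgroup.coe_pow]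
    have h2 := hgap g (hH g.2) h1
    exact Gr.of_le h2 fun l => by rw [Subgroup.coe_pow]
  have key := free_of_disc (B := B) ?_ k ?_ ?_
  · obtain ⟨ρ, hρ, ⟨e⟩⟩ := key
    refine ⟨ρ, hρ, MonoidHom.mk' (fun g => Multiplicative.ofAdd (e (π g))) ?_, ?_, ?_⟩
    · intro u v
      rw [hπ, map_add, ofAdd_add]
    · intro z
      obtain ⟨b, hb⟩ := e.surjective (Multiplicative.toAdd z)
      obtain ⟨g, hg⟩ := hsurj b
      refine ⟨g, ?_⟩
      rw [MonoidHom.mk'_apply, hg, hb, ofAdd_toAdd]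
    · intro g
      rw [← mem_zeroSub h, ← hker, MonoidHom.mk'_apply, ofAdd_eq_one]
      exact ⟨fun h1 => (AddEquiv.map_eq_zero_iff e).1 h1, fun h1 => by rw [h1, map_zero]⟩
  · -- torsion free
    intro x m hm hx
    obtain ⟨g, rfl⟩ := hsurj x
    rw [← pi_pow hπ, hker] at hx
    rw [hker]
    exact zeroSub_root h g m hm hx
  · -- rank
    intro q b hb
    choose a ha using fun j => hsurj (b j)
    obtain ⟨H, Ψ, c, hHG, hc, hΨ, hz⟩ := h.get a
    refine hΨ.rank_le hε (hgapH H hHG) c fun v hv => ?_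
    have h1 : Zr hy hi n ((pr c v : H) : K ≃ₐ[ℂ] K) := Gr.of_le hv fun l => by rw [Subgroup.coe_pow]
    have e : ((pr c v : H) : K ≃ₐ[ℂ] K) = ((pr a v : G) : K ≃ₐ[ℂ] K) := by
      rw [pr_coe, pr_coe]
      congr 1
      funext j
      exact hc j
    rw [e, ← mem_zeroSub h, ← hker, pi_pr hπ] at h1
    funext j
    refine (Fintype.linearIndependent_iff.1 hb) v ?_ j
    rw [← h1]
    exact Finset.sum_congr rfl fun j _ => by rw [ha]
  · -- small elements
    intro q b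
    choose a ha using fun j => hsurj (b j)
    obtain ⟨R, hR⟩ : ∃ R : ℝ, R = 1 + ∑ j, (|cg hy hi n (a j : K ≃ₐ[ℂ] K)| +
      |cg hy hi n ((a j)⁻¹ : K ≃ₐ[ℂ] K)|) := ⟨_, rfl⟩
    have hs : ∀ j, |cg hy hi n (a j : K ≃ₐ[ℂ] K)| + |cg hy hi n ((a j)⁻¹ : K ≃ₐ[ℂ] K)| ≤
        ∑ j, (|cg hy hi n (a j : K ≃ₐ[ℂ] K)| + |cg hy hi n ((a j)⁻¹ : K ≃ₐ[ℂ] K)|) := fun j =>
      Finset.single_le_sum (f := fun j => |cg hy hi n (a j : K ≃ₐ[ℂ] K)| +
        |cg hy hi n ((a j)⁻¹ : K ≃ₐ[ℂ] K)|)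
        (fun i _ => add_nonneg (abs_nonneg _) (abs_nonneg _)) (Finset.mem_univ j)
    have hR1 : 1 ≤ R := by
      rw [hR]
      have : 0 ≤ ∑ j, (|cg hy hi n (a j : K ≃ₐ[ℂ] K)| + |cg hy hi n ((a j)⁻¹ : K ≃ₐ[ℂ] K)|) :=
        Finset.sum_nonneg fun i _ => add_nonneg (abs_nonneg _) (abs_nonneg _)
      linarith
    have hlog : 0 ≤ Real.log R := Real.log_nonneg hR1
    obtain ⟨δ, hδ⟩ : ∃ δ : ℝ, δ = ε / (q * Real.log R + 1) := ⟨_, rfl⟩
    have hδ0 : 0 < δ := by rw [hδ]; positivity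
    refine ⟨δ, hδ0, fun x m v hm hx hv => ?_⟩
    obtain ⟨g, rfl⟩ := hsurj x
    obtain ⟨H, Ψ, c, hHG, hc, hΨ, hz⟩ := h.get (Fin.cons g a : Fin (q + 1) → G)
    have hc0 : (c 0 : K ≃ₐ[ℂ] K) = g := by rw [hc, Fin.cons_zero]
    have hcs : ∀ j : Fin q, (c j.succ : K ≃ₐ[ℂ] K) = a j := fun j => by rw [hc, Fin.cons_succ]
    rw [hker, mem_zeroSub, ← hc0, ← hz]
    -- the relation
    have h1 : g ^ m * (pr a v)⁻¹ ∈ zeroSub h := by
      rw [← hker, hπ, pi_pow hπ, pi_inv hπ, pi_pr hπ, hx, add_neg_eq_zero]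
      exact Finset.sum_congr rfl fun j _ => by rw [ha]
    have e : ((c 0 ^ m * (pr (fun j : Fin q => c j.succ) v)⁻¹ : H) : K ≃ₐ[ℂ] K) =
        ((g ^ m * (pr a v)⁻¹ : G) : K ≃ₐ[ℂ] K) := by
      rw [Subgroup.coe_mul, Subgroup.coe_mul, Subgroup.coe_pow, Subgroup.coe_pow, Subgroup.coe_inv,
        Subgroup.coe_inv, hc0, pr_coe, pr_coe]
      congr 3
      funext j
      exact hcs j
    rw [mem_zeroSub, ← e, ← hz, hΨ.mul, hΨ.pow, hΨ.inv, hΨ.pr, add_neg_eq_zero] at h1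
    have hm0 : (0 : ℝ) < m := by exact_mod_cast hm
    rw [hz]
    have h2 := hΨ.small q (fun j : Fin q => c j.succ) R δ hR1
      (fun j => by
        rw [hcs]
        have := hs j
        have := abs_nonneg (cg hy hi n ((a j)⁻¹ : K ≃ₐ[ℂ] K))
        have := le_abs_self (cg hy hi n (a j : K ≃ₐ[ℂ] K))
        rw [hR]
        linarith)
      (fun j => by
        rw [Subgroup.coe_inv, hcs]
        have := hs j
        have := abs_nonneg (cg hy hi n (a j : K ≃ₐ[ℂ] K))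
        have := le_abs_self (cg hy hi n ((a j)⁻¹ : K ≃ₐ[ℂ] K))
        rw [hR]
        linarith) (c 0) (fun j => (v j : ℝ) / m)
      (fun j => by
        rw [abs_div, Nat.abs_cast, div_le_iff₀ hm0]
        exact hv j)
      (fun j => by
        have h3 := congrFun h1 j
        rw [Pi.smul_apply, smul_eq_mul, Finset.sum_apply] at h3
        have h4 : (m : ℝ) * ∑ l, Ψ (c l.succ) j * ((v l : ℝ) / m) =
            ∑ l, ((v l : ℝ) • Ψ (c l.succ)) j := by
          rw [Finset.mul_sum]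
          refine Finset.sum_congr rfl fun l _ => ?_
          rw [Pi.smul_apply, smul_eq_mul]
          field_simp
        rw [← h4] at h3
        exact mul_left_cancel₀ hm0.ne' h3)
    have hle : (q : ℝ) * (Real.log R * δ) ≤ ε := by
      have e : (q * Real.log R + 1) * δ = ε := by rw [hδ]; field_simp
      nlinarith
    have h3 := hgapH H hHG (c 0) (h2.mono hle)
    exact h3.of_le fun l => by rw [Subgroup.coe_pow]

/-- the rank is unique -/
theorem rank_unique {Γ : Type} [Group Γ] {ρ ρ' : ℕ} (Φ : Γ →* Multiplicative (Fin ρ → ℤ))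
    (Φ' : Γ →* Multiplicative (Fin ρ' → ℤ)) (h : Function.Surjective Φ)
    (h' : Function.Surjective Φ') (hk : ∀ g, Φ g = 1 ↔ Φ' g = 1) : ρ = ρ' := by
  have e1 := QuotientGroup.quotientKerEquivOfSurjective Φ h
  have e2 := QuotientGroup.quotientKerEquivOfSurjective Φ' h'
  have e3 : Φ.ker = Φ'.ker := by
    ext g
    rw [MonoidHom.mem_ker, MonoidHom.mem_ker]
    exact hk g
  have e4 : Multiplicative (Fin ρ → ℤ) ≃* Multiplicative (Fin ρ' → ℤ) :=
    e1.symm.trans ((QuotientGroup.quotientMulEquivOfEq e3).trans e2)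
  have e5 : (Fin ρ → ℤ) ≃+ (Fin ρ' → ℤ) := AddEquiv.toMultiplicative.symm e4
  have h1 := LinearEquiv.finrank_eq e5.toIntLinearEquiv
  simpa using h1

end

end Run7.h528.NR
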