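import Pool.Agent.Run7.h528.NR.Basic

/-!
Growth of sequences of elements of a group, and the principle: if the degrees for the smaller form
grow subexponentially then the degrees for the form grow subexponentially.
-/

set_option autoImplicit false

open Multiset Filter Topology

namespace Run7.h528.NR

open Pool.Agent.N110 Pool.Agent.N110.RK

/-- the growth rate of the sequence `a` is at most `E` -/
def Gr (E : ℝ) (a : ℕ → ℝ) : Prop :=
  ∀ ε : ℝ, E < ε → ∃ B : ℝ, ∀ n : ℕ, a n ≤ B * Real.exp (ε * n)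

theorem Gr.mono {E E' : ℝ} {a : ℕ → ℝ} (h : Gr E a) (hE : E ≤ E') : Gr E' a :=
  fun ε hε => h ε (lt_of_le_of_lt hE hε)

theorem Gr.of_le {E : ℝ} {a b : ℕ → ℝ} (h : Gr E b) (hab : ∀ n, a n ≤ b n) : Gr E a := by
  intro ε hε
  obtain ⟨B, hB⟩ := h ε hε
  exact ⟨B, fun n => (hab n).trans (hB n)⟩

theorem Gr.bound {E : ℝ} {a : ℕ → ℝ} (h : Gr E a) {ε : ℝ} (hε : E < ε) :
    ∃ B : ℝ, 1 ≤ B ∧ ∀ n : ℕ, a n ≤ B * Real.exp (ε * n) := by
  obtain ⟨B, hB⟩ := h ε hε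
  refine ⟨max B 1, le_max_right _ _, fun n => (hB n).trans ?_⟩
  exact mul_le_mul_of_nonneg_right (le_max_left _ _) (Real.exp_pos _).le

theorem Gr.const (c : ℝ) : Gr 0 (fun _ => c) := by
  intro ε hε
  refine ⟨|c|, fun n => ?_⟩
  have h1 : (1 : ℝ) ≤ Real.exp (ε * n) := Real.one_le_exp (by positivity)
  have h2 := mul_le_mul_of_nonneg_left h1 (abs_nonneg c)
  have h3 := le_abs_self c
  linarith

theorem Gr.add {E : ℝ} {a b : ℕ → ℝ} (ha : Gr E a) (hb : Gr E b) :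
    Gr E (fun n => a n + b n) := by
  intro ε hε
  obtain ⟨B, hB⟩ := ha ε hε
  obtain ⟨B', hB'⟩ := hb ε hε
  refine ⟨B + B', fun n => ?_⟩
  rw [add_mul]
  exact add_le_add (hB n) (hB' n)

theorem Gr.mul {E F : ℝ} {a b : ℕ → ℝ} (ha0 : ∀ n, 0 ≤ a n) (hb0 : ∀ n, 0 ≤ b n)
    (ha : Gr E a) (hb : Gr F b) : Gr (E + F) (fun n => a n * b n) := by
  intro ε hε
  obtain ⟨B, hB1, hB⟩ := ha.bound (show E < E + (ε - E - F) / 2 by linarith)
  obtain ⟨B', hB1', hB'⟩ := hb.bound (show F < F + (ε - E - F) / 2 by linarith)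
  refine ⟨B * B', fun n => ?_⟩
  refine (mul_le_mul (hB n) (hB' n) (hb0 n) ((ha0 n).trans (hB n))).trans (le_of_eq ?_)
  have e : Real.exp (ε * n) = Real.exp ((E + (ε - E - F) / 2) * n) *
      Real.exp ((F + (ε - E - F) / 2) * n) := by
    rw [← Real.exp_add]
    congr 1
    ring
  rw [e]
  ring

theorem Gr.const_mul {E : ℝ} {a : ℕ → ℝ} {c : ℝ} (hc : 0 ≤ c) (ha : Gr E a) :
    Gr E (fun n => c * a n) := by
  intro ε hε
  obtain ⟨B, hB⟩ := ha ε hε
  refine ⟨c * B, fun n => ?_⟩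
  rw [mul_assoc]
  exact mul_le_mul_of_nonneg_left (hB n) hc

theorem Gr.pow {E : ℝ} {a : ℕ → ℝ} (ha0 : ∀ n, 0 ≤ a n) (ha : Gr E a) (m : ℕ) :
    Gr (m * E) (fun n => a n ^ m) := by
  induction m with
  | zero =>
    rw [Nat.cast_zero, zero_mul]
    exact (Gr.const 1).of_le fun n => by rw [pow_zero]
  | succ m ih =>
    have h := Gr.mul (fun n => pow_nonneg (ha0 n) m) ha0 ih ha
    rw [Nat.cast_succ, add_mul, one_mul]
    exact h.of_le fun n => by rw [pow_succ]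

theorem Gr.root {a : ℕ → ℝ} {m : ℕ} (hm : 0 < m)
    (ha : Gr 0 (fun n => a n ^ m)) : Gr 0 a := by
  intro ε hε
  obtain ⟨B, hB1, hB⟩ := ha.bound (show 0 < (m : ℝ) * ε by positivity)
  refine ⟨B, fun n => ?_⟩
  have h0 : 0 ≤ B * Real.exp (ε * n) := by positivity
  refine le_of_pow_le_pow_left₀ hm.ne' h0 ((hB n).trans ?_)
  rw [mul_pow, ← Real.exp_nat_mul]
  have e : (m : ℝ) * ε * n = m * (ε * n) := by ring
  rw [e]
  refine mul_le_mul_of_nonneg_right ?_ (Real.exp_pos _).le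
  exact le_self_pow₀ hB1 hm.ne'

section

variable {G : Type} [Group G] {C : G → ℝ} {k : ℕ} {J : Multiset G → ℝ} {χ : G → ℝ}

theorem NF.dgr_le (h : NF C (k + 1) J χ) (u : G) : dgr (k + 1) J u ≤ C u := by
  unfold dgr
  rw [Nat.add_sub_cancel]
  have h1 := h.dom u 1 (replicate k 1)
  rw [inv_one, one_mul, ← replicate_succ, h.norm, mul_one] at h1
  exact h1

theorem NF.dgr_pos (hC : ∀ v, 1 ≤ C v) (h : NF C (k + 1) J χ) (u : G) :
    0 < dgr (k + 1) J u := by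
  refine h.pos hC _ ?_
  rw [card_cons, card_replicate]
  omega

/-- the sequences with small growth -/
def Sml (C : G → ℝ) (ε : ℝ) (x : ℕ → G) : Prop :=
  Gr ε (fun n => C (x n)) ∧ Gr ε (fun n => C (x n)⁻¹)

/-- **The principle.** -/
theorem principle (hC : ∀ v, 1 ≤ C v) (h : NF C (k + 2) J χ) {L : Multiset G → ℝ}
    (hjnt : Jnt k J L) (hL1 : L (replicate (k + 1) 1) = 1) (hL0 : ∀ s, 0 ≤ L s)
    (A : Subgroup (ℕ → G))
    (hgen : ∀ ε : ℝ, 0 < ε → A ≤ Subgroup.closure {x | x ∈ A ∧ Sml C ε x})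
    (hχ : ∀ x ∈ A, Gr 0 (fun n => χ (x n)))
    (hL : ∀ x ∈ A, Gr 0 (fun n => dgr (k + 1) L (x n))) :
    ∀ x ∈ A, Gr 0 (fun n => dgr (k + 2) J (x n)) := by
  have hDp : ∀ u, 0 < dgr (k + 2) J u := fun u => h.dgr_pos hC u
  have hDC : ∀ u, dgr (k + 2) J u ≤ C u := fun u => h.dgr_le u
  have hdn : ∀ u, 0 ≤ dgr (k + 1) L u := fun u => hL0 _
  have hχp : ∀ u, 0 < χ u := fun u => h.chi_pos hC u
  -- the inverse of the degrees
  have hinv : ∀ x ∈ A, Gr 0 (fun n => (dgr (k + 2) J (x n))⁻¹) := by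
    intro x hx
    refine Gr.root (m := k + 2) (by omega) ?_
    have h1 := (hχ x⁻¹ (A.inv_mem hx)).const_mul (c := (4 ^ (k + 1)) ^ (k + 2)) (by positivity)
    refine h1.of_le fun n => ?_
    have h2 := h.lower hC (x n)
    rw [Pi.inv_apply, h.chi_inv, inv_pow, ← div_eq_mul_inv, le_div_iff₀ (hχp _),
      inv_mul_le_iff₀ (pow_pos (hDp _) _)]
    rw [mul_pow] at h2
    linarith
  -- the step
  have step : ∀ ε : ℝ, 0 < ε → ∀ u v : ℕ → G, u ∈ A → Sml C ε u → v ∈ A →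
      Gr ((k + 1 : ℕ) * ε) (fun n => dgr (k + 2) J (v n)) →
      Gr ((k + 1 : ℕ) * ε) (fun n => dgr (k + 2) J ((u * v) n)) := by
    intro ε hε u v hu hus hv hvD
    have g1 : Gr 0 (fun n => χ (u n)) := hχ u hu
    have g2 : Gr 0 (fun n => dgr (k + 1) L (v n)) := hL v hv
    have g3 : Gr 0 (fun n => dgr (k + 1) L (u n)⁻¹) := hL u⁻¹ (A.inv_mem hu)
    have g4 : Gr ε (fun n => dgr (k + 2) J (u n)⁻¹) := hus.2.of_le fun n => hDC _
    have g5 : Gr 0 (fun n => (dgr (k + 2) J (v n))⁻¹) := hinv v hv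
    have p2 := g2.pow (fun n => hdn _) (k + 1)
    have p3 := g3.pow (fun n => hdn _) (k + 1)
    have p4 := g4.pow (fun n => (hDp _).le) (k + 1)
    have p5 := g5.pow (fun n => (inv_pos.2 (hDp _)).le) k
    rw [mul_zero] at p2 p3 p5
    have t1 := Gr.mul (fun n => (hχp _).le) (fun n => by
        have := hdn (v n)
        have := (hDp (u n)⁻¹).le
        have := (inv_pos.2 (hDp (v n))).le
        positivity) g1
      (Gr.mul (fun n => pow_nonneg (hdn (v n)) (k + 1)) (fun n => by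
        have := (hDp (u n)⁻¹).le
        have := (inv_pos.2 (hDp (v n))).le
        positivity) p2
        (Gr.mul (fun n => pow_nonneg (hDp (u n)⁻¹).le (k + 1))
          (fun n => pow_nonneg (inv_pos.2 (hDp (v n))).le k) p4 p5))
    have t2 := Gr.mul (fun n => (hχp _).le) (fun n => by
        have := hdn (u n)⁻¹
        have := (hDp (v n)).le
        positivity) g1
      (Gr.mul (fun n => pow_nonneg (hdn (u n)⁻¹) (k + 1)) (fun n => (hDp (v n)).le) p3 hvD)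
    rw [zero_add, zero_add, add_zero] at t1
    rw [zero_add, zero_add] at t2
    have t3 := (t1.add t2).const_mul (c := (2 * 4 ^ k) ^ (k + 1) * 2 ^ k) (by positivity)
    refine t3.of_le fun n => ?_
    obtain ⟨D, hD⟩ : ∃ D, D = dgr (k + 2) J (v n) := ⟨_, rfl⟩
    obtain ⟨U, hU⟩ : ∃ U, U = dgr (k + 2) J (u n)⁻¹ := ⟨_, rfl⟩
    obtain ⟨d, hd⟩ : ∃ d, d = dgr (k + 1) L (v n) := ⟨_, rfl⟩
    obtain ⟨e, he⟩ : ∃ e, e = dgr (k + 1) L (u n)⁻¹ := ⟨_, rfl⟩
    obtain ⟨c, hc⟩ : ∃ c, c = χ (u n) := ⟨_, rfl⟩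
    have h1 := ineqG hC h hjnt hL1 (u n) (v n)
    have hD0 : 0 < D := by rw [hD]; exact hDp _
    have hU0 : 0 < U := by rw [hU]; exact hDp _
    have hd0 : 0 ≤ d := by rw [hd]; exact hdn _
    have he0 : 0 ≤ e := by rw [he]; exact hdn _
    have hc0 : 0 < c := by rw [hc]; exact hχp _
    rw [Pi.mul_apply]
    rw [← hD, ← hU, ← hd, ← he, ← hc] at h1 ⊢
    refine h1.trans ?_
    have h2 := add_pow_le (show 0 ≤ d * U / D by positivity) he0 (k + 1)
    rw [Nat.add_sub_cancel] at h2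
    have e1 : (d * U / D) ^ (k + 1) * D = d ^ (k + 1) * (U ^ (k + 1) * D⁻¹ ^ k) := by
      rw [div_pow, mul_pow, inv_pow, pow_succ D]
      field_simp
    calc c * ((2 * 4 ^ k * (d * U / D + e)) ^ (k + 1) * D)
        = c * ((2 * 4 ^ k) ^ (k + 1) * (d * U / D + e) ^ (k + 1) * D) := by rw [mul_pow (2 * 4 ^ k)]
      _ ≤ c * ((2 * 4 ^ k) ^ (k + 1) * (2 ^ k * ((d * U / D) ^ (k + 1) + e ^ (k + 1))) * D) := by
        gcongr
      _ = (2 * 4 ^ k) ^ (k + 1) * 2 ^ k * (c * ((d * U / D) ^ (k + 1) * D) +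
          c * (e ^ (k + 1) * D)) := by ring
      _ = _ := by rw [e1]
  -- all elements
  have hall : ∀ ε : ℝ, 0 < ε → ∀ x ∈ A,
      Gr ((k + 1 : ℕ) * ε) (fun n => dgr (k + 2) J (x n)) := by
    intro ε hε x hx
    have hx' := hgen ε hε hx
    have hk0 : 0 ≤ ((k + 1 : ℕ) : ℝ) * ε := by positivity
    have key : ∀ x, x ∈ Subgroup.closure {x | x ∈ A ∧ Sml C ε x} →
        x ∈ A ∧ Gr ((k + 1 : ℕ) * ε) (fun n => dgr (k + 2) J (x n)) := by
      intro x hx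
      induction hx using Subgroup.closure_induction_left with
      | one => exact ⟨A.one_mem, ((Gr.const (dgr (k + 2) J 1)).mono hk0).of_le fun n => le_rfl⟩
      | mul_left u hu v hv ih =>
        exact ⟨A.mul_mem hu.1 ih.1, step ε hε u v hu.1 hu.2 ih.1 ih.2⟩
      | inv_mul_cancel u hu v hv ih =>
        refine ⟨A.mul_mem (A.inv_mem hu.1) ih.1, step ε hε u⁻¹ v (A.inv_mem hu.1) ?_ ih.1 ih.2⟩
        refine ⟨hu.2.2, hu.2.1.of_le fun n => ?_⟩
        rw [Pi.inv_apply, inv_inv]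
    exact (key x hx').2
  intro x hx ε hε
  have hk0 : (0 : ℝ) < ((k + 1 : ℕ) : ℝ) := by positivity
  refine hall (ε / 2 / (k + 1 : ℕ)) (by positivity) x hx ε ?_
  rw [mul_div_cancel₀ _ hk0.ne']
  linarith

end

end Run7.h528.NR
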