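import Pool.Agent.N110.Defs

/-!
Definition: terminal pairs.
-/

set_option autoImplicit false

open FF Pool.Agent.W602.GT Pool.Agent.Y172 Pool.Agent.R887

namespace Run7.h528.NR

/-- The pair `(X, Δ)` has terminal singularities, `n` being the dimension of `X`: the log discrepancy
of `(X, Δ)` along `Q` is greater than `1` for all prime divisors `Q` over `X` which are exceptional,
that is, which are not prime divisors of `X`. For `Δ = 0` this means that `X` has terminal
singularities. -/
def TerminalPair {K : Type} [Field K] [Algebra ℂ K] {N : ℕ} (y : Fin (N + 1) → K) (n : ℕ)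
    (Δ : Place ℂ K → ℚ) : Prop :=
  ∀ Q : Place ℂ K, Divisorial n Q → IsPrimeDivisor y Q ∨ ∃ α : ℚ, 1 < α ∧ LogDisc y n Δ Q α

end Run7.h528.NR
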